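import Mathlib
import Pool.Graph.R_seed8.TH225.OC.Defs

/-! A submultiplicative norm on real `4 × 4` matrices -/

set_option autoImplicit false

namespace Pool.Agent.H286.MR

open Matrix Filter Topology
open Pool.Agent.TH225.OC (G)

/-- real `4 × 4` matrices -/
abbrev Mt : Type := Matrix (Fin 4) (Fin 4) ℝ

section

attribute [local instance] Matrix.linftyOpNormedRing Matrix.linftyOpNormedAlgebra

/-- the operator norm for the maximum norm -/
noncomputable def nn (A : Mt) : ℝ := ‖A‖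

lemma nn_nonneg (A : Mt) : 0 ≤ nn A := norm_nonneg _

lemma nn_add (A B : Mt) : nn (A + B) ≤ nn A + nn B := norm_add_le A B

lemma nn_sub (A B : Mt) : nn (A - B) ≤ nn A + nn B := norm_sub_le A B

lemma nn_neg (A : Mt) : nn (-A) = nn A := norm_neg A

lemma nn_sub_comm (A B : Mt) : nn (A - B) = nn (B - A) := norm_sub_rev A B

lemma nn_mul (A B : Mt) : nn (A * B) ≤ nn A * nn B := norm_mul_le A B

lemma nn_smul (c : ℝ) (A : Mt) : nn (c • A) = |c| * nn A := norm_smul c A

lemma nn_eq_zero {A : Mt} : nn A = 0 ↔ A = 0 := norm_eq_zero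

lemma nn_zero : nn (0 : Mt) = 0 := norm_zero

lemma nn_diagonal (d : Fin 4 → ℝ) : nn (diagonal d) = ‖d‖ := Matrix.linfty_opNorm_diagonal d

lemma nn_one : nn (1 : Mt) = 1 := by
  rw [← diagonal_one, nn_diagonal]
  simp

lemma continuous_nn : Continuous nn := by
  unfold nn
  exact continuous_norm

lemma entry_le (A : Mt) (i j : Fin 4) : |A i j| ≤ nn A := by
  unfold nn
  rw [Matrix.linfty_opNorm_def]
  have h1 : ‖A i j‖₊ ≤ ∑ k, ‖A i k‖₊ :=
    Finset.single_le_sum (f := fun k => ‖A i k‖₊) (fun k _ => zero_le) (Finset.mem_univ j)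
  have h2 : ∑ k, ‖A i k‖₊ ≤ Finset.univ.sup fun i => ∑ k, ‖A i k‖₊ :=
    Finset.le_sup (f := fun i => ∑ k, ‖A i k‖₊) (Finset.mem_univ i)
  have h3 := h1.trans h2
  exact_mod_cast h3

lemma nn_le_of_entries {A : Mt} {c : ℝ} (h : ∀ i j, |A i j| ≤ c) : nn A ≤ 4 * c := by
  have hc : 0 ≤ c := (abs_nonneg _).trans (h 0 0)
  unfold nn
  rw [Matrix.linfty_opNorm_def]
  have h1 : (Finset.univ.sup fun i => ∑ k, ‖A i k‖₊) ≤ ⟨4 * c, by positivity⟩ := by
    refine Finset.sup_le fun i _ => ?_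
    refine NNReal.coe_le_coe.1 ?_
    rw [NNReal.coe_sum]
    calc ∑ k, ((‖A i k‖₊ : NNReal) : ℝ) ≤ ∑ _k : Fin 4, c := Finset.sum_le_sum fun k _ => h i k
      _ = 4 * c := by simp
  exact_mod_cast h1

lemma nn_single (i j : Fin 4) (x : ℝ) : nn (single i j x) ≤ |x| := by
  unfold nn
  rw [Matrix.linfty_opNorm_def]
  have h1 : (Finset.univ.sup fun a => ∑ k, ‖(single i j x : Mt) a k‖₊) ≤ ‖x‖₊ := by
    refine Finset.sup_le fun a _ => ?_
    by_cases ha : i = a
    · subst ha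
      rw [Finset.sum_eq_single j]
      · simp
      · intro b _ hb
        simp [hb.symm]
      · intro h; exact absurd (Finset.mem_univ j) h
    · rw [Finset.sum_eq_zero]
      · exact zero_le
      · intro b _
        simp [ha]
  have h2 : ((‖x‖₊ : NNReal) : ℝ) = |x| := by simp
  rw [← h2]
  exact_mod_cast h1

lemma nn_isBounded {s : Set Mt} (h : IsCompact s) : ∃ R, ∀ A ∈ s, nn A ≤ R := by
  obtain ⟨R, hR⟩ := (h.image continuous_nn).isBounded.subset_closedBall 0
  refine ⟨R, fun A hA => ?_⟩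
  have h2 := hR ⟨A, hA, rfl⟩
  rw [mem_closedBall_zero_iff, Real.norm_of_nonneg (nn_nonneg _)] at h2
  exact h2

end

lemma co_one : ((1 : G) : Mt) = 1 := rfl

lemma co_mul (A B : G) : ((A * B : G) : Mt) = (A : Mt) * (B : Mt) := rfl

lemma co_inv_mul (A : G) : ((A⁻¹ : G) : Mt) * (A : Mt) = 1 := by
  rw [← co_mul, inv_mul_cancel, co_one]

lemma co_mul_inv (A : G) : (A : Mt) * ((A⁻¹ : G) : Mt) = 1 := by
  rw [← co_mul, mul_inv_cancel, co_one]

lemma continuous_co : Continuous fun g : G => (g : Mt) := continuous_subtype_val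

lemma continuous_nn_sl : Continuous fun g : G => nn ((g : Mt) - 1) :=
  continuous_nn.comp (continuous_subtype_val.sub continuous_const)

lemma nn_sl_eq_zero {g : G} (h : nn ((g : Mt) - 1) = 0) : g = 1 := by
  rw [nn_eq_zero, sub_eq_zero] at h
  exact Subtype.ext h

/-- the size of the inverse of an element near `1` -/
lemma nn_le_of_near {A : Mt} {δ : ℝ} (h : nn (A - 1) ≤ δ) : nn A ≤ 1 + δ := by
  have h1 := nn_add (A - 1) 1
  rw [sub_add_cancel, nn_one] at h1
  linarith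

lemma nn_inv_near {g : G} {δ : ℝ} (h : nn ((g : Mt) - 1) ≤ δ) (hδ : δ ≤ 1 / 2) :
    nn (((g⁻¹ : G) : Mt) - 1) ≤ 2 * δ := by
  set A : Mt := (g : Mt)
  set B : Mt := ((g⁻¹ : G) : Mt)
  have hAB : B * A = 1 := co_inv_mul g
  have e : B - 1 = -(A - 1) - (B - 1) * (A - 1) := by
    have : (B - 1) * (A - 1) = B * A - B - A + 1 := by noncomm_ring
    rw [this, hAB]
    noncomm_ring
  have h1 : nn (B - 1) ≤ δ + nn (B - 1) * δ := by
    calc nn (B - 1) = nn (-(A - 1) - (B - 1) * (A - 1)) := by rw [← e]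
      _ ≤ nn (-(A - 1)) + nn ((B - 1) * (A - 1)) := nn_sub _ _
      _ ≤ δ + nn (B - 1) * δ := by
          rw [nn_neg]
          have h2 := nn_nonneg (B - 1)
          have h3 : nn ((B - 1) * (A - 1)) ≤ nn (B - 1) * δ :=
            (nn_mul _ _).trans (mul_le_mul_of_nonneg_left h h2)
          linarith
  have h2 := nn_nonneg (B - 1)
  have h3 := nn_nonneg (A - 1)
  nlinarith

end Pool.Agent.H286.MR
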