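import Mathlib
import Pool.Agent.H286.MR.Norm

/-! The acting group and the unipotent elements -/

set_option autoImplicit false

namespace Pool.Agent.H286.MR

open Matrix Filter Topology
open Pool.Agent.TH225.OC (G)

/-- the first position of a type -/
def p1 : Fin 4 → Fin 4 × Fin 4 := ![(0, 2), (2, 0), (0, 3), (2, 1)]

/-- the second position of a type -/
def p2 : Fin 4 → Fin 4 × Fin 4 := ![(1, 3), (3, 1), (1, 2), (3, 0)]

/-- the nilpotent matrices -/
def Xm (β : Fin 4) (a b : ℝ) : Mt := single (p1 β).1 (p1 β).2 a + single (p2 β).1 (p2 β).2 b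

lemma Xm_add (β : Fin 4) (a b a' b' : ℝ) : Xm β (a + a') (b + b') = Xm β a b + Xm β a' b' := by
  unfold Xm
  rw [single_add, single_add]
  abel

lemma Xm_smul (β : Fin 4) (c a b : ℝ) : Xm β (c * a) (c * b) = c • Xm β a b := by
  unfold Xm
  rw [smul_add, smul_single, smul_single, smul_eq_mul, smul_eq_mul]

lemma Xm_neg (β : Fin 4) (a b : ℝ) : Xm β (-a) (-b) = -Xm β a b := by
  unfold Xm
  rw [neg_add, single_neg, single_neg]

lemma Xm_zero (β : Fin 4) : Xm β 0 0 = 0 := by
  unfold Xm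
  rw [single_zero, single_zero, add_zero]

lemma Xm_mul_Xm (β : Fin 4) (a b a' b' : ℝ) : Xm β a b * Xm β a' b' = 0 := by
  unfold Xm
  fin_cases β <;> simp [p1, p2, add_mul, mul_add]

/-- the elementary matrices as elements of the group -/
def tr (β : Fin 4) (a b : ℝ) : G :=
  ⟨1 + Xm β a b, by
    have h1 : (1 + Xm β a b) = (1 + single (p1 β).1 (p1 β).2 a) * (1 + single (p2 β).1 (p2 β).2 b) := by
      unfold Xm
      fin_cases β <;> simp [p1, p2, add_mul, mul_add, add_assoc]
    rw [h1, det_mul]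
    have h2 : ((p1 β).1) ≠ (p1 β).2 := by fin_cases β <;> decide
    have h3 : ((p2 β).1) ≠ (p2 β).2 := by fin_cases β <;> decide
    have h4 := Matrix.det_transvection_of_ne _ _ h2 a
    have h5 := Matrix.det_transvection_of_ne _ _ h3 b
    unfold Matrix.transvection at h4 h5
    rw [h4, h5, one_mul]⟩

lemma tr_coe (β : Fin 4) (a b : ℝ) : (tr β a b : Mt) = 1 + Xm β a b := rfl

lemma tr_add (β : Fin 4) (a b a' b' : ℝ) : tr β (a + a') (b + b') = tr β a b * tr β a' b' := by
  apply Subtype.ext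
  show 1 + Xm β (a + a') (b + b') = (1 + Xm β a b) * (1 + Xm β a' b')
  rw [Xm_add, add_mul, mul_add, mul_add, Xm_mul_Xm]
  simp only [one_mul, mul_one, add_zero]
  abel

lemma tr_zero (β : Fin 4) : tr β 0 0 = 1 := by
  apply Subtype.ext
  show 1 + Xm β 0 0 = 1
  rw [Xm_zero, add_zero]

lemma tr_neg (β : Fin 4) (a b : ℝ) : tr β (-a) (-b) = (tr β a b)⁻¹ := by
  rw [eq_inv_iff_mul_eq_one, ← tr_add, neg_add_cancel, neg_add_cancel, tr_zero]

/-- the size of the nilpotent matrices -/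
lemma nn_Xm (β : Fin 4) (a b : ℝ) : nn (Xm β a b) ≤ |a| + |b| :=
  (nn_add _ _).trans (add_le_add (nn_single _ _ _) (nn_single _ _ _))

/-- the diagonal matrix `diag(e^u, e^(-u), e^v, e^(-v))` -/
noncomputable def dgv (u v : ℝ) : Fin 4 → ℝ := ![Real.exp u, Real.exp (-u), Real.exp v, Real.exp (-v)]

lemma dgv_add (u v u' v' : ℝ) (i : Fin 4) : dgv (u + u') (v + v') i = dgv u v i * dgv u' v' i := by
  fin_cases i <;> simp [dgv, Real.exp_add, mul_comm]

lemma dgv_zero : dgv 0 0 = fun _ => 1 := by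
  funext i
  fin_cases i <;> simp [dgv]

lemma dgv_pos (u v : ℝ) (i : Fin 4) : 0 < dgv u v i := by
  fin_cases i <;> exact Real.exp_pos _

lemma dgv_prod (u v : ℝ) : ∏ i, dgv u v i = 1 := by
  rw [Fin.prod_univ_four]
  show Real.exp u * Real.exp (-u) * Real.exp v * Real.exp (-v) = 1
  rw [← Real.exp_add, ← Real.exp_add, ← Real.exp_add]
  simp

/-- the elements of the acting group -/
noncomputable def ag (u v : ℝ) : G := ⟨diagonal (dgv u v), by rw [det_diagonal, dgv_prod]⟩

lemma ag_coe (u v : ℝ) : (ag u v : Mt) = diagonal (dgv u v) := rfl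

lemma ag_mul (u v u' v' : ℝ) : ag u v * ag u' v' = ag (u + u') (v + v') := by
  apply Subtype.ext
  show diagonal (dgv u v) * diagonal (dgv u' v') = diagonal (dgv (u + u') (v + v'))
  rw [diagonal_mul_diagonal]
  congr 1
  funext i
  rw [dgv_add]

lemma ag_zero : ag 0 0 = 1 := by
  apply Subtype.ext
  show diagonal (dgv 0 0) = 1
  rw [dgv_zero, diagonal_one]

lemma ag_inv (u v : ℝ) : (ag u v)⁻¹ = ag (-u) (-v) := by
  rw [inv_eq_iff_mul_eq_one, ag_mul, add_neg_cancel, add_neg_cancel, ag_zero]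

/-- the exponent of a type -/
def xi (β : Fin 4) (u v : ℝ) : ℝ := (![u - v, v - u, u + v, u + v] : Fin 4 → ℝ) β

lemma ag_tr (β : Fin 4) (u v a b : ℝ) :
    ag u v * tr β a b = tr β (Real.exp (xi β u v) * a) (Real.exp (-(xi β u v)) * b) * ag u v := by
  apply Subtype.ext
  show diagonal (dgv u v) * (1 + Xm β a b) = (1 + Xm β _ _) * diagonal (dgv u v)
  rw [mul_add, add_mul, mul_one, one_mul]
  congr 1
  unfold Xm
  ext i j
  rw [diagonal_mul, mul_diagonal]
  fin_cases β <;> simp only [p1, p2, xi, dgv] <;> fin_cases i <;> fin_cases j <;>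
    simp <;>
    (try
      (first
        | (rw [mul_assoc, mul_comm a, ← mul_assoc, ← Real.exp_add]; ring_nf)
        | (rw [mul_assoc, mul_comm b, ← mul_assoc, ← Real.exp_add]; ring_nf)))

lemma ag_continuous : Continuous fun p : ℝ × ℝ => ag p.1 p.2 := by
  refine Continuous.subtype_mk ?_ _
  refine Continuous.matrix_diagonal ?_
  refine continuous_pi fun i => ?_
  fin_cases i <;> simp [dgv] <;> fun_prop

/-- the acting group `A` of the matrices `diag(e^u, e^(-u), e^v, e^(-v))` -/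
noncomputable def A : Subgroup G where
  carrier := {g | ∃ u v, g = ag u v}
  mul_mem' := by
    rintro _ _ ⟨s, t, rfl⟩ ⟨s', t', rfl⟩
    exact ⟨_, _, ag_mul s t s' t'⟩
  one_mem' := ⟨0, 0, ag_zero.symm⟩
  inv_mem' := by
    rintro _ ⟨s, t, rfl⟩
    exact ⟨_, _, ag_inv s t⟩

lemma mem_A {g : G} : g ∈ A ↔ ∃ u v, g = ag u v := Iff.rfl

/-- a diagonal matrix with the right relations is in `A` -/
lemma mem_A_of {g : G} (h : ∀ i j, i ≠ j → (g : Mt) i j = 0) (h0 : 0 < (g : Mt) 0 0)
    (h1 : (g : Mt) 0 0 * (g : Mt) 1 1 = 1) (h2 : 0 < (g : Mt) 2 2)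
    (h3 : (g : Mt) 2 2 * (g : Mt) 3 3 = 1) : g ∈ A := by
  refine ⟨Real.log ((g : Mt) 0 0), Real.log ((g : Mt) 2 2), ?_⟩
  apply Subtype.ext
  rw [ag_coe]
  ext i j
  rw [diagonal_apply]
  by_cases hij : i = j
  · subst hij
    rw [if_pos rfl]
    unfold dgv
    rw [Real.exp_neg, Real.exp_neg, Real.exp_log h0, Real.exp_log h2]
    fin_cases i
    · rfl
    · show (g : Mt) 1 1 = ((g : Mt) 0 0)⁻¹
      exact (DivisionMonoid.inv_eq_of_mul _ _ h1).symm
    · rfl
    · show (g : Mt) 3 3 = ((g : Mt) 2 2)⁻¹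
      exact (DivisionMonoid.inv_eq_of_mul _ _ h3).symm
  · rw [if_neg hij]
    exact h i j hij

lemma A_closed : IsClosed (A : Set G) := by
  have h1 : (A : Set G) = {g : G | (∀ i j, i ≠ j → (g : Mt) i j = 0) ∧ (0 ≤ (g : Mt) 0 0) ∧
      ((g : Mt) 0 0 * (g : Mt) 1 1 = 1) ∧ (0 ≤ (g : Mt) 2 2) ∧ ((g : Mt) 2 2 * (g : Mt) 3 3 = 1)} := by
    ext g
    constructor
    · rintro ⟨u, v, rfl⟩
      refine ⟨fun i j hij => ?_, ?_, ?_, ?_, ?_⟩
      · rw [ag_coe, diagonal_apply, if_neg hij]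
      · exact (Real.exp_pos u).le
      · show Real.exp u * Real.exp (-u) = 1
        rw [← Real.exp_add]; simp
      · exact (Real.exp_pos v).le
      · show Real.exp v * Real.exp (-v) = 1
        rw [← Real.exp_add]; simp
    · rintro ⟨h, h0, h1, h2, h3⟩
      refine mem_A_of h (lt_of_le_of_ne h0 ?_) h1 (lt_of_le_of_ne h2 ?_) h3
      · intro h4
        rw [← h4, zero_mul] at h1
        exact zero_ne_one h1
      · intro h4
        rw [← h4, zero_mul] at h3
        exact zero_ne_one h3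
  rw [h1]
  have hc : ∀ i j : Fin 4, Continuous fun g : G => (g : Mt) i j := fun i j =>
    continuous_subtype_val.matrix_elem i j
  refine IsClosed.inter ?_ (IsClosed.inter ?_ (IsClosed.inter ?_ (IsClosed.inter ?_ ?_)))
  · have : {g : G | ∀ i j, i ≠ j → (g : Mt) i j = 0} = ⋂ i, ⋂ j, ⋂ (_ : i ≠ j), {g : G | (g : Mt) i j = 0} := by
      ext g
      simp
    have h5 : IsClosed {g : G | ∀ i j, i ≠ j → (g : Mt) i j = 0} := by
      rw [this]
      exact isClosed_iInter fun i => isClosed_iInter fun j => isClosed_iInter fun _ =>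
        isClosed_eq (hc i j) continuous_const
    exact h5
  · exact isClosed_le continuous_const (hc 0 0)
  · exact isClosed_eq ((hc 0 0).mul (hc 1 1)) continuous_const
  · exact isClosed_le continuous_const (hc 2 2)
  · exact isClosed_eq ((hc 2 2).mul (hc 3 3)) continuous_const

end Pool.Agent.H286.MR
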