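import Mathlib

/-! Powers of elements near `1` in a Banach algebra and the exponential function -/

set_option autoImplicit false
set_option linter.unusedSectionVars false

namespace Pool.Agent.H286.MR

open Filter Topology

section

variable {𝔸 : Type} [NormedRing 𝔸] [NormOneClass 𝔸]

lemma norm_pow_sub_pow {a b : 𝔸} {K : ℝ} (hK : 1 ≤ K) (ha : ‖a‖ ≤ K) (hb : ‖b‖ ≤ K) (m : ℕ) :
    ‖a ^ m - b ^ m‖ ≤ m * K ^ m * ‖a - b‖ := by
  induction m with
  | zero => simp
  | succ m ih =>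
    have e : a ^ (m + 1) - b ^ (m + 1) = a ^ m * (a - b) + (a ^ m - b ^ m) * b := by
      rw [pow_succ, pow_succ]
      noncomm_ring
    rw [e]
    have h1 : ‖a ^ m‖ ≤ K ^ m := (norm_pow_le a m).trans (pow_le_pow_left₀ (norm_nonneg _) ha m)
    have h2 : ‖a ^ m * (a - b)‖ ≤ K ^ m * ‖a - b‖ :=
      (norm_mul_le _ _).trans (mul_le_mul_of_nonneg_right h1 (norm_nonneg _))
    have h3 : ‖(a ^ m - b ^ m) * b‖ ≤ (m * K ^ m * ‖a - b‖) * K :=
      (norm_mul_le _ _).trans (mul_le_mul ih hb (norm_nonneg _) (by positivity))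
    have h4 : K ^ m * ‖a - b‖ ≤ K ^ (m + 1) * ‖a - b‖ :=
      mul_le_mul_of_nonneg_right (pow_le_pow_right₀ hK (Nat.le_succ m)) (norm_nonneg _)
    calc _ ≤ ‖a ^ m * (a - b)‖ + ‖(a ^ m - b ^ m) * b‖ := norm_add_le _ _
      _ ≤ K ^ (m + 1) * ‖a - b‖ + (m * K ^ m * ‖a - b‖) * K := add_le_add (h2.trans h4) h3
      _ = ((m + 1 : ℕ) : ℝ) * K ^ (m + 1) * ‖a - b‖ := by
          push_cast
          ring

variable [NormedAlgebra ℝ 𝔸] [CompleteSpace 𝔸]

/-- powers of elements near `1` -/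
lemma pow_limit {x : ℕ → 𝔸} {m : ℕ → ℕ} {Y : 𝔸} (hx : Tendsto x atTop (𝓝 0))
    (hY : Tendsto (fun n => (m n : ℝ) • x n) atTop (𝓝 Y)) :
    Tendsto (fun n => (1 + x n) ^ (m n)) atTop (𝓝 (NormedSpace.exp Y)) := by
  let _ : NormedAlgebra ℚ 𝔸 := NormedAlgebra.restrictScalars ℚ ℝ 𝔸
  have h1 : Tendsto (fun n => NormedSpace.exp ((m n : ℝ) • x n)) atTop (𝓝 (NormedSpace.exp Y)) :=
    (NormedSpace.exp_continuous.tendsto Y).comp hY
  have h2 : ∀ n, NormedSpace.exp ((m n : ℝ) • x n) = (NormedSpace.exp (x n)) ^ (m n) := by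
    intro n
    rw [Nat.cast_smul_eq_nsmul, NormedSpace.exp_nsmul]
  simp_rw [h2] at h1
  have h3 : Tendsto (fun n => (1 + x n) ^ (m n) - (NormedSpace.exp (x n)) ^ (m n)) atTop (𝓝 0) := by
    -- the bounded sequence
    have hb : Tendsto (fun n => (m n : ℝ) * ‖x n‖) atTop (𝓝 ‖Y‖) := by
      refine hY.norm.congr fun n => ?_
      rw [norm_smul, Real.norm_of_nonneg (Nat.cast_nonneg _)]
    have hbd : ∀ᶠ n in atTop, (m n : ℝ) * ‖x n‖ ≤ ‖Y‖ + 1 :=
      (hb.eventually_lt_const (lt_add_one _)).mono fun n hn => hn.le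
    -- the derivative of the exponential function
    have hd : (fun y : 𝔸 => NormedSpace.exp y - NormedSpace.exp 0 - (1 : 𝔸 →L[ℝ] 𝔸) (y - 0)) =o[𝓝 0]
        fun y => y - 0 := (hasFDerivAt_exp_zero (𝕂 := ℝ) (𝔸 := 𝔸)).isLittleO
    have hd' : ∀ c : ℝ, 0 < c → ∀ᶠ n in atTop, ‖NormedSpace.exp (x n) - (1 + x n)‖ ≤ c * ‖x n‖ := by
      intro c hc
      have h4 := hx.eventually (hd.def hc)
      filter_upwards [h4] with n hn
      have e : NormedSpace.exp (x n) - NormedSpace.exp 0 - (1 : 𝔸 →L[ℝ] 𝔸) (x n - 0) =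
          NormedSpace.exp (x n) - (1 + x n) := by
        rw [NormedSpace.exp_zero, sub_zero]
        show NormedSpace.exp (x n) - 1 - x n = _
        abel
      rw [e, sub_zero] at hn
      exact hn
    rw [tendsto_zero_iff_norm_tendsto_zero]
    set C := (‖Y‖ + 1) * Real.exp (2 * (‖Y‖ + 1)) with hC
    have hCpos : 0 < C := by positivity
    rw [Metric.tendsto_atTop']
    intro δ hδ
    have h5 : ∀ᶠ n in atTop, ‖(1 + x n) ^ (m n) - (NormedSpace.exp (x n)) ^ (m n)‖ < δ := by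
      filter_upwards [hbd, hd' 1 one_pos, hd' (δ / (2 * C)) (by positivity)] with n n1 n2 n3
      have k1 : ‖1 + x n‖ ≤ Real.exp (2 * ‖x n‖) := by
        have h6 := norm_add_le (1 : 𝔸) (x n)
        rw [norm_one] at h6
        have h7 := Real.add_one_le_exp (2 * ‖x n‖)
        have h8 := norm_nonneg (x n)
        linarith
      have k2 : ‖NormedSpace.exp (x n)‖ ≤ Real.exp (2 * ‖x n‖) := by
        have h6 := norm_add_le (NormedSpace.exp (x n) - (1 + x n)) (1 + x n)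
        rw [sub_add_cancel] at h6
        have h6' := norm_add_le (1 : 𝔸) (x n)
        rw [norm_one] at h6'
        have h7 := Real.add_one_le_exp (2 * ‖x n‖)
        linarith
      have k3 : (1 : ℝ) ≤ Real.exp (2 * ‖x n‖) := Real.one_le_exp (by positivity)
      have k4 := norm_pow_sub_pow k3 k1 k2 (m n)
      have k5 : Real.exp (2 * ‖x n‖) ^ (m n) ≤ Real.exp (2 * (‖Y‖ + 1)) := by
        rw [← Real.exp_nat_mul]
        refine Real.exp_le_exp.2 ?_
        nlinarith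
      have k6 : ‖(1 + x n) - NormedSpace.exp (x n)‖ ≤ δ / (2 * C) * ‖x n‖ := by
        rw [norm_sub_rev]
        exact n3
      calc _ ≤ (m n : ℝ) * Real.exp (2 * ‖x n‖) ^ (m n) * ‖(1 + x n) - NormedSpace.exp (x n)‖ := k4
        _ ≤ (m n : ℝ) * Real.exp (2 * (‖Y‖ + 1)) * (δ / (2 * C) * ‖x n‖) := by gcongr
        _ = ((m n : ℝ) * ‖x n‖) * Real.exp (2 * (‖Y‖ + 1)) * (δ / (2 * C)) := by ring
        _ ≤ (‖Y‖ + 1) * Real.exp (2 * (‖Y‖ + 1)) * (δ / (2 * C)) := by gcongr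
        _ = δ / 2 := by
            rw [← hC]
            field_simp
        _ < δ := half_lt_self hδ
    obtain ⟨N, hN⟩ := eventually_atTop.1 h5
    refine ⟨N, fun n hn => ?_⟩
    rw [dist_zero_right, norm_norm]
    exact hN n hn.le
  have h4 := h3.add h1
  rw [zero_add] at h4
  refine h4.congr fun n => ?_
  abel

/-- the derivative of the exponential function along a line -/
lemma exp_slope (Z : 𝔸) {t : ℕ → ℝ} (ht : Tendsto t atTop (𝓝 0)) (ht0 : ∀ n, t n ≠ 0) :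
    Tendsto (fun n => (t n)⁻¹ • (NormedSpace.exp (t n • Z) - 1)) atTop (𝓝 Z) := by
  let _ : NormedAlgebra ℚ 𝔸 := NormedAlgebra.restrictScalars ℚ ℝ 𝔸
  have hd := hasDerivAt_exp_smul_const (𝕂 := ℝ) Z (0 : ℝ)
  have h1 := hd.tendsto_slope_zero
  have h2 : Tendsto t atTop (𝓝[≠] 0) := by
    rw [tendsto_nhdsWithin_iff]
    exact ⟨ht, Eventually.of_forall fun n => ht0 n⟩
  have h3 := h1.comp h2
  simp only [zero_smul, NormedSpace.exp_zero, one_mul] at h3
  refine h3.congr fun n => ?_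
  simp

lemma exp_neg_mul (Z : 𝔸) : NormedSpace.exp (-Z) * NormedSpace.exp Z = 1 := by
  let _ : NormedAlgebra ℚ 𝔸 := NormedAlgebra.restrictScalars ℚ ℝ 𝔸
  rw [← NormedSpace.exp_add_of_commute (Commute.neg_left (Commute.refl Z)), neg_add_cancel,
    NormedSpace.exp_zero]

end

end Pool.Agent.H286.MR
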