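import Mathlib
import Pool.Agent.H286.MR.Basic
import Pool.Agent.H286.MR.Expo

/-! A criterion for a closed subgroup to be contained in `A` near `1` -/

set_option autoImplicit false

namespace Pool.Agent.H286.MR

open Filter Topology Matrix
open Pool.Agent.TH225.OC (G)

section

attribute [local instance] Matrix.linftyOpNormedRing Matrix.linftyOpNormedAlgebra

local instance instNOC : NormOneClass Mt := ⟨nn_one⟩

local instance instCplt : CompleteSpace Mt := FiniteDimensional.complete ℝ Mt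

/-- the matrix exponential -/
noncomputable def ex (Z : Mt) : Mt := NormedSpace.exp Z

lemma tendsto_iff_nn {ι : Type} {l : Filter ι} {f : ι → Mt} {B : Mt} :
    Tendsto f l (𝓝 B) ↔ Tendsto (fun n => nn (f n - B)) l (𝓝 0) :=
  tendsto_iff_norm_sub_tendsto_zero

lemma pow_limit_mt {x : ℕ → Mt} {m : ℕ → ℕ} {Y : Mt} (hx : Tendsto x atTop (𝓝 0))
    (hY : Tendsto (fun n => (m n : ℝ) • x n) atTop (𝓝 Y)) :
    Tendsto (fun n => (1 + x n) ^ (m n)) atTop (𝓝 (ex Y)) := pow_limit hx hY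

lemma exp_slope_mt (Z : Mt) {t : ℕ → ℝ} (ht : Tendsto t atTop (𝓝 0)) (ht0 : ∀ n, t n ≠ 0) :
    Tendsto (fun n => (t n)⁻¹ • (ex (t n • Z) - 1)) atTop (𝓝 Z) := exp_slope Z ht ht0

lemma ex_neg_mul (Z : Mt) : ex (-Z) * ex Z = 1 := exp_neg_mul Z

lemma ex_diagonal (d : Fin 4 → ℝ) : ex (diagonal d) = diagonal fun i => Real.exp (d i) := by
  have h1 : ex (diagonal d) = diagonal (NormedSpace.exp d) := Matrix.exp_diagonal d
  rw [h1]
  congr 1
  funext i
  rw [Pi.coe_exp, Real.exp_eq_exp_ℝ]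

end

instance instFCMt : FirstCountableTopology Mt :=
  inferInstanceAs (FirstCountableTopology (Fin 4 → Fin 4 → ℝ))

/-- compactness of the unit sphere -/
lemma unit_compact : IsCompact {B : Mt | nn B = 1} := by
  have h1 : IsCompact (Set.univ.pi fun _ : Fin 4 => Set.univ.pi fun _ : Fin 4 => Set.Icc (-1 : ℝ) 1) :=
    isCompact_univ_pi fun _ => isCompact_univ_pi fun _ => isCompact_Icc
  refine h1.of_isClosed_subset (isClosed_eq continuous_nn continuous_const) ?_
  intro B hB i _ j _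
  have h2 := entry_le B i j
  have hB' : nn B = 1 := hB
  rw [hB', abs_le] at h2
  exact h2

lemma co_pow (g : G) (m : ℕ) : ((g ^ m : G) : Mt) = (g : Mt) ^ m := by
  induction m with
  | zero => rw [pow_zero, pow_zero, co_one]
  | succ m ih => rw [pow_succ, pow_succ, co_mul, ih]

/-- limits of elements of a closed subgroup -/
lemma mem_of_limit {H : Subgroup G} (hH : IsClosed (H : Set G)) {g : ℕ → G} (hg : ∀ n, g n ∈ H)
    {B : Mt} (hB : Tendsto (fun n => (g n : Mt)) atTop (𝓝 B)) : ∃ b ∈ H, (b : Mt) = B := by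
  have hdet : B.det = 1 := by
    have h2 : Tendsto (fun n => (g n : Mt).det) atTop (𝓝 B.det) :=
      (continuous_id.matrix_det.tendsto _).comp hB
    have h3 : (fun n => (g n : Mt).det) = fun _ => 1 := by
      funext n
      exact (g n).2
    rw [h3] at h2
    exact tendsto_nhds_unique h2 tendsto_const_nhds
  have h4 : Tendsto g atTop (𝓝 (⟨B, hdet⟩ : G)) := tendsto_subtype_rng.2 hB
  exact ⟨⟨B, hdet⟩, hH.mem_of_tendsto h4 (Eventually.of_forall hg), rfl⟩

/-- tangent directions of a closed subgroup -/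
lemma tangent {H : Subgroup G} (hH : IsClosed (H : Set G)) {h : ℕ → G} (hh : ∀ n, h n ∈ H)
    (h1 : Tendsto (fun n => nn ((h n : Mt) - 1)) atTop (𝓝 0)) (hne : ∀ n, h n ≠ 1) :
    ∃ φ : ℕ → ℕ, StrictMono φ ∧ ∃ Z : Mt, nn Z = 1 ∧
      Tendsto (fun n => (nn ((h (φ n) : Mt) - 1))⁻¹ • ((h (φ n) : Mt) - 1)) atTop (𝓝 Z) ∧
      ∀ t : ℝ, ∃ g ∈ H, (g : Mt) = ex (t • Z) := by
  set s : ℕ → ℝ := fun n => nn ((h n : Mt) - 1) with hs
  have hs0 : ∀ n, 0 < s n := by
    intro n
    refine lt_of_le_of_ne (nn_nonneg _) fun h2 => hne n ?_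
    exact nn_sl_eq_zero h2.symm
  set y : ℕ → Mt := fun n => (s n)⁻¹ • ((h n : Mt) - 1) with hy
  have hy1 : ∀ n, y n ∈ {B : Mt | nn B = 1} := by
    intro n
    show nn ((s n)⁻¹ • ((h n : Mt) - 1)) = 1
    rw [nn_smul, abs_of_pos (inv_pos.2 (hs0 n))]
    exact inv_mul_cancel₀ (hs0 n).ne'
  obtain ⟨Z, hZ, φ, hφ, hlim⟩ := unit_compact.tendsto_subseq hy1
  refine ⟨φ, hφ, Z, hZ, hlim, ?_⟩
  have hpos : ∀ t : ℝ, 0 ≤ t → ∃ g ∈ H, (g : Mt) = ex (t • Z) := by
    intro t ht
    set m : ℕ → ℕ := fun n => ⌊t / s (φ n)⌋₊ with hm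
    have hsφ : Tendsto (fun n => s (φ n)) atTop (𝓝 0) := h1.comp hφ.tendsto_atTop
    have hms : Tendsto (fun n => (m n : ℝ) * s (φ n)) atTop (𝓝 t) := by
      have h2 : Tendsto (fun n => t - s (φ n)) atTop (𝓝 t) := by
        have := tendsto_const_nhds.sub hsφ (a := t)
        rwa [sub_zero] at this
      refine tendsto_of_tendsto_of_tendsto_of_le_of_le h2 tendsto_const_nhds (fun n => ?_) (fun n => ?_)
      · have h3 := Nat.lt_floor_add_one (t / s (φ n))
        rw [div_lt_iff₀ (hs0 _)] at h3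
        show t - s (φ n) ≤ (⌊t / s (φ n)⌋₊ : ℝ) * s (φ n)
        linarith
      · have h3 := Nat.floor_le (div_nonneg ht (hs0 (φ n)).le)
        rw [le_div_iff₀ (hs0 _)] at h3
        exact h3
    have hx : Tendsto (fun n => (h (φ n) : Mt) - 1) atTop (𝓝 0) := by
      rw [tendsto_iff_nn]
      simpa using hsφ
    have hY : Tendsto (fun n => (m n : ℝ) • ((h (φ n) : Mt) - 1)) atTop (𝓝 (t • Z)) := by
      have h4 := hms.smul hlim
      refine h4.congr fun n => ?_
      show ((m n : ℝ) * s (φ n)) • ((s (φ n))⁻¹ • ((h (φ n) : Mt) - 1)) = _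
      rw [smul_smul, mul_assoc, mul_inv_cancel₀ (hs0 _).ne', mul_one]
    have h5 := pow_limit_mt hx hY
    refine mem_of_limit hH (g := fun n => (h (φ n)) ^ (m n)) (fun n => pow_mem (hh _) _) ?_
    refine h5.congr fun n => ?_
    rw [co_pow]
    congr 1
    abel
  intro t
  rcases le_total 0 t with ht | ht
  · exact hpos t ht
  · obtain ⟨g, hg, hge⟩ := hpos (-t) (by linarith)
    refine ⟨g⁻¹, inv_mem hg, ?_⟩
    have h2 : (g : Mt) * ex (t • Z) = 1 := by
      have h3 := ex_neg_mul (t • Z)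
      rw [← neg_smul, ← hge] at h3
      exact h3
    calc ((g⁻¹ : G) : Mt) = ((g⁻¹ : G) : Mt) * ((g : Mt) * ex (t • Z)) := by rw [h2, mul_one]
      _ = ex (t • Z) := by rw [← mul_assoc, co_inv_mul, one_mul]

/-- elements near `1` are very close to `A`, at infinitely many scales -/
def Wp (H : Subgroup G) : Prop := ∃ r η : ℕ → ℝ, (∀ k, 0 < r k) ∧ Tendsto r atTop (𝓝 0) ∧
  Tendsto η atTop (𝓝 0) ∧ ∀ k, ∀ h ∈ H, nn ((h : Mt) - 1) < r k →
    ∃ a ∈ A, nn ((h : Mt) - (a : Mt)) ≤ η k * r k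

lemma one_param {H : Subgroup G} (hW : Wp H) {Z : Mt} (hZ : ∀ t : ℝ, ∃ g ∈ H, (g : Mt) = ex (t • Z)) :
    ∃ u v : ℝ, Z = diagonal ![u, -u, v, -v] := by
  obtain ⟨r, η, hr, hr0, hη, hW⟩ := hW
  set t : ℕ → ℝ := fun k => r k / (2 * (nn Z + 1)) with ht
  have hZ0 := nn_nonneg Z
  have ht0 : ∀ k, 0 < t k := fun k => div_pos (hr k) (by linarith)
  have htlim : Tendsto t atTop (𝓝 0) := by
    have := hr0.div_const (2 * (nn Z + 1))
    rwa [zero_div] at this
  have hsl := exp_slope_mt Z htlim fun n => (ht0 n).ne'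
  have hex : ∀ k, ∃ a ∈ A, nn (ex (t k • Z) - 1) < r k →
      nn (ex (t k • Z) - (a : Mt)) ≤ η k * r k := by
    intro k
    by_cases hk : nn (ex (t k • Z) - 1) < r k
    · obtain ⟨g, hg, hge⟩ := hZ (t k)
      obtain ⟨a, ha, h1⟩ := hW k g hg (by rw [hge]; exact hk)
      exact ⟨a, ha, fun _ => by rw [← hge]; exact h1⟩
    · exact ⟨1, one_mem _, fun h => absurd h hk⟩
  choose a ha hae using hex
  have hev : ∀ᶠ k in atTop, nn (ex (t k • Z) - 1) < r k := by
    have h1 : Tendsto (fun n => nn ((t n)⁻¹ • (ex (t n • Z) - 1))) atTop (𝓝 (nn Z)) :=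
      (continuous_nn.tendsto Z).comp hsl
    filter_upwards [h1.eventually_lt_const (lt_add_one (nn Z))] with k hk
    rw [nn_smul, abs_of_pos (inv_pos.2 (ht0 k)), inv_mul_lt_iff₀ (ht0 k)] at hk
    refine hk.trans ?_
    show r k / (2 * (nn Z + 1)) * (nn Z + 1) < r k
    have h2 : r k / (2 * (nn Z + 1)) * (nn Z + 1) = r k / 2 := by
      field_simp
    rw [h2]
    exact half_lt_self (hr k)
  -- the approximating elements of `A`
  have hE : Tendsto (fun k => (t k)⁻¹ • ((a k : Mt) - 1)) atTop (𝓝 Z) := by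
    have h1 : Tendsto (fun k => (t k)⁻¹ • (ex (t k • Z) - (a k : Mt))) atTop (𝓝 0) := by
      rw [tendsto_iff_nn]
      simp only [sub_zero]
      have h2 : Tendsto (fun k => 2 * (nn Z + 1) * η k) atTop (𝓝 0) := by
        have := hη.const_mul (2 * (nn Z + 1))
        rwa [mul_zero] at this
      refine squeeze_zero' (Eventually.of_forall fun k => nn_nonneg _) ?_ h2
      filter_upwards [hev] with k hk
      rw [nn_smul, abs_of_pos (inv_pos.2 (ht0 k)), inv_mul_le_iff₀ (ht0 k)]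
      refine (hae k hk).trans (le_of_eq ?_)
      show η k * r k = r k / (2 * (nn Z + 1)) * (2 * (nn Z + 1) * η k)
      field_simp
    have h2 := hsl.sub h1
    rw [sub_zero] at h2
    refine h2.congr fun k => ?_
    rw [← smul_sub]
    congr 1
    abel
  have hEij : ∀ i j, Tendsto (fun k => (t k)⁻¹ * ((a k : Mt) i j - (1 : Mt) i j)) atTop (𝓝 (Z i j)) :=
    fun i j => tendsto_pi_nhds.1 (tendsto_pi_nhds.1 hE i) j
  have hoff : ∀ i j, i ≠ j → Z i j = 0 := by
    intro i j hij
    refine tendsto_nhds_unique (hEij i j) ?_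
    have h3 : (fun k => (t k)⁻¹ * ((a k : Mt) i j - (1 : Mt) i j)) = fun _ => 0 := by
      funext k
      obtain ⟨u, v, h4⟩ := ha k
      rw [h4, ag_coe, diagonal_apply, if_neg hij, one_apply, if_neg hij, sub_zero, mul_zero]
    rw [h3]
    exact tendsto_const_nhds
  have hdiag : ∀ i j : Fin 4, (∀ k, (a k : Mt) i i * (a k : Mt) j j = 1) → Z i i + Z j j = 0 := by
    intro i j hij
    have h3 := (hEij i i).add (hEij j j)
    have h4 : Tendsto (fun k => -(t k) * ((t k)⁻¹ * ((a k : Mt) i i - (1 : Mt) i i)) *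
        ((t k)⁻¹ * ((a k : Mt) j j - (1 : Mt) j j))) atTop (𝓝 (-0 * Z i i * Z j j)) :=
      (htlim.neg.mul (hEij i i)).mul (hEij j j)
    rw [neg_zero, zero_mul, zero_mul] at h4
    refine tendsto_nhds_unique h3 (h4.congr fun k => ?_)
    have h5 := (ht0 k).ne'
    have h6 := hij k
    rw [one_apply, if_pos rfl, one_apply, if_pos rfl]
    field_simp
    linear_combination (-1 : ℝ) * h6
  have h01 : Z 0 0 + Z 1 1 = 0 := by
    refine hdiag 0 1 fun k => ?_
    obtain ⟨u, v, h4⟩ := ha k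
    rw [h4, ag_coe, diagonal_apply_eq, diagonal_apply_eq]
    show Real.exp u * Real.exp (-u) = 1
    rw [← Real.exp_add]
    simp
  have h23 : Z 2 2 + Z 3 3 = 0 := by
    refine hdiag 2 3 fun k => ?_
    obtain ⟨u, v, h4⟩ := ha k
    rw [h4, ag_coe, diagonal_apply_eq, diagonal_apply_eq]
    show Real.exp v * Real.exp (-v) = 1
    rw [← Real.exp_add]
    simp
  refine ⟨Z 0 0, Z 2 2, ?_⟩
  ext i j
  rw [diagonal_apply]
  split_ifs with hij
  · subst hij
    fin_cases i
    · rfl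
    · show Z 1 1 = -Z 0 0
      linarith
    · rfl
    · show Z 3 3 = -Z 2 2
      linarith
  · exact hoff i j hij

/-- slopes of the logarithm -/
lemma log_slope {x s : ℕ → ℝ} {u : ℝ} (hx : Tendsto x atTop (𝓝 1))
    (hs : Tendsto (fun n => (s n)⁻¹ * (x n - 1)) atTop (𝓝 u)) :
    Tendsto (fun n => (s n)⁻¹ * Real.log (x n)) atTop (𝓝 u) := by
  have h1 : ContinuousAt (dslope Real.log 1) 1 :=
    continuousAt_dslope_same.2 (Real.differentiableAt_log one_ne_zero)
  have h2 : Tendsto (fun n => dslope Real.log 1 (x n)) atTop (𝓝 1) := by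
    have h3 := h1.tendsto.comp hx
    rw [dslope_same, Real.deriv_log, inv_one] at h3
    exact h3
  have h4 := hs.mul h2
  rw [mul_one] at h4
  refine h4.congr fun n => ?_
  have h5 := sub_smul_dslope Real.log 1 (x n)
  rw [Real.log_one, sub_zero, smul_eq_mul] at h5
  rw [mul_assoc, h5]

/-- the coordinates along `A` -/
noncomputable def vv (g : G) : ℝ × ℝ :=
  ((Real.log ((g : Mt) 0 0) - Real.log ((g : Mt) 1 1)) / 2,
    (Real.log ((g : Mt) 2 2) - Real.log ((g : Mt) 3 3)) / 2)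

lemma vv_mul {g : G} (h : ∀ i, 0 < (g : Mt) i i) (u v : ℝ) : vv (g * ag u v) = vv g + (u, v) := by
  have h1 : ∀ i, ((g * ag u v : G) : Mt) i i = (g : Mt) i i * dgv u v i := by
    intro i
    rw [co_mul, ag_coe, mul_diagonal]
  have h2 : ∀ i, Real.log (((g * ag u v : G) : Mt) i i) = Real.log ((g : Mt) i i) + Real.log (dgv u v i) := by
    intro i
    rw [h1, Real.log_mul (h i).ne' (dgv_pos u v i).ne']
  unfold vv
  rw [h2, h2, h2, h2]
  have e0 : Real.log (dgv u v 0) = u := Real.log_exp u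
  have e1 : Real.log (dgv u v 1) = -u := Real.log_exp (-u)
  have e2 : Real.log (dgv u v 2) = v := Real.log_exp v
  have e3 : Real.log (dgv u v 3) = -v := Real.log_exp (-v)
  rw [e0, e1, e2, e3]
  ext
  · simp only [Prod.fst_add]
    ring
  · simp only [Prod.snd_add]
    ring

/-- the Lie algebra of the intersection with `A` -/
def lieB (H : Subgroup G) : Submodule ℝ (ℝ × ℝ) where
  carrier := {w | ∀ t : ℝ, ag (t * w.1) (t * w.2) ∈ H}
  add_mem' := by
    intro a b ha hb t
    have h1 := mul_mem (ha t) (hb t)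
    rw [ag_mul] at h1
    rw [Prod.fst_add, Prod.snd_add, mul_add, mul_add]
    exact h1
  zero_mem' := by
    intro t
    rw [Prod.fst_zero, Prod.snd_zero, mul_zero, ag_zero]
    exact one_mem _
  smul_mem' := by
    intro c a ha t
    have h1 := ha (t * c)
    rw [Prod.smul_fst, Prod.smul_snd, smul_eq_mul, smul_eq_mul, ← mul_assoc, ← mul_assoc]
    exact h1

/-- a closed subgroup whose elements near `1` are very close to `A` is contained in `A` near `1` -/
theorem near_one_mem_A {H : Subgroup G} (hH : IsClosed (H : Set G)) (hW : Wp H) :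
    ∃ δ : ℝ, 0 < δ ∧ ∀ h ∈ H, nn ((h : Mt) - 1) < δ → h ∈ A := by
  by_contra hcon
  push Not at hcon
  have hex : ∀ n : ℕ, ∃ h ∈ H, nn ((h : Mt) - 1) < 1 / ((n : ℝ) + 2) ∧ h ∉ A := fun n =>
    hcon _ (by positivity)
  choose h hh hn hA using hex
  have hn0 : Tendsto (fun n => nn ((h n : Mt) - 1)) atTop (𝓝 0) := by
    have h1 : Tendsto (fun n : ℕ => 1 / ((n : ℝ) + 2)) atTop (𝓝 0) := by
      have h2 := tendsto_one_div_add_atTop_nhds_zero_nat (𝕜 := ℝ)
      have h3 := h2.comp (tendsto_add_atTop_nat 1)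
      refine h3.congr fun n => ?_
      show 1 / (((n + 1 : ℕ) : ℝ) + 1) = 1 / ((n : ℝ) + 2)
      push_cast
      congr 1
      ring
    exact squeeze_zero (fun n => nn_nonneg _) (fun n => (hn n).le) h1
  have hlim : Tendsto (fun n => (h n : Mt)) atTop (𝓝 1) := tendsto_iff_nn.2 hn0
  have hpos : ∀ n i, 0 < (h n : Mt) i i := by
    intro n i
    have h1 := (entry_le ((h n : Mt) - 1) i i).trans (hn n).le
    rw [Matrix.sub_apply, one_apply, if_pos rfl, abs_le] at h1
    have h2 : 1 / ((n : ℝ) + 2) ≤ 1 / 2 := by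
      refine one_div_le_one_div_of_le (by norm_num) ?_
      have : (0 : ℝ) ≤ n := Nat.cast_nonneg n
      linarith
    linarith [h1.1]
  have hent : ∀ i, Tendsto (fun n => (h n : Mt) i i) atTop (𝓝 1) := by
    intro i
    have h1 := tendsto_pi_nhds.1 (tendsto_pi_nhds.1 hlim i) i
    rwa [one_apply, if_pos rfl] at h1
  have hlog : ∀ i, Tendsto (fun n => Real.log ((h n : Mt) i i)) atTop (𝓝 0) := by
    intro i
    have h1 := ((Real.continuousAt_log one_ne_zero).tendsto).comp (hent i)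
    rwa [Real.log_one] at h1
  have hv : Tendsto (fun n => vv (h n)) atTop (𝓝 0) := by
    have h1 := ((hlog 0).sub (hlog 1)).div_const 2
    have h2 := ((hlog 2).sub (hlog 3)).div_const 2
    rw [sub_zero, zero_div] at h1 h2
    exact h1.prodMk_nhds h2
  -- the complement
  obtain ⟨C, hC⟩ := (lieB H).exists_isCompl
  set π : (ℝ × ℝ) →ₗ[ℝ] (ℝ × ℝ) := (lieB H).subtype ∘ₗ (lieB H).projectionOnto C hC with hπ
  have hπmem : ∀ x, π x ∈ lieB H := fun x => ((lieB H).projectionOnto C hC x).2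
  have hπC : ∀ x, x - π x ∈ C := by
    intro x
    have h1 : (lieB H).projectionOnto C hC (x - π x) = 0 := by
      rw [map_sub, sub_eq_zero]
      show _ = (lieB H).projectionOnto C hC (((lieB H).projectionOnto C hC x : lieB H) : ℝ × ℝ)
      rw [Submodule.projectionOnto_apply_left]
    rwa [Submodule.projectionOnto_apply_eq_zero_iff] at h1
  have hπc : Continuous π := LinearMap.continuous_of_finiteDimensional π
  have hb : Tendsto (fun n => π (vv (h n))) atTop (𝓝 0) := by
    have h1 := (hπc.tendsto 0).comp hv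
    rwa [map_zero] at h1
  set h' : ℕ → G := fun n => h n * ag (-(π (vv (h n))).1) (-(π (vv (h n))).2) with hh'
  have hmemH : ∀ n, h' n ∈ H := by
    intro n
    refine mul_mem (hh n) ?_
    have h1 := hπmem (vv (h n)) (-1)
    rwa [neg_one_mul, neg_one_mul] at h1
  have hnotA : ∀ n, h' n ∉ A := by
    intro n h1
    apply hA n
    have h2 : h n = h' n * (ag (-(π (vv (h n))).1) (-(π (vv (h n))).2))⁻¹ := by
      show h n = h n * ag _ _ * (ag _ _)⁻¹
      rw [mul_inv_cancel_right]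
    rw [h2]
    exact mul_mem h1 (inv_mem ⟨_, _, rfl⟩)
  have hne : ∀ n, h' n ≠ 1 := fun n h1 => hnotA n (by rw [h1]; exact one_mem _)
  have hlim' : Tendsto (fun n => (h' n : Mt)) atTop (𝓝 1) := by
    have h1 : Tendsto h atTop (𝓝 1) := tendsto_subtype_rng.2 hlim
    have h2 : Tendsto (fun n => ag (-(π (vv (h n))).1) (-(π (vv (h n))).2)) atTop (𝓝 1) := by
      have h3 := (ag_continuous.tendsto (-0)).comp hb.neg
      rw [neg_zero] at h3
      have h4 : ag (0 : ℝ × ℝ).1 (0 : ℝ × ℝ).2 = 1 := ag_zero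
      rw [h4] at h3
      exact h3
    have h5 := h1.mul h2
    rw [mul_one] at h5
    exact (continuous_subtype_val.tendsto _).comp h5
  have hn0' : Tendsto (fun n => nn ((h' n : Mt) - 1)) atTop (𝓝 0) := tendsto_iff_nn.1 hlim'
  have hvv' : ∀ n, vv (h' n) ∈ C := by
    intro n
    have h1 : vv (h' n) = vv (h n) - π (vv (h n)) := by
      show vv (h n * ag _ _) = _
      rw [vv_mul (hpos n)]
      ext
      · simp only [Prod.fst_add, Prod.fst_sub]
        ring
      · simp only [Prod.snd_add, Prod.snd_sub]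
        ring
    rw [h1]
    exact hπC _
  obtain ⟨φ, hφ, Z, hZ1, hZlim, hZex⟩ := tangent hH hmemH hn0' hne
  obtain ⟨u, v, hZe⟩ := one_param hW hZex
  have hB : (u, v) ∈ lieB H := by
    intro t
    obtain ⟨g, hg, hge⟩ := hZex t
    have h1 : g = ag (t * u) (t * v) := by
      apply Subtype.ext
      rw [hge, hZe, ag_coe, ← diagonal_smul, ex_diagonal]
      congr 1
      funext i
      fin_cases i
      · rfl
      · show Real.exp (t * -u) = Real.exp (-(t * u))
        rw [mul_neg]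
      · rfl
      · show Real.exp (t * -v) = Real.exp (-(t * v))
        rw [mul_neg]
    rw [← h1]
    exact hg
  have hCm : (u, v) ∈ C := by
    have hclosed : IsClosed (C : Set (ℝ × ℝ)) := Submodule.closed_of_finiteDimensional C
    set s : ℕ → ℝ := fun n => nn ((h' (φ n) : Mt) - 1) with hs
    have hxe : ∀ i, Tendsto (fun n => (h' (φ n) : Mt) i i) atTop (𝓝 1) := by
      intro i
      have h1 := tendsto_pi_nhds.1 (tendsto_pi_nhds.1 (hlim'.comp hφ.tendsto_atTop) i) i
      rw [one_apply, if_pos rfl] at h1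
      exact h1
    have hZi : ∀ i, Tendsto (fun n => (s n)⁻¹ * ((h' (φ n) : Mt) i i - 1)) atTop (𝓝 (Z i i)) := by
      intro i
      have h1 := tendsto_pi_nhds.1 (tendsto_pi_nhds.1 hZlim i) i
      refine h1.congr fun n => ?_
      rw [Matrix.smul_apply, Matrix.sub_apply, one_apply, if_pos rfl, smul_eq_mul]
    have hl : ∀ i, Tendsto (fun n => (s n)⁻¹ * Real.log ((h' (φ n) : Mt) i i)) atTop (𝓝 (Z i i)) :=
      fun i => log_slope (hxe i) (hZi i)
    have hZ0 : Z 0 0 = u ∧ Z 1 1 = -u ∧ Z 2 2 = v ∧ Z 3 3 = -v := by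
      rw [hZe]
      exact ⟨rfl, rfl, rfl, rfl⟩
    have h1 : Tendsto (fun n => (s n)⁻¹ • vv (h' (φ n))) atTop (𝓝 (u, v)) := by
      have h2 := ((hl 0).sub (hl 1)).div_const 2
      have h3 := ((hl 2).sub (hl 3)).div_const 2
      rw [hZ0.1, hZ0.2.1] at h2
      rw [hZ0.2.2.1, hZ0.2.2.2] at h3
      have e1 : (u - -u) / 2 = u := by ring
      have e2 : (v - -v) / 2 = v := by ring
      rw [e1] at h2
      rw [e2] at h3
      refine (h2.prodMk_nhds h3).congr fun n => ?_
      unfold vv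
      ext
      · simp only [Prod.smul_fst, smul_eq_mul]
        ring
      · simp only [Prod.smul_snd, smul_eq_mul]
        ring
    exact hclosed.mem_of_tendsto h1 (Eventually.of_forall fun n => C.smul_mem _ (hvv' _))
  have h0 : ((u, v) : ℝ × ℝ) = 0 := by
    have h1 : (u, v) ∈ lieB H ⊓ C := ⟨hB, hCm⟩
    rw [hC.inf_eq_bot] at h1
    exact h1
  have hu : u = 0 := congrArg Prod.fst h0
  have hv0 : v = 0 := congrArg Prod.snd h0
  have hZ0 : Z = 0 := by
    rw [hZe, hu, hv0, neg_zero]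
    ext i j
    rw [diagonal_apply]
    split_ifs
    · fin_cases i <;> rfl
    · rfl
  rw [hZ0, nn_zero] at hZ1
  exact zero_ne_one hZ1

end Pool.Agent.H286.MR
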