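import Mathlib
import Pool.Graph.R_seed8.TH225.OC.Defs
import Pool.Graph.R_seed8.Y319.MR.Defs

/-!
Definitions for the measure rigidity question for higher rank class-`𝒜` actions, for the `ℚ`-group
`SL₄` and the set of places `S = {∞}`: the measurable structure of `SL(4, ℝ)/SL(4, ℤ)` and normal
`ℚ`-subgroups.
-/

set_option autoImplicit false

namespace Pool.Agent.H286.MR

open Matrix Filter Topology MeasureTheory
open Pool.Agent.TH225.OC (G GC Gam X QSubgroup)

/-- The Borel `σ`-algebra of `G/Γ`. -/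
noncomputable instance instMeasurableSpaceX : MeasurableSpace X := borel X

instance instBorelSpaceX : BorelSpace X := ⟨rfl⟩

instance instMeasurableConstSMulX : MeasurableConstSMul G X :=
  ⟨fun g => (continuous_const_smul g).measurable⟩

/-- `ℍ` is a normal `ℚ`-subgroup of `𝕃`. -/
structure IsNormalIn (H L : QSubgroup) : Prop where
  le : H.grp ≤ L.grp
  conj_mem : ∀ l ∈ L.grp, ∀ h ∈ H.grp, l * h * l⁻¹ ∈ H.grp

lemma IsNormalIn.normal {H L : QSubgroup} (h : IsNormalIn H L) :
    (H.real.subgroupOf L.real).Normal :=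
  ⟨fun x hx y => by
    rw [Subgroup.mem_subgroupOf] at hx ⊢
    have h1 := h.conj_mem (Matrix.SpecialLinearGroup.map (algebraMap ℝ ℂ) y) y.2
      (Matrix.SpecialLinearGroup.map (algebraMap ℝ ℂ) x) hx
    show Matrix.SpecialLinearGroup.map (algebraMap ℝ ℂ) ((y * x * y⁻¹ : L.real) : G) ∈ H.grp
    rw [Subgroup.coe_mul, Subgroup.coe_mul, Subgroup.coe_inv, map_mul, map_mul, map_inv]
    exact h1⟩

/-- For a subgroup `B` of `G` and `ℚ`-subgroups `ℍ ◁ 𝕃`, the image of `B ∩ L` in `L/H` is of higher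
rank, where `L = 𝕃(ℝ)` and `H = ℍ(ℝ)`. -/
def HigherRankImage (B : Subgroup G) {H L : QSubgroup} (h : IsNormalIn H L) : Prop :=
  haveI := h.normal
  Pool.Agent.Y319.MR.HigherRankMod B L.real H.real

end Pool.Agent.H286.MR
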