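import Mathlib
import Pool.Agent.H286.MR.Basic

/-! The order `P M₄(ℤ) P⁻¹` of real matrices -/

set_option autoImplicit false

namespace Pool.Agent.H286.MR

open Matrix Filter Topology
open Pool.Agent.TH225.OC (G Gam X)

/-- the square root of two -/
noncomputable def s2 : ℝ := Real.sqrt 2

lemma s2_sq : s2 ^ 2 = 2 := Real.sq_sqrt (by norm_num)

lemma s2_pos : 0 < s2 := Real.sqrt_pos.2 (by norm_num)

lemma s2_irr : Irrational s2 := irrational_sqrt_two

/-- the eigenvector matrix (rows are left eigenvectors) -/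
noncomputable def P : Mt := !![1, s2, 0, 0; 1, -s2, 0, 0; 0, 0, 1, s2; 0, 0, 1, -s2]

/-- its inverse -/
noncomputable def Pi : Mt :=
  !![1 / 2, 1 / 2, 0, 0; s2 / 4, -s2 / 4, 0, 0; 0, 0, 1 / 2, 1 / 2; 0, 0, s2 / 4, -s2 / 4]

lemma P_Pi : P * Pi = 1 := by
  have h := s2_sq
  ext i j
  fin_cases i <;> fin_cases j <;>
    simp [P, Pi, Matrix.mul_apply, Fin.sum_univ_four] <;>
    first
      | done
      | linear_combination (1 / 4 : ℝ) * h
      | linear_combination (-1 / 4 : ℝ) * h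

lemma Pi_P : Pi * P = 1 := mul_eq_one_comm.1 P_Pi

/-- integral matrices as real matrices -/
def toR : Matrix (Fin 4) (Fin 4) ℤ →+* Mt := (Int.castRingHom ℝ).mapMatrix

lemma toR_apply (Z : Matrix (Fin 4) (Fin 4) ℤ) (i j : Fin 4) : toR Z i j = (Z i j : ℝ) := rfl

/-- the order `P M₄(ℤ) P⁻¹` -/
noncomputable def Ord : Subring Mt where
  carrier := {h | ∃ Z, h = P * toR Z * Pi}
  mul_mem' := by
    rintro _ _ ⟨Z, rfl⟩ ⟨Z', rfl⟩
    refine ⟨Z * Z', ?_⟩
    rw [map_mul]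
    calc P * toR Z * Pi * (P * toR Z' * Pi) = P * toR Z * (Pi * P) * toR Z' * Pi := by
          simp only [Matrix.mul_assoc]
      _ = _ := by rw [Pi_P, Matrix.mul_one]; simp only [Matrix.mul_assoc]
  one_mem' := ⟨1, by rw [map_one, Matrix.mul_one, P_Pi]⟩
  add_mem' := by
    rintro _ _ ⟨Z, rfl⟩ ⟨Z', rfl⟩
    exact ⟨Z + Z', by rw [map_add, Matrix.mul_add, Matrix.add_mul]⟩
  zero_mem' := ⟨0, by rw [map_zero, Matrix.mul_zero, Matrix.zero_mul]⟩
  neg_mem' := by
    rintro _ ⟨Z, rfl⟩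
    exact ⟨-Z, by rw [map_neg, Matrix.mul_neg, Matrix.neg_mul]⟩

lemma mem_Ord {h : Mt} : h ∈ Ord ↔ ∃ Z, h = P * toR Z * Pi := Iff.rfl

lemma nat_smul_mem {h : Mt} (n : ℕ) (hh : h ∈ Ord) : (n : ℝ) • h ∈ Ord := by
  have : (n : ℝ) • h = n • h := by
    rw [Nat.cast_smul_eq_nsmul]
  rw [this]
  exact nsmul_mem hh n

/-- `(a, b)` is a pair `(x + y √2, x - y √2)` -/
def CP (a b : ℝ) : Prop := ∃ x y : ℤ, a = x + y * s2 ∧ b = x - y * s2

lemma CP.add {a b a' b' : ℝ} (h : CP a b) (h' : CP a' b') : CP (a + a') (b + b') := by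
  obtain ⟨x, y, rfl, rfl⟩ := h
  obtain ⟨x', y', rfl, rfl⟩ := h'
  exact ⟨x + x', y + y', by push_cast; ring, by push_cast; ring⟩

lemma CP.neg {a b : ℝ} (h : CP a b) : CP (-a) (-b) := by
  obtain ⟨x, y, rfl, rfl⟩ := h
  exact ⟨-x, -y, by push_cast; ring, by push_cast; ring⟩

lemma CP.sub {a b a' b' : ℝ} (h : CP a b) (h' : CP a' b') : CP (a - a') (b - b') := by
  rw [sub_eq_add_neg, sub_eq_add_neg]
  exact h.add h'.neg

lemma CP.mul {a b a' b' : ℝ} (h : CP a b) (h' : CP a' b') : CP (a * a') (b * b') := by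
  obtain ⟨x, y, rfl, rfl⟩ := h
  obtain ⟨x', y', rfl, rfl⟩ := h'
  refine ⟨x * x' + 2 * (y * y'), x * y' + y * x', ?_, ?_⟩
  · push_cast
    linear_combination ((y : ℝ) * y') * s2_sq
  · push_cast
    linear_combination ((y : ℝ) * y') * s2_sq

lemma CP_zero : CP 0 0 := ⟨0, 0, by simp, by simp⟩

lemma CP_one : CP 1 1 := ⟨1, 0, by simp, by simp⟩

lemma CP.swap {a b : ℝ} (h : CP a b) : CP b a := by
  obtain ⟨x, y, rfl, rfl⟩ := h
  exact ⟨x, -y, by push_cast; ring, by push_cast; ring⟩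

lemma Xm_mem (β : Fin 4) {a b : ℝ} (h : CP a b) : Xm β a b ∈ Ord := by
  obtain ⟨x, y, rfl, rfl⟩ := h
  have hs := s2_sq
  have key : ∀ Z : Matrix (Fin 4) (Fin 4) ℤ, Xm β (x + y * s2) (x - y * s2) * P = P * toR Z →
      Xm β (x + y * s2) (x - y * s2) ∈ Ord := by
    intro Z hZ
    refine ⟨Z, ?_⟩
    rw [← hZ, Matrix.mul_assoc, P_Pi, Matrix.mul_one]
  fin_cases β
  · refine key !![0, 0, x, 2 * y; 0, 0, y, x; 0, 0, 0, 0; 0, 0, 0, 0] ?_
    ext i j
    rw [Matrix.mul_apply, Matrix.mul_apply, Fin.sum_univ_four, Fin.sum_univ_four]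
    simp only [toR_apply]
    fin_cases i <;> fin_cases j <;> simp [Xm, p1, p2, P] <;>
      first
        | done
        | ring1
        | linear_combination (y : ℝ) * hs
        | linear_combination (-(y : ℝ)) * hs
  · refine key !![0, 0, 0, 0; 0, 0, 0, 0; x, 2 * y, 0, 0; y, x, 0, 0] ?_
    ext i j
    rw [Matrix.mul_apply, Matrix.mul_apply, Fin.sum_univ_four, Fin.sum_univ_four]
    simp only [toR_apply]
    fin_cases i <;> fin_cases j <;> simp [Xm, p1, p2, P] <;>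
      first
        | done
        | ring1
        | linear_combination (y : ℝ) * hs
        | linear_combination (-(y : ℝ)) * hs
  · refine key !![0, 0, x, -2 * y; 0, 0, y, -x; 0, 0, 0, 0; 0, 0, 0, 0] ?_
    ext i j
    rw [Matrix.mul_apply, Matrix.mul_apply, Fin.sum_univ_four, Fin.sum_univ_four]
    simp only [toR_apply]
    fin_cases i <;> fin_cases j <;> simp [Xm, p1, p2, P] <;>
      first
        | done
        | ring1
        | linear_combination (y : ℝ) * hs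
        | linear_combination (-(y : ℝ)) * hs
  · refine key !![0, 0, 0, 0; 0, 0, 0, 0; x, -2 * y, 0, 0; y, -x, 0, 0] ?_
    ext i j
    rw [Matrix.mul_apply, Matrix.mul_apply, Fin.sum_univ_four, Fin.sum_univ_four]
    simp only [toR_apply]
    fin_cases i <;> fin_cases j <;> simp [Xm, p1, p2, P] <;>
      first
        | done
        | ring1
        | linear_combination (y : ℝ) * hs
        | linear_combination (-(y : ℝ)) * hs

lemma diag_mem {a b c d : ℝ} (h : CP a b) (h' : CP c d) : (diagonal ![a, b, c, d] : Mt) ∈ Ord := by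
  obtain ⟨x, y, rfl, rfl⟩ := h
  obtain ⟨z, w, rfl, rfl⟩ := h'
  have hs := s2_sq
  have hZ : (diagonal ![x + y * s2, x - y * s2, z + w * s2, z - w * s2] : Mt) * P =
      P * toR !![x, 2 * y, 0, 0; y, x, 0, 0; 0, 0, z, 2 * w; 0, 0, w, z] := by
    ext i j
    rw [Matrix.mul_apply, Matrix.mul_apply, Fin.sum_univ_four, Fin.sum_univ_four]
    simp only [toR_apply]
    fin_cases i <;> fin_cases j <;> simp [P] <;>
      first
        | done
        | ring1
        | linear_combination (y : ℝ) * hs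
        | linear_combination (-(y : ℝ)) * hs
        | linear_combination (w : ℝ) * hs
        | linear_combination (-(w : ℝ)) * hs
  refine ⟨!![x, 2 * y, 0, 0; y, x, 0, 0; 0, 0, z, 2 * w; 0, 0, w, z], ?_⟩
  rw [← hZ, Matrix.mul_assoc, P_Pi, Matrix.mul_one]

/-- the conjugate position -/
def cj : Fin 4 → Fin 4 := ![1, 0, 3, 2]

/-- signs -/
def sg : Fin 4 → ℤ := ![1, -1, 1, -1]

/-- first index of a block -/
def b0 : Fin 4 → Fin 4 := ![0, 0, 2, 2]

/-- second index of a block -/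
def b1 : Fin 4 → Fin 4 := ![1, 1, 3, 3]

lemma entry_formula (Z : Matrix (Fin 4) (Fin 4) ℤ) (i j : Fin 4) :
    4 * (P * toR Z * Pi) i j =
      ((2 * Z (b0 i) (b0 j) + 2 * (sg i * sg j * Z (b1 i) (b1 j)) : ℤ) : ℝ) +
        ((sg j * Z (b0 i) (b1 j) + 2 * (sg i * Z (b1 i) (b0 j)) : ℤ) : ℝ) * s2 := by
  have hs := s2_sq
  rw [Matrix.mul_apply, Fin.sum_univ_four]
  simp only [Matrix.mul_apply, Fin.sum_univ_four, toR_apply]
  fin_cases i <;> fin_cases j <;> simp [P, Pi, b0, b1, sg] <;>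
    first
      | linear_combination (Z 1 1 : ℝ) * hs
      | linear_combination (-(Z 1 1 : ℝ)) * hs
      | linear_combination (Z 1 3 : ℝ) * hs
      | linear_combination (-(Z 1 3 : ℝ)) * hs
      | linear_combination (Z 3 1 : ℝ) * hs
      | linear_combination (-(Z 3 1 : ℝ)) * hs
      | linear_combination (Z 3 3 : ℝ) * hs
      | linear_combination (-(Z 3 3 : ℝ)) * hs

/-- conjugate entries -/
lemma entries_conj {h : Mt} (hh : h ∈ Ord) (i j : Fin 4) : CP (4 * h i j) (4 * h (cj i) (cj j)) := by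
  obtain ⟨Z, rfl⟩ := hh
  rw [entry_formula, entry_formula]
  refine ⟨_, _, rfl, ?_⟩
  have e0 : ∀ k, b0 (cj k) = b0 k := by decide
  have e1 : ∀ k, b1 (cj k) = b1 k := by decide
  have e2 : ∀ k, sg (cj k) = -sg k := by decide
  simp only [e0, e1, e2]
  push_cast
  ring

lemma CP_prod {a b : ℝ} (h : CP a b) : ∃ z : ℤ, a * b = z ∧ (z = 0 → a = 0 ∧ b = 0) := by
  obtain ⟨x, y, rfl, rfl⟩ := h
  refine ⟨x ^ 2 - 2 * y ^ 2, ?_, ?_⟩
  · push_cast
    linear_combination (-(y : ℝ) ^ 2) * s2_sq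
  · intro h0
    have h1 : x = 0 ∧ y = 0 := by
      by_cases hy : y = 0
      · subst hy
        refine ⟨?_, rfl⟩
        have : x ^ 2 = 0 := by linarith
        exact pow_eq_zero_iff (by norm_num) |>.1 this
      · exfalso
        apply s2_irr
        have hyR : (y : ℝ) ≠ 0 := by exact_mod_cast hy
        have h2 : ((x : ℝ) / y) ^ 2 = 2 := by
          rw [div_pow, div_eq_iff (pow_ne_zero 2 hyR)]
          have : (x : ℝ) ^ 2 - 2 * (y : ℝ) ^ 2 = 0 := by exact_mod_cast h0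
          linarith
        have h3 : |(x : ℝ) / y| = s2 := by
          unfold s2
          rw [← h2, Real.sqrt_sq_eq_abs]
        refine ⟨|(x : ℚ) / y|, ?_⟩
        push_cast
        exact h3
    rw [h1.1, h1.2]
    simp

/-- small conjugate entries vanish -/
lemma entry_zero {g : Mt} {D : ℕ} (hg : (D : ℝ) • g ∈ Ord) {ρ : ℝ} (i j : Fin 4) (h1 : |g i j| ≤ ρ)
    (h2 : |g (cj i) (cj j)| ≤ ρ) (hρ : 4 * D * ρ < 1) (hD : 0 < D) : g i j = 0 := by
  obtain ⟨z, hz, hz0⟩ := CP_prod (entries_conj hg i j)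
  have hD' : (0 : ℝ) < D := by exact_mod_cast hD
  have hρ0 : 0 ≤ ρ := (abs_nonneg _).trans h1
  rw [Matrix.smul_apply, Matrix.smul_apply, smul_eq_mul, smul_eq_mul] at hz hz0
  have h3 : |(z : ℝ)| < 1 := by
    rw [← hz, abs_mul, abs_mul, abs_mul, abs_mul, abs_mul]
    have h4 : |(4 : ℝ)| * (|(D : ℝ)| * |g i j|) ≤ 4 * D * ρ := by
      rw [abs_of_pos hD', abs_of_pos (by norm_num : (0 : ℝ) < 4), ← mul_assoc]
      gcongr
    have h5 : |(4 : ℝ)| * (|(D : ℝ)| * |g (cj i) (cj j)|) ≤ 4 * D * ρ := by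
      rw [abs_of_pos hD', abs_of_pos (by norm_num : (0 : ℝ) < 4), ← mul_assoc]
      gcongr
    have h6 : 0 ≤ |(4 : ℝ)| * (|(D : ℝ)| * |g (cj i) (cj j)|) := by positivity
    have h7 : 0 ≤ 4 * (D : ℝ) * ρ := by positivity
    calc _ ≤ (4 * D * ρ) * (4 * D * ρ) := mul_le_mul h4 h5 h6 h7
      _ < 1 := by nlinarith
  have h4 : z = 0 := by
    have : |z| < 1 := by exact_mod_cast h3
    exact Int.abs_lt_one_iff.1 this
  have h5 := (hz0 h4).1
  have h6 : (4 : ℝ) ≠ 0 := by norm_num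
  rcases mul_eq_zero.1 h5 with h7 | h7
  · exact absurd h7 h6
  · rcases mul_eq_zero.1 h7 with h8 | h8
    · exact absurd h8 hD'.ne'
    · exact h8

/-- products of conjugate entries near `1` are equal to `1` -/
lemma entry_one {g : Mt} {D : ℕ} (hg : (D : ℝ) • g ∈ Ord) {ρ : ℝ} (i j : Fin 4)
    (h1 : |g i j * g (cj i) (cj j) - 1| ≤ ρ) (hρ : 16 * D ^ 2 * ρ < 1) (hD : 0 < D) :
    g i j * g (cj i) (cj j) = 1 := by
  obtain ⟨z, hz, -⟩ := CP_prod (entries_conj hg i j)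
  have hD' : (0 : ℝ) < D := by exact_mod_cast hD
  rw [Matrix.smul_apply, Matrix.smul_apply, smul_eq_mul, smul_eq_mul] at hz
  have h2 : |((z - 16 * (D : ℤ) ^ 2 : ℤ) : ℝ)| < 1 := by
    push_cast
    rw [← hz]
    have e : 4 * ((D : ℝ) * g i j) * (4 * ((D : ℝ) * g (cj i) (cj j))) - 16 * (D : ℝ) ^ 2 =
        16 * (D : ℝ) ^ 2 * (g i j * g (cj i) (cj j) - 1) := by ring
    rw [e, abs_mul, abs_of_pos (by positivity : (0 : ℝ) < 16 * (D : ℝ) ^ 2)]
    calc _ ≤ 16 * (D : ℝ) ^ 2 * ρ := by gcongr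
      _ < 1 := hρ
  have h3 : z - 16 * (D : ℤ) ^ 2 = 0 := by
    have : |z - 16 * (D : ℤ) ^ 2| < 1 := by exact_mod_cast h2
    exact Int.abs_lt_one_iff.1 this
  have h4 : (z : ℝ) = 16 * (D : ℝ) ^ 2 := by
    have : z = 16 * (D : ℤ) ^ 2 := by linarith
    rw [this]
    push_cast
    ring
  rw [h4] at hz
  have h5 : 16 * (D : ℝ) ^ 2 * (g i j * g (cj i) (cj j)) = 16 * (D : ℝ) ^ 2 * 1 := by
    linear_combination hz
  exact mul_left_cancel₀ (by positivity) h5

/-- the discreteness of the order -/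
lemma ord_small {g : Mt} (hg : g ∈ Ord) {ρ : ℝ} (h : nn g ≤ ρ) (hρ : 4 * ρ < 1) : g = 0 := by
  ext i j
  refine entry_zero (D := 1) (ρ := ρ) ?_ i j ((entry_le g i j).trans h) ((entry_le g _ _).trans h) ?_
    one_pos
  · rwa [Nat.cast_one, one_smul]
  · rwa [Nat.cast_one, mul_one]

lemma P_det : P.det = 8 := by
  have hs := s2_sq
  simp only [P, Matrix.det_succ_row_zero, Fin.sum_univ_succ, Matrix.of_apply, Matrix.submatrix_apply]
  simp [Fin.succAbove, Fin.sum_univ_succ]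
  linear_combination 4 * hs

/-- the scaling factor -/
noncomputable def sc : ℝ := (Real.sqrt (Real.sqrt 8))⁻¹

lemma sc_pos : 0 < sc := inv_pos.2 (Real.sqrt_pos.2 (Real.sqrt_pos.2 (by norm_num)))

lemma sc_pow : sc ^ 4 * 8 = 1 := by
  unfold sc
  have h1 : (Real.sqrt (Real.sqrt 8)) ^ 4 = 8 := by
    have : (Real.sqrt (Real.sqrt 8)) ^ 4 = ((Real.sqrt (Real.sqrt 8)) ^ 2) ^ 2 := by ring
    rw [this, Real.sq_sqrt (Real.sqrt_nonneg _), Real.sq_sqrt (by norm_num)]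
  rw [inv_pow, h1]
  norm_num

/-- the normalized eigenvector matrix -/
noncomputable def P0 : G := ⟨sc • P, by
  rw [det_smul, P_det, Fintype.card_fin]
  exact sc_pow⟩

lemma P0_coe : (P0 : Mt) = sc • P := rfl

lemma mem_Gam_iff (g : G) : P0⁻¹ * g * P0 ∈ Gam ↔ (g : Mt) ∈ Ord := by
  have hsc : sc ≠ 0 := sc_pos.ne'
  constructor
  · rintro ⟨Z, hZ⟩
    refine ⟨(Z : Matrix (Fin 4) (Fin 4) ℤ), ?_⟩
    have h1 : g * P0 = P0 * Matrix.SpecialLinearGroup.map (Int.castRingHom ℝ) Z := by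
      rw [hZ]; group
    have h2 : (g : Mt) * (sc • P) = (sc • P) * toR (Z : Matrix (Fin 4) (Fin 4) ℤ) := by
      have := congrArg (fun x : G => (x : Mt)) h1
      exact this
    rw [Matrix.mul_smul, Matrix.smul_mul] at h2
    have h3 : (g : Mt) * P = P * toR (Z : Matrix (Fin 4) (Fin 4) ℤ) := smul_right_injective _ hsc h2
    rw [← h3, Matrix.mul_assoc, P_Pi, Matrix.mul_one]
  · rintro ⟨Z, hZ⟩
    have hdet : Z.det = 1 := by
      have h1 : (g : Mt).det = 1 := g.2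
      rw [hZ, det_mul, det_mul, mul_comm, ← mul_assoc, ← det_mul, Pi_P, det_one, one_mul] at h1
      have h2 : (toR Z).det = ((Z.det : ℤ) : ℝ) := by
        unfold toR
        rw [← RingHom.map_det]
        rfl
      rw [h2] at h1
      exact_mod_cast h1
    refine ⟨⟨Z, hdet⟩, ?_⟩
    have h1 : P0 * Matrix.SpecialLinearGroup.map (Int.castRingHom ℝ) ⟨Z, hdet⟩ = g * P0 := by
      apply Subtype.ext
      show (sc • P) * toR Z = (g : Mt) * (sc • P)
      rw [hZ, Matrix.mul_smul, Matrix.smul_mul]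
      congr 1
      rw [Matrix.mul_assoc (P * toR Z), Pi_P, Matrix.mul_one]
    rw [mul_assoc, ← h1]
    group

/-- equality of points of the quotient -/
lemma mk_eq_iff (g h : G) : (QuotientGroup.mk (g * P0) : X) = QuotientGroup.mk (h * P0) ↔
    ((g⁻¹ * h : G) : Mt) ∈ Ord := by
  rw [QuotientGroup.eq, ← mem_Gam_iff]
  have : (g * P0)⁻¹ * (h * P0) = P0⁻¹ * (g⁻¹ * h) * P0 := by group
  rw [this]

lemma mem_Ord_inv {g : G} (h : (g : Mt) ∈ Ord) : ((g⁻¹ : G) : Mt) ∈ Ord := by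
  rw [← mem_Gam_iff] at h ⊢
  have := inv_mem h
  have e : (P0⁻¹ * g * P0)⁻¹ = P0⁻¹ * g⁻¹ * P0 := by group
  rwa [e] at this

end Pool.Agent.H286.MR
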