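import Mathlib
import Pool.Agent.H286.MR.Ord

/-! The sequences `M j`, `D j` and the translation lengths -/

set_option autoImplicit false

namespace Pool.Agent.H286.MR

open Filter Topology

/-- the fundamental unit `3 + 2 √2` -/
noncomputable def ep : ℝ := 3 + 2 * s2

/-- its conjugate -/
noncomputable def ep' : ℝ := 3 - 2 * s2

lemma ep_mul : ep * ep' = 1 := by
  unfold ep ep'
  linear_combination (-4 : ℝ) * s2_sq

lemma ep'_mul : ep' * ep = 1 := by rw [mul_comm, ep_mul]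

lemma ep_pos : 0 < ep := by
  unfold ep
  have := s2_pos
  positivity

lemma ep'_eq : ep' = ep⁻¹ := by
  exact eq_inv_of_mul_eq_one_left ep'_mul

lemma ep_eq : ep = ep'⁻¹ := by
  rw [ep'_eq, inv_inv]

lemma ep'_pos : 0 < ep' := by
  rw [ep'_eq]
  exact inv_pos.2 ep_pos

lemma ep_ge : 4 ≤ ep := by
  unfold ep
  have h1 : 1 ≤ s2 := by
    unfold s2
    rw [Real.one_le_sqrt]
    norm_num
  linarith

lemma ep_le : ep ≤ 6 := by
  unfold ep
  have h1 : s2 ≤ 3 / 2 := by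
    unfold s2
    rw [Real.sqrt_le_left (by norm_num)]
    norm_num
  linarith

lemma CP_ep : CP ep ep' := ⟨3, 2, by unfold ep; push_cast; ring, by unfold ep'; push_cast; ring⟩

lemma CP_pow {a b : ℝ} (h : CP a b) (n : ℕ) : CP (a ^ n) (b ^ n) := by
  induction n with
  | zero => simpa using CP_one
  | succ n ih => rw [pow_succ, pow_succ]; exact ih.mul h

lemma CP_zpow (n : ℤ) : CP (ep ^ n) (ep' ^ n) := by
  rcases n with n | n
  · rw [Int.ofNat_eq_natCast, zpow_natCast, zpow_natCast]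
    exact CP_pow CP_ep n
  · rw [zpow_negSucc, zpow_negSucc, ← inv_pow, ← inv_pow, ← ep'_eq, ← ep_eq]
    exact CP_pow CP_ep.swap _

lemma CP_nat (n : ℕ) {a b : ℝ} (h : CP a b) : CP (n * a) (n * b) := by
  obtain ⟨x, y, rfl, rfl⟩ := h
  exact ⟨n * x, n * y, by push_cast; ring, by push_cast; ring⟩

lemma CP_sum {ι : Type*} (s : Finset ι) (f g : ι → ℝ) (h : ∀ i ∈ s, CP (f i) (g i)) :
    CP (∑ i ∈ s, f i) (∑ i ∈ s, g i) := by
  classical
  induction s using Finset.induction_on with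
  | empty => simpa using CP_zero
  | insert i s hi ih =>
    rw [Finset.sum_insert hi, Finset.sum_insert hi]
    exact (h i (Finset.mem_insert_self i s)).add (ih fun j hj => h j (Finset.mem_insert_of_mem hj))

/-- the coefficients of the powers of `3 + 2 √2` -/
def xy : ℕ → ℕ × ℕ
  | 0 => (1, 0)
  | n + 1 => (3 * (xy n).1 + 4 * (xy n).2, 2 * (xy n).1 + 3 * (xy n).2)

lemma ep_pow_eq (n : ℕ) : ep ^ n = ((xy n).1 : ℝ) + ((xy n).2 : ℝ) * s2 := by
  induction n with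
  | zero => simp [xy]
  | succ n ih =>
    rw [pow_succ, ih]
    simp only [xy]
    unfold ep
    push_cast
    linear_combination (2 * ((xy n).2 : ℝ)) * s2_sq

lemma ep'_pow_eq (n : ℕ) : ep' ^ n = ((xy n).1 : ℝ) - ((xy n).2 : ℝ) * s2 := by
  induction n with
  | zero => simp [xy]
  | succ n ih =>
    rw [pow_succ, ih]
    simp only [xy]
    unfold ep'
    push_cast
    linear_combination (2 * ((xy n).2 : ℝ)) * s2_sq

/-- the pairs `(P j, D j)` -/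
def PD : ℕ → ℕ × ℕ
  | 0 => (1, 1)
  | j + 1 =>
    ((PD j).1 * (1 + (PD j).1 * (2 ^ (j + 2) * (2 ^ (j + 25) * (PD j).2 ^ 6))),
      (PD j).2 * (2 * (xy (1 + (PD j).1 * (2 ^ (j + 2) * (2 ^ (j + 25) * (PD j).2 ^ 6)))).1 - 2))

/-- the product of the `M i`, `i < j` -/
def sP (j : ℕ) : ℕ := (PD j).1

/-- the denominators -/
def sD (j : ℕ) : ℕ := (PD j).2

/-- the width of the bad region -/
def sK (j : ℕ) : ℕ := 2 ^ (j + 25) * sD j ^ 6

/-- the moduli -/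
def sM (j : ℕ) : ℕ := 1 + sP j * (2 ^ (j + 2) * sK j)

/-- `ε ^ M j + ε ^ (- M j) - 2` -/
def sN (j : ℕ) : ℕ := 2 * (xy (sM j)).1 - 2

lemma sP_zero : sP 0 = 1 := rfl
lemma sD_zero : sD 0 = 1 := rfl
lemma sP_succ (j : ℕ) : sP (j + 1) = sP j * sM j := rfl
lemma sD_succ (j : ℕ) : sD (j + 1) = sD j * sN j := rfl

lemma sM_pos (j : ℕ) : 0 < sM j := by unfold sM; omega

instance (j : ℕ) : NeZero (sM j) := ⟨(sM_pos j).ne'⟩

lemma sP_pos (j : ℕ) : 0 < sP j := by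
  induction j with
  | zero => rw [sP_zero]; norm_num
  | succ j ih => rw [sP_succ]; exact Nat.mul_pos ih (sM_pos j)

lemma xy_pos (n : ℕ) : 1 ≤ (xy n).1 := by
  induction n with
  | zero => exact le_rfl
  | succ n ih => simp only [xy]; omega

lemma sN_cast (j : ℕ) : (sN j : ℝ) = ep ^ sM j + ep' ^ sM j - 2 := by
  have h1 := xy_pos (sM j)
  have h2 : 2 ≤ 2 * (xy (sM j)).1 := by omega
  unfold sN
  rw [ep_pow_eq, ep'_pow_eq]
  push_cast [h2]
  ring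

lemma pow_pow' (n : ℕ) : ep ^ n * ep' ^ n = 1 := by
  rw [← mul_pow, ep_mul, one_pow]

lemma sN_cast' (j : ℕ) : (sN j : ℝ) = (ep ^ sM j - 1) * (1 - ep' ^ sM j) := by
  rw [sN_cast]
  linear_combination pow_pow' (sM j)

lemma sN_cast'' (j : ℕ) : (sN j : ℝ) = (ep' ^ sM j - 1) * (1 - ep ^ sM j) := by
  rw [sN_cast]
  linear_combination pow_pow' (sM j)

lemma epM_ge (j : ℕ) : 4 ≤ ep ^ sM j := by
  have h1 := ep_ge
  calc (4 : ℝ) ≤ ep ^ 1 := by rw [pow_one]; exact h1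
    _ ≤ ep ^ sM j := pow_le_pow_right₀ (by linarith) (sM_pos j)

lemma ep'M_le (j : ℕ) : ep' ^ sM j ≤ 1 / 2 := by
  have h1 := epM_ge j
  rw [ep'_eq, inv_pow, inv_le_comm₀ (by linarith) (by norm_num)]
  norm_num
  linarith

lemma ep'M_pos (j : ℕ) : 0 < ep' ^ sM j := pow_pos ep'_pos _

lemma sN_pos (j : ℕ) : 0 < sN j := by
  have h1 : (0 : ℝ) < (sN j : ℝ) := by
    rw [sN_cast']
    have h2 := epM_ge j
    have h3 := ep'M_le j
    exact mul_pos (by linarith) (by linarith)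
  exact_mod_cast h1

lemma sD_pos (j : ℕ) : 0 < sD j := by
  induction j with
  | zero => rw [sD_zero]; norm_num
  | succ j ih => rw [sD_succ]; exact Nat.mul_pos ih (sN_pos j)

lemma sK_pos (j : ℕ) : 0 < sK j := by
  unfold sK
  have := sD_pos j
  positivity

lemma sD_dvd {i j : ℕ} (h : i ≤ j) : sD i ∣ sD j := by
  induction j, h using Nat.le_induction with
  | base => exact dvd_rfl
  | succ j _ ih => rw [sD_succ]; exact ih.mul_right _

lemma sD_le {i j : ℕ} (h : i ≤ j) : sD i ≤ sD j :=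
  Nat.le_of_dvd (sD_pos j) (sD_dvd h)

lemma sM_dvd {i j : ℕ} (h : i < j) : sM i ∣ sP j := by
  induction j, h using Nat.le_induction with
  | base => rw [sP_succ]; exact Dvd.intro_left _ rfl
  | succ j _ ih => rw [sP_succ]; exact ih.mul_right _

lemma sM_coprime {i j : ℕ} (h : i ≠ j) : Nat.Coprime (sM i) (sM j) := by
  wlog hij : i < j generalizing i j
  · exact (this h.symm (by omega)).symm
  refine Nat.Coprime.coprime_dvd_left (sM_dvd hij) ?_
  unfold sM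
  rw [Nat.coprime_add_mul_left_right]
  exact Nat.coprime_one_right _

lemma K_le_M (j : ℕ) : 2 ^ (j + 2) * sK j ≤ sM j := by
  have h1 := sP_pos j
  have h2 : 1 * (2 ^ (j + 2) * sK j) ≤ sP j * (2 ^ (j + 2) * sK j) :=
    Nat.mul_le_mul_right _ h1
  unfold sM
  omega

/-- the first translation lengths -/
noncomputable def ta (j : ℕ) (n : ℤ) : ℝ := (sD j : ℝ) ^ 2 * ep ^ n / (ep ^ sM j - 1)

/-- the second translation lengths -/
noncomputable def tb (j : ℕ) (n : ℤ) : ℝ := (sD j : ℝ) ^ 2 * ep' ^ n / (ep' ^ sM j - 1)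

lemma epM_ne (j : ℕ) : ep ^ sM j - 1 ≠ 0 := by
  have := epM_ge j
  intro h
  linarith

lemma ep'M_ne (j : ℕ) : ep' ^ sM j - 1 ≠ 0 := by
  have := ep'M_le j
  intro h
  linarith

lemma sN_ta (j : ℕ) (n : ℤ) :
    (sN j : ℝ) * ta j n = ((sD j ^ 2 : ℕ) : ℝ) * (ep ^ n - ep ^ (n - (sM j : ℤ))) := by
  have h1 := epM_ne j
  have h2 : ep ^ (n - (sM j : ℤ)) = ep ^ n * ep' ^ sM j := by
    rw [zpow_sub₀ ep_pos.ne', zpow_natCast, ep'_eq, inv_pow, div_eq_mul_inv]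
  rw [h2, sN_cast']
  unfold ta
  push_cast
  field_simp

lemma sN_tb (j : ℕ) (n : ℤ) :
    (sN j : ℝ) * tb j n = ((sD j ^ 2 : ℕ) : ℝ) * (ep' ^ n - ep' ^ (n - (sM j : ℤ))) := by
  have h1 := ep'M_ne j
  have h2 : ep' ^ (n - (sM j : ℤ)) = ep' ^ n * ep ^ sM j := by
    rw [zpow_sub₀ ep'_pos.ne', zpow_natCast, div_eq_mul_inv, ← inv_pow, ← ep_eq]
  rw [h2, sN_cast'']
  unfold tb
  push_cast
  field_simp

lemma CP_sN (j : ℕ) (n : ℤ) : CP (sN j * ta j n) (sN j * tb j n) := by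
  rw [sN_ta, sN_tb]
  exact CP_nat _ ((CP_zpow n).sub (CP_zpow _))

lemma ta_add (j : ℕ) (n c : ℤ) : ta j (n + c) = ep ^ c * ta j n := by
  unfold ta
  rw [zpow_add₀ ep_pos.ne']
  ring

lemma tb_add (j : ℕ) (n c : ℤ) : tb j (n + c) = ep' ^ c * tb j n := by
  unfold tb
  rw [zpow_add₀ ep'_pos.ne']
  ring

/-- the difference of two translation lengths for congruent exponents -/
lemma tau_diff {j : ℕ} {n n' : ℤ} (h : (n : ZMod (sM j)) = n') :
    ∃ r r' : ℝ, CP r r' ∧ ta j n' - ta j n = (sD j : ℝ) ^ 2 * r ∧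
      tb j n' - tb j n = (sD j : ℝ) ^ 2 * r' := by
  wlog hle : n ≤ n' generalizing n n'
  · obtain ⟨r, r', hr, e, e'⟩ := this h.symm (by omega)
    exact ⟨-r, -r', hr.neg, by rw [mul_neg, ← e]; ring, by rw [mul_neg, ← e']; ring⟩
  have h1 : ((sM j : ℕ) : ℤ) ∣ n' - n := by
    rw [← ZMod.intCast_zmod_eq_zero_iff_dvd, Int.cast_sub, h, sub_self]
  obtain ⟨c, hc⟩ := h1
  have hc0 : 0 ≤ c := by
    by_contra hneg
    have h2 : (0 : ℤ) < (sM j : ℤ) := by exact_mod_cast sM_pos j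
    nlinarith
  obtain ⟨m, rfl⟩ := Int.eq_ofNat_of_zero_le hc0
  have e1 : n' = n + (sM j : ℤ) * (m : ℤ) := by linarith
  have key : ∀ x : ℝ, x ≠ 0 → x ^ sM j - 1 ≠ 0 →
      (sD j : ℝ) ^ 2 * x ^ n' / (x ^ sM j - 1) - (sD j : ℝ) ^ 2 * x ^ n / (x ^ sM j - 1) =
        (sD j : ℝ) ^ 2 * (x ^ n * ∑ i ∈ Finset.range m, (x ^ sM j) ^ i) := by
    intro x hx hx1
    have e2 : x ^ n' = x ^ n * (x ^ sM j) ^ m := by
      rw [e1, zpow_add₀ hx, zpow_mul, zpow_natCast, zpow_natCast]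
    have e3 : (x ^ sM j) ^ m - 1 = (∑ i ∈ Finset.range m, (x ^ sM j) ^ i) * (x ^ sM j - 1) :=
      (geom_sum_mul (x ^ sM j) m).symm
    rw [e2, ← sub_div, div_eq_iff hx1]
    linear_combination (sD j : ℝ) ^ 2 * x ^ n * e3
  refine ⟨_, _, ?_, key ep ep_pos.ne' (epM_ne j), key ep' ep'_pos.ne' (ep'M_ne j)⟩
  exact (CP_zpow n).mul (CP_sum _ _ _ fun i _ => CP_pow (CP_pow CP_ep _) i)

/-- a good exponent -/
def good (j : ℕ) (i : ℤ) : Prop := (sK j : ℤ) ≤ i ∧ i + sK j ≤ sM j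

/-- the bounds for the translation lengths -/
noncomputable def eb (j : ℕ) : ℝ := (1 / 2) ^ (j + 23) / (sD j : ℝ) ^ 4

lemma eb_pos (j : ℕ) : 0 < eb j := by
  have h1 : (0 : ℝ) < (sD j : ℝ) := by exact_mod_cast sD_pos j
  unfold eb
  positivity

lemma pow_K_bound (j : ℕ) : ep' ^ sK j ≤ (1 / 2) ^ (j + 25) / (sD j : ℝ) ^ 6 := by
  have h0 : (0 : ℝ) < (sD j : ℝ) := by exact_mod_cast sD_pos j
  have h1 : (sK j : ℝ) ≤ ep ^ (sK j) := by
    have h2 : (sK j : ℝ) ≤ 2 ^ sK j := by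
      have := (Nat.lt_two_pow_self (n := sK j)).le
      exact_mod_cast this
    refine h2.trans (pow_le_pow_left₀ (by norm_num) ?_ _)
    linarith [ep_ge]
  have h3 : (0 : ℝ) < (sK j : ℝ) := by exact_mod_cast sK_pos j
  calc ep' ^ (sK j) = (ep ^ sK j)⁻¹ := by rw [ep'_eq, inv_pow]
    _ ≤ ((sK j : ℝ))⁻¹ := inv_anti₀ h3 h1
    _ = (1 / 2) ^ (j + 25) / (sD j : ℝ) ^ 6 := by
      unfold sK
      push_cast
      rw [one_div_pow]
      field_simp

lemma ta_bound {j : ℕ} {n : ℤ} (h : good j n) : |ta j n| ≤ 2 * (sD j : ℝ) ^ 2 * ep' ^ sK j := by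
  have hM := epM_ge j
  have h0 : (0 : ℝ) < (sD j : ℝ) := by exact_mod_cast sD_pos j
  have h1 : 0 < ep ^ sM j - 1 := by linarith
  have h2 : 0 < ep ^ n := zpow_pos ep_pos n
  unfold ta
  rw [abs_of_pos (by positivity), div_le_iff₀ h1]
  have h3 : ep ^ n ≤ ep ^ sM j * ep' ^ sK j := by
    have h4 : n ≤ (sM j : ℤ) + (-(sK j : ℤ)) := by have := h.2; omega
    calc ep ^ n ≤ ep ^ ((sM j : ℤ) + (-(sK j : ℤ))) :=
          zpow_le_zpow_right₀ (by linarith [ep_ge]) h4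
      _ = ep ^ sM j * ep' ^ sK j := by
          rw [zpow_add₀ ep_pos.ne', zpow_neg, zpow_natCast, zpow_natCast, ep'_eq, inv_pow]
  have h5 : 0 < ep' ^ sK j := pow_pos ep'_pos _
  have h6 : ep ^ sM j ≤ 2 * (ep ^ sM j - 1) := by linarith
  calc (sD j : ℝ) ^ 2 * ep ^ n ≤ (sD j : ℝ) ^ 2 * ((2 * (ep ^ sM j - 1)) * ep' ^ sK j) := by
        gcongr
        exact h3.trans (mul_le_mul_of_nonneg_right h6 h5.le)
    _ = _ := by ring

lemma tb_bound {j : ℕ} {n : ℤ} (h : good j n) : |tb j n| ≤ 2 * (sD j : ℝ) ^ 2 * ep' ^ sK j := by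
  have hM := ep'M_le j
  have h0 : (0 : ℝ) < (sD j : ℝ) := by exact_mod_cast sD_pos j
  have h1 : 0 < 1 - ep' ^ sM j := by linarith
  have h2 : 0 < ep' ^ n := zpow_pos ep'_pos n
  have e : tb j n = -((sD j : ℝ) ^ 2 * ep' ^ n / (1 - ep' ^ sM j)) := by
    unfold tb
    rw [← neg_sub 1 (ep' ^ sM j), div_neg]
  rw [e, abs_neg, abs_of_pos (by positivity), div_le_iff₀ h1]
  have h3 : ep' ^ n ≤ ep' ^ sK j := by
    rw [ep'_eq, inv_zpow', inv_pow, ← zpow_natCast, ← zpow_neg]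
    exact zpow_le_zpow_right₀ (by linarith [ep_ge]) (by have := h.1; omega)
  have h5 : 0 < ep' ^ sK j := pow_pos ep'_pos _
  calc (sD j : ℝ) ^ 2 * ep' ^ n ≤ (sD j : ℝ) ^ 2 * ((2 * (1 - ep' ^ sM j)) * ep' ^ sK j) := by
        gcongr
        nlinarith
    _ = _ := by ring

lemma tau_bound {j : ℕ} {n : ℤ} (h : good j n) : |ta j n| + |tb j n| ≤ eb j := by
  have h0 : (0 : ℝ) < (sD j : ℝ) := by exact_mod_cast sD_pos j
  have h1 := ta_bound h
  have h2 := tb_bound h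
  have h3 := pow_K_bound j
  calc |ta j n| + |tb j n| ≤ 4 * (sD j : ℝ) ^ 2 * ep' ^ sK j := by linarith
    _ ≤ 4 * (sD j : ℝ) ^ 2 * ((1 / 2) ^ (j + 25) / (sD j : ℝ) ^ 6) := by gcongr
    _ = eb j := by
        unfold eb
        rw [show j + 25 = (j + 23) + 2 by ring, pow_add]
        field_simp
        ring

lemma eb_le {k j : ℕ} (h : k ≤ j) : eb j ≤ (1 / 2) ^ (j + 23) / (sD k : ℝ) ^ 4 := by
  unfold eb
  have h1 : (0 : ℝ) < (sD k : ℝ) := by exact_mod_cast sD_pos k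
  have h2 : (sD k : ℝ) ≤ (sD j : ℝ) := by exact_mod_cast sD_le h
  gcongr

lemma sum_eb (k n : ℕ) : ∑ i ∈ Finset.range n, eb (k + i) ≤ (1 / 2) ^ (k + 22) / (sD k : ℝ) ^ 4 := by
  have h1 : (0 : ℝ) < (sD k : ℝ) := by exact_mod_cast sD_pos k
  calc ∑ i ∈ Finset.range n, eb (k + i)
      ≤ ∑ i ∈ Finset.range n, (1 / 2) ^ i * ((1 / 2) ^ (k + 23) / (sD k : ℝ) ^ 4) := by
        refine Finset.sum_le_sum fun i _ => (eb_le (Nat.le_add_right k i)).trans (le_of_eq ?_)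
        rw [show k + i + 23 = i + (k + 23) by ring, pow_add]
        ring
    _ = (∑ i ∈ Finset.range n, (1 / 2 : ℝ) ^ i) * ((1 / 2) ^ (k + 23) / (sD k : ℝ) ^ 4) := by
        rw [Finset.sum_mul]
    _ ≤ 2 * ((1 / 2) ^ (k + 23) / (sD k : ℝ) ^ 4) := by
        gcongr
        exact sum_geometric_two_le n
    _ = (1 / 2) ^ (k + 22) / (sD k : ℝ) ^ 4 := by
        rw [pow_succ (1 / 2 : ℝ) (k + 22)]
        ring

/-- the radius of the windows -/
noncomputable def dl (k : ℕ) : ℝ := (1 / 2) ^ (k + 20) / (sD k : ℝ) ^ 4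

lemma dl_pos (j : ℕ) : 0 < dl j := by
  have h1 : (0 : ℝ) < (sD j : ℝ) := by exact_mod_cast sD_pos j
  unfold dl
  positivity

lemma dl_le (k : ℕ) : dl k ≤ (1 / 2) ^ 20 / (sD k : ℝ) ^ 4 := by
  have h1 : (0 : ℝ) < (sD k : ℝ) := by exact_mod_cast sD_pos k
  unfold dl
  gcongr ?_ / _
  exact pow_le_pow_of_le_one (by norm_num) (by norm_num) (by omega)

lemma dl_le' (k : ℕ) : dl k ≤ 1 / 1000000 := by
  have h1 : (1 : ℝ) ≤ (sD k : ℝ) := by exact_mod_cast sD_pos k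
  refine (dl_le k).trans ?_
  calc (1 / 2 : ℝ) ^ 20 / (sD k : ℝ) ^ 4 ≤ (1 / 2 : ℝ) ^ 20 / 1 := by
        gcongr
        exact one_le_pow₀ h1
    _ ≤ 1 / 1000000 := by norm_num

lemma half_eq (k : ℕ) : (1 / 2 : ℝ) ^ (k + 22) / (sD k : ℝ) ^ 4 = dl k / 4 := by
  unfold dl
  rw [show k + 22 = (k + 20) + 2 by ring, pow_add]
  ring

lemma sum_tau {n : ℕ → ℤ} {k : ℕ} (h : ∀ j, k ≤ j → good j (n j)) (m : ℕ) :
    ∑ i ∈ Finset.range m, (|ta (k + i) (n (k + i))| + |tb (k + i) (n (k + i))|) ≤ dl k / 4 := by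
  rw [← half_eq]
  exact (Finset.sum_le_sum fun i _ => tau_bound (h (k + i) (Nat.le_add_right k i))).trans (sum_eb k m)

end Pool.Agent.H286.MR
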