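import Mathlib
import Pool.Agent.H286.MR.Seq

/-! Products of elementary matrices and their convergence -/

set_option autoImplicit false

namespace Pool.Agent.H286.MR

open Filter Topology Matrix
open Pool.Agent.TH225.OC (G Gam X)

/-- the product of the factors from `k` to `k + n - 1`, new factors on the left -/
noncomputable def pr (β : ℕ → Fin 4) (c : ℕ → ℝ × ℝ) (k : ℕ) : ℕ → G
  | 0 => 1
  | n + 1 => tr (β (k + n)) (c (k + n)).1 (c (k + n)).2 * pr β c k n

lemma pr_zero (β : ℕ → Fin 4) (c : ℕ → ℝ × ℝ) (k : ℕ) : pr β c k 0 = 1 := rfl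

lemma pr_succ (β : ℕ → Fin 4) (c : ℕ → ℝ × ℝ) (k n : ℕ) :
    pr β c k (n + 1) = tr (β (k + n)) (c (k + n)).1 (c (k + n)).2 * pr β c k n := rfl

lemma pr_add (β : ℕ → Fin 4) (c : ℕ → ℝ × ℝ) (k m n : ℕ) :
    pr β c k (m + n) = pr β c (k + m) n * pr β c k m := by
  induction n with
  | zero => rw [add_zero, pr_zero, one_mul]
  | succ n ih => rw [← add_assoc, pr_succ, pr_succ, ih, mul_assoc, add_assoc]

lemma pr_congr (β : ℕ → Fin 4) {c c' : ℕ → ℝ × ℝ} {k n : ℕ}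
    (h : ∀ j, k ≤ j → j < k + n → c j = c' j) : pr β c k n = pr β c' k n := by
  induction n with
  | zero => rfl
  | succ n ih =>
    rw [pr_succ, pr_succ, ih fun j h1 h2 => h j h1 (by omega), h (k + n) (by omega) (by omega)]

/-- the sizes of the factors -/
noncomputable def sz (c : ℕ → ℝ × ℝ) (j : ℕ) : ℝ := |(c j).1| + |(c j).2|

lemma sz_nonneg (c : ℕ → ℝ × ℝ) (j : ℕ) : 0 ≤ sz c j := add_nonneg (abs_nonneg _) (abs_nonneg _)

lemma pr_step (β : ℕ → Fin 4) (c : ℕ → ℝ × ℝ) (k n : ℕ) :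
    (pr β c k (n + 1) : Mt) = (pr β c k n : Mt) +
      Xm (β (k + n)) (c (k + n)).1 (c (k + n)).2 * (pr β c k n : Mt) := by
  rw [pr_succ, co_mul, tr_coe, add_mul, one_mul]

/-- the bound for products of small elementary matrices -/
lemma pr_bound (β : ℕ → Fin 4) (c : ℕ → ℝ × ℝ) (k : ℕ) {S : ℝ} (hS : S ≤ 1 / 2)
    (h : ∀ n, ∑ i ∈ Finset.range n, sz c (k + i) ≤ S) (n : ℕ) :
    nn ((pr β c k n : Mt) - 1) ≤ 2 * ∑ i ∈ Finset.range n, sz c (k + i) := by
  induction n with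
  | zero =>
    rw [pr_zero, co_one, sub_self, nn_zero]
    simp
  | succ n ih =>
    have h0 : 0 ≤ ∑ i ∈ Finset.range n, sz c (k + i) := Finset.sum_nonneg fun _ _ => sz_nonneg _ _
    have h2 := h n
    rw [pr_step, Finset.sum_range_succ]
    have h3 : nn (pr β c k n : Mt) ≤ 2 := (nn_le_of_near ih).trans (by linarith)
    have h4 : nn (Xm (β (k + n)) (c (k + n)).1 (c (k + n)).2) ≤ sz c (k + n) := nn_Xm _ _ _
    have e : (pr β c k n : Mt) + Xm (β (k + n)) (c (k + n)).1 (c (k + n)).2 * (pr β c k n : Mt) - 1 =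
        ((pr β c k n : Mt) - 1) + Xm (β (k + n)) (c (k + n)).1 (c (k + n)).2 * (pr β c k n : Mt) := by
      abel
    rw [e]
    have h5 := nn_add ((pr β c k n : Mt) - 1)
      (Xm (β (k + n)) (c (k + n)).1 (c (k + n)).2 * (pr β c k n : Mt))
    have h6 := nn_mul (Xm (β (k + n)) (c (k + n)).1 (c (k + n)).2) (pr β c k n : Mt)
    have h7 := nn_nonneg (Xm (β (k + n)) (c (k + n)).1 (c (k + n)).2)
    have h8 := nn_nonneg (pr β c k n : Mt)
    have h9 := sz_nonneg c (k + n)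
    nlinarith

/-- convergence of products -/
lemma exists_limit (β : ℕ → Fin 4) (c : ℕ → ℝ × ℝ) (k : ℕ) {S : ℝ} (hS : S ≤ 1 / 2)
    (h : ∀ n, ∑ i ∈ Finset.range n, sz c (k + i) ≤ S) :
    ∃ g : G, Tendsto (fun n => pr β c 0 n) atTop (𝓝 g) := by
  have hsum : Summable fun i => 2 * sz c (k + i) :=
    (summable_of_sum_range_le (fun _ => sz_nonneg _ _) h).mul_left 2
  have h0 : ∀ i j : Fin 4, ∃ a : ℝ, Tendsto (fun n => (pr β c k n : Mt) i j) atTop (𝓝 a) := by
    intro i j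
    refine cauchySeq_tendsto_of_complete ?_
    refine cauchySeq_of_dist_le_of_summable _ (fun n => ?_) hsum
    rw [dist_comm, Real.dist_eq, pr_step, Matrix.add_apply, add_sub_cancel_left]
    refine (entry_le _ i j).trans ((nn_mul _ _).trans ?_)
    have ih := pr_bound β c k hS h n
    have h2 := h n
    have h3 : nn (pr β c k n : Mt) ≤ 2 := (nn_le_of_near ih).trans (by linarith)
    have h4 : nn (Xm (β (k + n)) (c (k + n)).1 (c (k + n)).2) ≤ sz c (k + n) := nn_Xm _ _ _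
    have h7 := nn_nonneg (Xm (β (k + n)) (c (k + n)).1 (c (k + n)).2)
    have h8 := nn_nonneg (pr β c k n : Mt)
    have h9 := sz_nonneg c (k + n)
    nlinarith
  choose a ha using h0
  have h1 : Tendsto (fun n => (pr β c k n : Mt)) atTop (𝓝 (Matrix.of a)) := by
    refine tendsto_pi_nhds.2 fun i => tendsto_pi_nhds.2 fun j => ha i j
  have hdet : (Matrix.of a).det = 1 := by
    have h2 : Tendsto (fun n => (pr β c k n : Mt).det) atTop
        (𝓝 (Matrix.of a).det) := (continuous_id.matrix_det.tendsto _).comp h1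
    have h3 : (fun n => (pr β c k n : Mt).det) = fun _ => 1 := by
      funext n
      exact (pr β c k n).2
    rw [h3] at h2
    exact tendsto_nhds_unique h2 tendsto_const_nhds
  have h4 : Tendsto (fun n => pr β c k n) atTop (𝓝 (⟨Matrix.of a, hdet⟩ : G)) :=
    tendsto_subtype_rng.2 h1
  refine ⟨⟨Matrix.of a, hdet⟩ * pr β c 0 k, ?_⟩
  rw [← tendsto_add_atTop_iff_nat k]
  have h5 : (fun n => pr β c 0 (n + k)) = fun n => pr β c k n * pr β c 0 k := by
    funext n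
    rw [add_comm n k, pr_add, zero_add]
  rw [h5]
  exact h4.mul_const _

/-- the tail of a convergent product -/
lemma limit_near (β : ℕ → Fin 4) (c : ℕ → ℝ × ℝ) (k : ℕ) {S : ℝ} (hS : S ≤ 1 / 2)
    (h : ∀ n, ∑ i ∈ Finset.range n, sz c (k + i) ≤ S) {g : G}
    (hg : Tendsto (fun n => pr β c 0 n) atTop (𝓝 g)) :
    nn (((g * (pr β c 0 k)⁻¹ : G) : Mt) - 1) ≤ 2 * S := by
  have h1 : Tendsto (fun n => pr β c k n) atTop (𝓝 (g * (pr β c 0 k)⁻¹)) := by
    have h2 : Tendsto (fun n => pr β c 0 (n + k)) atTop (𝓝 g) := (tendsto_add_atTop_iff_nat k).2 hg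
    have h3 := h2.mul_const (pr β c 0 k)⁻¹
    refine h3.congr fun n => ?_
    rw [add_comm n k, pr_add, zero_add, mul_inv_cancel_right]
  refine le_of_tendsto ((continuous_nn_sl.tendsto _).comp h1) (Eventually.of_forall fun n => ?_)
  exact (pr_bound β c k hS h n).trans (by linarith [h n])

/-- the translation lengths, for a sequence of integer exponents -/
noncomputable def tau (n : ℕ → ℤ) (j : ℕ) : ℝ × ℝ := (ta j (n j), tb j (n j))

lemma sum_sz {n : ℕ → ℤ} {k : ℕ} (h : ∀ j, k ≤ j → good j (n j)) (m : ℕ) :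
    ∑ i ∈ Finset.range m, sz (tau n) (k + i) ≤ dl k / 4 := sum_tau h m

lemma dl_quarter (k : ℕ) : dl k / 4 ≤ 1 / 2 := by
  have := dl_le' k
  linarith

lemma exists_limit_tau (β : ℕ → Fin 4) {n : ℕ → ℤ} {k : ℕ} (h : ∀ j, k ≤ j → good j (n j)) :
    ∃ g : G, Tendsto (fun m => pr β (tau n) 0 m) atTop (𝓝 g) :=
  exists_limit β (tau n) k (dl_quarter k) (sum_sz h)

/-- the tail is close to `1` -/
lemma limit_near_tau (β : ℕ → Fin 4) {n : ℕ → ℤ} {k : ℕ} (h : ∀ j, k ≤ j → good j (n j)) {g : G}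
    (hg : Tendsto (fun m => pr β (tau n) 0 m) atTop (𝓝 g)) :
    nn (((g * (pr β (tau n) 0 k)⁻¹ : G) : Mt) - 1) < dl k := by
  have h1 := limit_near β (tau n) k (dl_quarter k) (sum_sz h) hg
  have h2 := dl_pos k
  linarith

/-! ### Integrality -/

lemma int_D (β : ℕ → Fin 4) (n : ℕ → ℤ) (k : ℕ) : (sD k : ℝ) • (pr β (tau n) 0 k : Mt) ∈ Ord := by
  induction k with
  | zero =>
    rw [pr_zero, co_one]
    exact nat_smul_mem _ (one_mem _)
  | succ k ih =>
    rw [pr_step, zero_add, sD_succ]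
    have e : (((sD k * sN k : ℕ) : ℝ)) • ((pr β (tau n) 0 k : Mt) +
        Xm (β k) (tau n k).1 (tau n k).2 * (pr β (tau n) 0 k : Mt)) =
        (sN k : ℝ) • ((sD k : ℝ) • (pr β (tau n) 0 k : Mt)) +
        Xm (β k) (sN k * ta k (n k)) (sN k * tb k (n k)) * ((sD k : ℝ) • (pr β (tau n) 0 k : Mt)) := by
      rw [Xm_smul, smul_add]
      simp only [smul_mul_assoc, mul_smul_comm, smul_smul]
      push_cast
      unfold tau
      rw [mul_comm (sD k : ℝ) (sN k : ℝ)]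
    rw [e]
    exact add_mem (nat_smul_mem _ ih) (mul_mem (Xm_mem _ (CP_sN k (n k))) ih)

lemma pr_inv_step (β : ℕ → Fin 4) (c : ℕ → ℝ × ℝ) (k n : ℕ) :
    (((pr β c k (n + 1))⁻¹ : G) : Mt) = (((pr β c k n)⁻¹ : G) : Mt) -
      (((pr β c k n)⁻¹ : G) : Mt) * Xm (β (k + n)) (c (k + n)).1 (c (k + n)).2 := by
  rw [pr_succ, _root_.mul_inv_rev, ← tr_neg, co_mul, tr_coe, Xm_neg, mul_add, mul_one, mul_neg,
    sub_eq_add_neg]

lemma int_D_inv (β : ℕ → Fin 4) (n : ℕ → ℤ) (k : ℕ) :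
    (sD k : ℝ) • (((pr β (tau n) 0 k)⁻¹ : G) : Mt) ∈ Ord := by
  induction k with
  | zero =>
    rw [pr_zero, inv_one, co_one]
    exact nat_smul_mem _ (one_mem _)
  | succ k ih =>
    rw [pr_inv_step, zero_add, sD_succ]
    have e : (((sD k * sN k : ℕ) : ℝ)) • ((((pr β (tau n) 0 k)⁻¹ : G) : Mt) -
        (((pr β (tau n) 0 k)⁻¹ : G) : Mt) * Xm (β k) (tau n k).1 (tau n k).2) =
        (sN k : ℝ) • ((sD k : ℝ) • (((pr β (tau n) 0 k)⁻¹ : G) : Mt)) -
        ((sD k : ℝ) • (((pr β (tau n) 0 k)⁻¹ : G) : Mt)) *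
          Xm (β k) (sN k * ta k (n k)) (sN k * tb k (n k)) := by
      rw [Xm_smul, smul_sub]
      simp only [smul_mul_assoc, mul_smul_comm, smul_smul]
      push_cast
      unfold tau
      rw [mul_comm (sD k : ℝ) (sN k : ℝ)]
    rw [e]
    exact sub_mem (nat_smul_mem _ ih) (mul_mem ih (Xm_mem _ (CP_sN k (n k))))

lemma int_diff (β : ℕ → Fin 4) {n n' : ℕ → ℤ} (h : ∀ j, (n j : ZMod (sM j)) = n' j) (k : ℕ) :
    (((pr β (tau n) 0 k)⁻¹ * pr β (tau n') 0 k : G) : Mt) ∈ Ord := by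
  induction k with
  | zero =>
    rw [pr_zero, pr_zero, inv_one, one_mul, co_one]
    exact one_mem _
  | succ k ih =>
    obtain ⟨r, r', hr, e1, e2⟩ := tau_diff (h k)
    rw [pr_succ, pr_succ, zero_add, _root_.mul_inv_rev, mul_assoc, ← mul_assoc (tr _ _ _)⁻¹, ← tr_neg,
      ← tr_add]
    have e3 : -(tau n k).1 + (tau n' k).1 = (sD k : ℝ) ^ 2 * r := by rw [← e1]; unfold tau; ring
    have e4 : -(tau n k).2 + (tau n' k).2 = (sD k : ℝ) ^ 2 * r' := by rw [← e2]; unfold tau; ring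
    rw [e3, e4, co_mul, co_mul, tr_coe, add_mul, one_mul, mul_add, Xm_smul, ← co_mul]
    refine add_mem ih ?_
    have e5 : (((pr β (tau n) 0 k)⁻¹ : G) : Mt) *
        (((sD k : ℝ) ^ 2 • Xm (β k) r r') * (pr β (tau n') 0 k : Mt)) =
        (((sD k : ℝ) • (((pr β (tau n) 0 k)⁻¹ : G) : Mt)) * Xm (β k) r r') *
          ((sD k : ℝ) • (pr β (tau n') 0 k : Mt)) := by
      simp only [smul_mul_assoc, mul_smul_comm, smul_smul, mul_assoc]
      congr 1
      ring
    rw [e5]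
    exact mul_mem (mul_mem (int_D_inv β n k) (Xm_mem _ hr)) (int_D β n' k)

end Pool.Agent.H286.MR
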