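import Mathlib
import Pool.Agent.H286.MR.Conv

/-! The lattice, well-definedness and equivariance -/

set_option autoImplicit false

namespace Pool.Agent.H286.MR

open Filter Topology Matrix
open Pool.Agent.TH225.OC (G Gam X)

section lattice

/-- the elements of the order as a set of group elements -/
def OG : Subgroup G where
  carrier := {g | (g : Mt) ∈ Ord}
  mul_mem' := by
    intro a b ha hb
    show ((a * b : G) : Mt) ∈ Ord
    rw [co_mul]
    exact mul_mem ha hb
  one_mem' := by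
    show ((1 : G) : Mt) ∈ Ord
    rw [co_one]
    exact one_mem _
  inv_mem' := by
    intro a ha
    exact mem_Ord_inv ha

lemma mem_OG {g : G} : g ∈ OG ↔ (g : Mt) ∈ Ord := Iff.rfl

/-- the elements of the order near `1` -/
lemma OG_near {g : G} (h : g ∈ OG) (h1 : nn ((g : Mt) - 1) ≤ 1 / 5) : g = 1 := by
  have h2 : (g : Mt) - 1 = 0 := ord_small (sub_mem h (one_mem _)) h1 (by norm_num)
  exact Subtype.ext (sub_eq_zero.1 h2)

lemma OG_discrete : DiscreteTopology OG := by
  refine discreteTopology_of_isOpen_singleton_one ?_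
  have ho : IsOpen {g : OG | nn (((g : G) : Mt) - 1) < 1 / 5} :=
    isOpen_lt (continuous_nn_sl.comp continuous_subtype_val) continuous_const
  convert ho using 1
  ext g
  rw [Set.mem_singleton_iff, Set.mem_ofPred_eq]
  constructor
  · rintro rfl
    have e1 : nn ((((1 : OG) : G) : Mt) - 1) = 0 := by
      rw [nn_eq_zero, sub_eq_zero]
      rfl
    rw [e1]
    norm_num
  · intro h1
    exact Subtype.ext (OG_near g.2 h1.le)

lemma OG_closed : IsClosed (OG : Set G) :=
  haveI := OG_discrete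
  Subgroup.isClosed_of_discrete

lemma Gam_eq : (Gam : Set G) = (fun g => P0 * g * P0⁻¹) ⁻¹' (OG : Set G) := by
  ext g
  rw [Set.mem_preimage, SetLike.mem_coe, SetLike.mem_coe, mem_OG, ← mem_Gam_iff]
  have : P0⁻¹ * (P0 * g * P0⁻¹) * P0 = g := by group
  rw [this]

lemma Gam_closed : IsClosed (Gam : Set G) := by
  rw [Gam_eq]
  exact OG_closed.preimage ((continuous_const.mul continuous_id).mul continuous_const)

instance : Countable Gam := by
  have h2 : Countable (Matrix (Fin 4) (Fin 4) ℤ) :=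
    inferInstanceAs (Countable (Fin 4 → Fin 4 → ℤ))
  have h1 : Countable (Matrix.SpecialLinearGroup (Fin 4) ℤ) := Subtype.countable
  have h3 : ((Gam : Subgroup G) : Set G).Countable :=
    Set.countable_range (Matrix.SpecialLinearGroup.map (Int.castRingHom ℝ) :
      Matrix.SpecialLinearGroup (Fin 4) ℤ → G)
  exact h3.to_subtype

/-- well definedness of the limit points -/
lemma mk_eq_of_lim (β : ℕ → Fin 4) {n n' : ℕ → ℤ} (h : ∀ j, (n j : ZMod (sM j)) = n' j)
    {g g' : G} (hg : Tendsto (fun m => pr β (tau n) 0 m) atTop (𝓝 g))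
    (hg' : Tendsto (fun m => pr β (tau n') 0 m) atTop (𝓝 g')) :
    (QuotientGroup.mk (g * P0) : X) = QuotientGroup.mk (g' * P0) := by
  rw [mk_eq_iff]
  exact OG_closed.mem_of_tendsto (hg.inv.mul hg') (Eventually.of_forall fun m => int_diff β h m)

end lattice

section torus

/-- the logarithm of the unit -/
noncomputable def el : ℝ := Real.log ep

lemma el_pos : 0 < el := Real.log_pos (by linarith [ep_ge])

lemma exp_el_mul (n : ℤ) : Real.exp (n * el) = ep ^ n := by
  unfold el
  rw [← Real.log_zpow, Real.exp_log (zpow_pos ep_pos n)]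

lemma exp_neg_el_mul (n : ℤ) : Real.exp (-(n * el)) = ep' ^ n := by
  rw [Real.exp_neg, exp_el_mul, ep'_eq, _root_.inv_zpow]

/-- the lattice points of the acting group -/
noncomputable def aq (x : ℤ × ℤ) : G := ag (x.1 * el) (x.2 * el)

lemma aq_add (x y : ℤ × ℤ) : aq (x + y) = aq x * aq y := by
  unfold aq
  rw [ag_mul]
  congr 1 <;> · simp only [Prod.fst_add, Prod.snd_add]; push_cast; ring

lemma aq_mem (x : ℤ × ℤ) : (aq x : Mt) ∈ Ord := by
  have h1 : (aq x : Mt) = diagonal ![ep ^ x.1, ep' ^ x.1, ep ^ x.2, ep' ^ x.2] := by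
    unfold aq
    rw [ag_coe]
    congr 1
    unfold dgv
    rw [exp_el_mul, exp_neg_el_mul, exp_el_mul, exp_neg_el_mul]
  rw [h1]
  exact diag_mem (CP_zpow _) (CP_zpow _)

/-- the shifts -/
def chi (β : Fin 4) (x : ℤ × ℤ) : ℤ := (![x.1 - x.2, x.2 - x.1, x.1 + x.2, x.1 + x.2] : Fin 4 → ℤ) β

lemma xi_el (β : Fin 4) (x : ℤ × ℤ) : xi β (x.1 * el) (x.2 * el) = chi β x * el := by
  fin_cases β <;> simp [xi, chi] <;> ring

lemma aq_tr (β : Fin 4) (x : ℤ × ℤ) (j : ℕ) (n : ℤ) :
    aq x * tr β (ta j n) (tb j n) = tr β (ta j (n + chi β x)) (tb j (n + chi β x)) * aq x := by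
  unfold aq
  rw [ag_tr, xi_el, exp_el_mul, exp_neg_el_mul, ta_add, tb_add]

lemma aq_pr (β : ℕ → Fin 4) (n : ℕ → ℤ) (x : ℤ × ℤ) (k : ℕ) :
    aq x * pr β (tau n) 0 k = pr β (tau (fun j => n j + chi (β j) x)) 0 k * aq x := by
  induction k with
  | zero => rw [pr_zero, pr_zero, mul_one, one_mul]
  | succ k ih =>
    rw [pr_succ, pr_succ, zero_add]
    have h1 := aq_tr (β k) x k (n k)
    show aq x * (tr (β k) (ta k (n k)) (tb k (n k)) * _) = tr (β k) (ta k (n k + chi (β k) x))
      (tb k (n k + chi (β k) x)) * _ * aq x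
    rw [← mul_assoc, h1, mul_assoc, ih, mul_assoc]

/-- equivariance -/
lemma smul_mk_of_lim (β : ℕ → Fin 4) {n n' : ℕ → ℤ} (x : ℤ × ℤ)
    (h : ∀ j, (((n j + chi (β j) x : ℤ)) : ZMod (sM j)) = n' j)
    {g g' : G} (hg : Tendsto (fun m => pr β (tau n) 0 m) atTop (𝓝 g))
    (hg' : Tendsto (fun m => pr β (tau n') 0 m) atTop (𝓝 g')) :
    aq x • (QuotientGroup.mk (g * P0) : X) = QuotientGroup.mk (g' * P0) := by
  have h1 : Tendsto (fun m => pr β (tau (fun j => n j + chi (β j) x)) 0 m) atTop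
      (𝓝 (aq x * g * (aq x)⁻¹)) := by
    have h2 := (hg.const_mul (aq x)).mul_const (aq x)⁻¹
    refine h2.congr fun m => ?_
    rw [aq_pr, mul_inv_cancel_right]
  have h3 := mk_eq_of_lim β h h1 hg'
  rw [← h3]
  show (QuotientGroup.mk (aq x * (g * P0)) : X) = _
  rw [← mul_assoc, mk_eq_iff]
  have : (aq x * g)⁻¹ * (aq x * g * (aq x)⁻¹) = (aq x)⁻¹ := by group
  rw [this]
  exact mem_Ord_inv (aq_mem x)

end torus

end Pool.Agent.H286.MR
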