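import Mathlib
import Pool.Agent.H286.MR.Wd
import Pool.Agent.H286.MR.Defs

/-! The odometer: the compact group `Ω`, its Haar measure, the dense shifts -/

set_option autoImplicit false

namespace Pool.Agent.H286.MR

open MeasureTheory Filter Topology
open scoped ENNReal

/-- the compact group `∏ ℤ/M_j` -/
abbrev Om : Type := ∀ j : ℕ, ZMod (sM j)

/-- the Haar probability measure -/
noncomputable def hm : Measure Om := Measure.addHaarMeasure ⊤

instance : hm.IsAddHaarMeasure := by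
  unfold hm
  infer_instance

instance : hm.Regular := by
  unfold hm
  infer_instance

instance : IsProbabilityMeasure hm :=
  ⟨by
    have h := Measure.addHaarMeasure_self (K₀ := (⊤ : TopologicalSpace.PositiveCompacts Om))
    exact h⟩

/-- the counting lemma -/
lemma count_lemma {B : Type} [Fintype B] (v : B → Om) {E : Set Om}
    (hE : MeasurableSet E) (R : ℕ) (h : ∀ᵐ ω ∂hm, {b : B | ω + v b ∈ E}.ncard ≤ R) :
    (Fintype.card B : ℝ≥0∞) * hm E ≤ R := by
  classical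
  have h1 : ∀ b : B, ∫⁻ ω, E.indicator 1 (ω + v b) ∂hm = hm E := by
    intro b
    rw [lintegral_add_right_eq_self (fun ω => E.indicator (1 : Om → ℝ≥0∞) ω) (v b),
      lintegral_indicator_one hE]
  have hmeas : ∀ b : B, Measurable fun ω : Om => E.indicator (1 : Om → ℝ≥0∞) (ω + v b) :=
    fun b => (measurable_one.indicator hE).comp (measurable_add_const (v b))
  calc (Fintype.card B : ℝ≥0∞) * hm E = ∑ b : B, hm E := by
        rw [Finset.sum_const, Finset.card_univ, nsmul_eq_mul]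
    _ = ∑ b : B, ∫⁻ ω, E.indicator 1 (ω + v b) ∂hm := by
        exact Finset.sum_congr rfl fun b _ => (h1 b).symm
    _ = ∫⁻ ω, ∑ b : B, E.indicator 1 (ω + v b) ∂hm :=
        (lintegral_finsetSum _ fun b _ => hmeas b).symm
    _ ≤ ∫⁻ _ω, (R : ℝ≥0∞) ∂hm := by
        refine lintegral_mono_ae (h.mono fun ω hω => ?_)
        have h2 : ∑ b : B, E.indicator (1 : Om → ℝ≥0∞) (ω + v b) =
            (({b : B | ω + v b ∈ E}.ncard : ℕ) : ℝ≥0∞) := by
          rw [Set.ncard_eq_toFinset_card', Finset.card_eq_sum_ones, Nat.cast_sum]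
          rw [← Finset.sum_subset (Finset.subset_univ {b : B | ω + v b ∈ E}.toFinset)]
          · refine Finset.sum_congr rfl fun b hb => ?_
            rw [Set.mem_toFinset] at hb
            have hb' : ω + v b ∈ E := hb
            rw [Set.indicator_of_mem hb']
            simp
          · intro b _ hb
            rw [Set.mem_toFinset] at hb
            have hb' : ω + v b ∉ E := hb
            exact Set.indicator_of_notMem hb' _
        rw [h2]
        exact_mod_cast hω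
    _ = R := by rw [lintegral_const, measure_univ, mul_one]

section bad

/-- the integer exponents -/
def iv (ω : Om) (j : ℕ) : ℤ := ((ω j).val : ℤ)

/-- the bad set at the `j`-th place -/
def bad (j : ℕ) : Set Om := {ω | ¬ good j (iv ω j)}

lemma isClosed_coord (j : ℕ) (T : Set (ZMod (sM j))) : IsClosed {ω : Om | ω j ∈ T} :=
  (isClosed_discrete T).preimage (continuous_apply j)

lemma measurableSet_coord (j : ℕ) (T : Set (ZMod (sM j))) : MeasurableSet {ω : Om | ω j ∈ T} :=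
  (isClosed_coord j T).measurableSet

lemma measurable_bad (j : ℕ) : MeasurableSet (bad j) :=
  measurableSet_coord j {a | ¬ good j ((a.val : ℕ) : ℤ)}

lemma ncard_bad (j : ℕ) : {a : ZMod (sM j) | ¬ good j ((a.val : ℕ) : ℤ)}.ncard ≤ 2 * sK j := by
  have h1 : {a : ZMod (sM j) | ¬ good j ((a.val : ℕ) : ℤ)}.ncard =
      ((fun a : ZMod (sM j) => a.val) '' {a : ZMod (sM j) | ¬ good j ((a.val : ℕ) : ℤ)}).ncard :=
    (Set.ncard_image_of_injective _ (ZMod.val_injective _)).symm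
  rw [h1]
  have h2 : ((fun a : ZMod (sM j) => a.val) '' {a : ZMod (sM j) | ¬ good j ((a.val : ℕ) : ℤ)}) ⊆
      ((Finset.range (sK j) ∪ Finset.Ico (sM j - sK j) (sM j) : Finset ℕ) : Set ℕ) := by
    rintro _ ⟨a, ha, rfl⟩
    have ha1 : a.val < sM j := ZMod.val_lt a
    rw [Set.mem_ofPred_eq] at ha
    unfold good at ha
    rw [Finset.mem_coe, Finset.mem_union, Finset.mem_range, Finset.mem_Ico]
    show a.val < sK j ∨ sM j - sK j ≤ a.val ∧ a.val < sM j
    by_cases h3 : a.val < sK j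
    · exact Or.inl h3
    · right
      refine ⟨?_, ha1⟩
      by_contra h4
      exact ha ⟨by omega, by omega⟩
  refine (Set.ncard_le_ncard h2 (Finset.finite_toSet _)).trans ?_
  rw [Set.ncard_coe_finset]
  refine (Finset.card_union_le _ _).trans ?_
  rw [Finset.card_range, Nat.card_Ico]
  omega

/-- a coordinate embedding -/
def cemb (j : ℕ) (b : ZMod (sM j)) : Om := Pi.single j b

lemma cemb_same (j : ℕ) (b : ZMod (sM j)) : cemb j b j = b := Pi.single_eq_same _ _

lemma cemb_ne {j i : ℕ} (h : i ≠ j) (b : ZMod (sM j)) : cemb j b i = 0 := Pi.single_eq_of_ne h _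

lemma hm_bad (j : ℕ) : hm (bad j) ≤ (1 / 2 : ℝ≥0∞) ^ (j + 1) := by
  have h1 := count_lemma (fun b : ZMod (sM j) => cemb j b) (measurable_bad j) (2 * sK j) ?_
  · rw [ZMod.card] at h1
    have hM0 : ((sM j : ℕ) : ℝ≥0∞) ≠ 0 := by exact_mod_cast (sM_pos j).ne'
    have hMt : ((sM j : ℕ) : ℝ≥0∞) ≠ ⊤ := ENNReal.natCast_ne_top _
    have h2 : hm (bad j) ≤ ((2 * sK j : ℕ) : ℝ≥0∞) / (sM j : ℝ≥0∞) := by
      rw [ENNReal.le_div_iff_mul_le (Or.inl hM0) (Or.inl hMt), mul_comm]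
      exact h1
    refine h2.trans (ENNReal.div_le_of_le_mul ?_)
    have h3 : ((2 ^ (j + 2) * sK j : ℕ) : ℝ≥0∞) ≤ (sM j : ℝ≥0∞) := by exact_mod_cast K_le_M j
    have h4 : ((2 * sK j : ℕ) : ℝ≥0∞) = (1 / 2 : ℝ≥0∞) ^ (j + 1) * ((2 ^ (j + 2) * sK j : ℕ) : ℝ≥0∞) := by
      push_cast
      rw [one_div, ← ENNReal.inv_pow, pow_succ (2 : ℝ≥0∞) (j + 1), mul_assoc, ← mul_assoc (((2 : ℝ≥0∞) ^ (j + 1))⁻¹),
        ENNReal.inv_mul_cancel (by positivity) (by finiteness), one_mul]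
    rw [h4]
    gcongr
  · refine Eventually.of_forall fun ω => ?_
    have h5 : {b : ZMod (sM j) | ω + cemb j b ∈ bad j} =
        (fun b => ω j + b) ⁻¹' {a : ZMod (sM j) | ¬ good j ((a.val : ℕ) : ℤ)} := by
      ext b
      show (¬ good j (iv (ω + cemb j b) j)) ↔ _
      unfold iv
      rw [Pi.add_apply, cemb_same]
      rfl
    rw [h5, Set.ncard_preimage_of_injective_subset_range (add_right_injective (ω j))]
    · exact ncard_bad j
    · intro a _
      exact ⟨-ω j + a, by simp⟩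

lemma ae_good : ∀ᵐ ω ∂hm, ∀ᶠ j in atTop, good j (iv ω j) := by
  have h1 : ∑' j, hm (bad j) ≠ ⊤ := by
    refine ne_top_of_le_ne_top ?_ (ENNReal.tsum_le_tsum fun j => hm_bad j)
    have h2 : ∑' j : ℕ, (1 / 2 : ℝ≥0∞) ^ (j + 1) ≤ ∑' j : ℕ, (1 / 2 : ℝ≥0∞) ^ j :=
      ENNReal.tsum_le_tsum fun j => pow_le_pow_of_le_one (by positivity) (by norm_num) (Nat.le_succ j)
    refine ne_top_of_le_ne_top ?_ h2
    rw [one_div, ENNReal.tsum_geometric, ENNReal.one_sub_inv_two, inv_inv]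
    exact ENNReal.ofNat_ne_top
  refine (ae_eventually_notMem h1).mono fun ω hω => hω.mono fun j hj => ?_
  by_contra h3
  exact hj h3

/-- the set of points which are good from `k` on -/
def goodset (k : ℕ) : Set Om := {ω | ∀ j, k ≤ j → good j (iv ω j)}

lemma hm_goodset_compl (k : ℕ) : hm (goodset k)ᶜ ≤ (1 / 2 : ℝ≥0∞) ^ k := by
  have h1 : (goodset k)ᶜ ⊆ ⋃ j : ℕ, bad (k + j) := by
    intro ω hω
    rw [Set.mem_compl_iff] at hω
    unfold goodset at hω
    rw [Set.mem_ofPred_eq] at hω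
    push Not at hω
    obtain ⟨j, hj, h2⟩ := hω
    refine Set.mem_iUnion.2 ⟨j - k, ?_⟩
    rw [Nat.add_sub_cancel' hj]
    exact h2
  refine (measure_mono h1).trans ((measure_iUnion_le _).trans ?_)
  refine (ENNReal.tsum_le_tsum fun j => hm_bad (k + j)).trans ?_
  have h3 : ∀ j : ℕ, (1 / 2 : ℝ≥0∞) ^ (k + j + 1) = (1 / 2 : ℝ≥0∞) ^ (k + 1) * (1 / 2) ^ j := by
    intro j
    rw [← pow_add]
    congr 1
    ring
  simp_rw [h3]
  rw [ENNReal.tsum_mul_left, one_div, ENNReal.tsum_geometric, ENNReal.one_sub_inv_two, inv_inv, pow_succ,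
    mul_assoc, ENNReal.inv_mul_cancel (by norm_num) (by norm_num), mul_one]

lemma measurable_goodset (k : ℕ) : MeasurableSet (goodset k) := by
  have : goodset k = ⋂ j : ℕ, ⋂ _ : k ≤ j, (bad j)ᶜ := by
    ext ω
    simp only [goodset, bad, Set.mem_iInter, Set.mem_compl_iff, Set.mem_ofPred_eq, not_not]
  rw [this]
  exact MeasurableSet.iInter fun j => MeasurableSet.iInter fun _ => (measurable_bad j).compl

end bad

section dense

/-- the shifts -/
def sh (β : ℕ → Fin 4) (x : ℤ × ℤ) : Om := fun j => ((chi (β j) x : ℤ) : ZMod (sM j))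

/-- a vector with shift `c` -/
def cv (β : Fin 4) (c : ℤ) : ℤ × ℤ := (![(c, 0), (-c, 0), (c, 0), (c, 0)] : Fin 4 → ℤ × ℤ) β

lemma chi_cv (β : Fin 4) (c : ℤ) : chi β (cv β c) = c := by
  fin_cases β <;> simp [chi, cv]

lemma chi_congr {M : ℕ} (β : Fin 4) {x y : ℤ × ℤ} (h1 : (x.1 : ZMod M) = y.1)
    (h2 : (x.2 : ZMod M) = y.2) : (chi β x : ZMod M) = chi β y := by
  fin_cases β <;> simp [chi, h1, h2]

lemma exists_shift (β : ℕ → Fin 4) (ω : Om) (I : Finset ℕ) : ∃ x : ℤ × ℤ, ∀ i ∈ I, sh β x i = ω i := by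
  have hcop : Set.Pairwise (I : Set ℕ) (Function.onFun Nat.Coprime sM) := fun i _ j _ hij => sM_coprime hij
  obtain ⟨a, ha⟩ := Nat.chineseRemainderOfFinset
    (fun i => ((((cv (β i) ((ω i).val : ℤ)).1 : ℤ) : ZMod (sM i))).val) sM I
    (fun i _ => (sM_pos i).ne') hcop
  obtain ⟨b, hb⟩ := Nat.chineseRemainderOfFinset
    (fun i => ((((cv (β i) ((ω i).val : ℤ)).2 : ℤ) : ZMod (sM i))).val) sM I
    (fun i _ => (sM_pos i).ne') hcop
  refine ⟨((a : ℤ), (b : ℤ)), fun i hi => ?_⟩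
  have h1 : ((a : ℤ) : ZMod (sM i)) = (((cv (β i) ((ω i).val : ℤ)).1 : ℤ) : ZMod (sM i)) := by
    have h2 := (ZMod.natCast_eq_natCast_iff _ _ _).2 (ha i hi)
    rw [ZMod.natCast_val, ZMod.cast_id] at h2
    rw [← h2, Int.cast_natCast]
  have h3 : ((b : ℤ) : ZMod (sM i)) = (((cv (β i) ((ω i).val : ℤ)).2 : ℤ) : ZMod (sM i)) := by
    have h2 := (ZMod.natCast_eq_natCast_iff _ _ _).2 (hb i hi)
    rw [ZMod.natCast_val, ZMod.cast_id] at h2
    rw [← h2, Int.cast_natCast]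
  show ((chi (β i) ((a : ℤ), (b : ℤ)) : ℤ) : ZMod (sM i)) = ω i
  have h4 := chi_congr (M := sM i) (β i) (x := ((a : ℤ), (b : ℤ))) (y := cv (β i) ((ω i).val : ℤ)) h1 h3
  rw [h4, chi_cv, Int.cast_natCast, ZMod.natCast_val, ZMod.cast_id]

lemma dense_sh (β : ℕ → Fin 4) : Dense (Set.range (sh β)) := by
  rw [dense_iff_inter_open]
  rintro V hV ⟨ω, hω⟩
  obtain ⟨I, u, h1, h2⟩ := isOpen_pi_iff.1 hV ω hω
  obtain ⟨x, hx⟩ := exists_shift β ω I
  refine ⟨sh β x, h2 fun i hi => ?_, x, rfl⟩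
  rw [hx i hi]
  exact (h1 i hi).2

/-- ergodicity of the odometer -/
lemma ergodic_core (β : ℕ → Fin 4) {t : Set Om} (ht : MeasurableSet t)
    (h : ∀ x : ℤ × ℤ, (fun ω => sh β x + ω) ⁻¹' t =ᵐ[hm] t) :
    EventuallyConst t (ae hm) := by
  refine aeconst_of_dense_setOfPred_preimage_vadd_ae (M := Om) ht.nullMeasurableSet ?_
  refine (dense_sh β).mono ?_
  rintro _ ⟨x, rfl⟩
  exact h x

end dense

end Pool.Agent.H286.MR
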