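import Mathlib
import Pool.Agent.H286.MR.Omega

/-! The measure `μ₀` invariant under the lattice in the acting group, and the measure `μ` -/

set_option autoImplicit false

namespace Pool.Agent.H286.MR

open MeasureTheory Filter Topology Matrix
open scoped ENNReal
open Pool.Agent.TH225.OC (G Gam X)

section topology

lemma isEmbedding_sl : IsEmbedding (Subtype.val : G → Mt) :=
  Topology.IsEmbedding.subtypeVal

lemma isClosedEmbedding_sl : IsClosedEmbedding (Subtype.val : G → Mt) := by
  refine ⟨isEmbedding_sl, ?_⟩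
  have h1 : Set.range (Subtype.val : G → Mt) = {A | A.det = 1} := by
    ext A
    exact ⟨fun ⟨g, hg⟩ => hg ▸ g.2, fun h => ⟨⟨A, h⟩, rfl⟩⟩
  rw [h1]
  exact isClosed_eq continuous_id.matrix_det continuous_const

instance instMetrG : TopologicalSpace.MetrizableSpace G := by
  have : TopologicalSpace.MetrizableSpace Mt :=
    inferInstanceAs (TopologicalSpace.MetrizableSpace (Fin 4 → Fin 4 → ℝ))
  exact isEmbedding_sl.metrizableSpace

instance instSecG : SecondCountableTopology G := by
  have : SecondCountableTopology Mt :=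
    inferInstanceAs (SecondCountableTopology (Fin 4 → Fin 4 → ℝ))
  exact isEmbedding_sl.secondCountableTopology

instance instSigG : SigmaCompactSpace G := by
  have : SigmaCompactSpace Mt :=
    inferInstanceAs (SigmaCompactSpace (Fin 4 → Fin 4 → ℝ))
  exact isClosedEmbedding_sl.sigmaCompactSpace

end topology

instance instT2X : T2Space X := by
  have ho : IsOpenQuotientMap (QuotientGroup.mk : G → X) := QuotientGroup.isOpenQuotientMap_mk
  rw [t2Space_iff_of_isOpenQuotientMap ho]
  have h1 : {q : G × G | (QuotientGroup.mk q.1 : X) = QuotientGroup.mk q.2} =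
      (fun q : G × G => q.1⁻¹ * q.2) ⁻¹' (Gam : Set G) := by
    ext q
    exact QuotientGroup.eq
  rw [h1]
  exact Gam_closed.preimage (continuous_fst.inv.mul continuous_snd)

/-- the Borel structure on `G` -/
noncomputable local instance instMeasG : MeasurableSpace G := borel G

local instance instBorelG : BorelSpace G := ⟨rfl⟩

lemma measurable_mk : Measurable (QuotientGroup.mk : G → X) :=
  (QuotientGroup.isOpenQuotientMap_mk.continuous).measurable

lemma measurable_smul' (g : G) : Measurable fun x : X => g • x :=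
  (continuous_const_smul g).measurable

/-- the image of a closed set is measurable -/
lemma measurableSet_image_mk {F : Set G} (hF : IsClosed F) :
    MeasurableSet ((QuotientGroup.mk : G → X) '' F) := by
  have h1 : IsSigmaCompact F := (isSigmaCompact_univ (X := G)).of_isClosed_subset hF (Set.subset_univ _)
  obtain ⟨C, hC, h2⟩ := h1
  rw [← h2, Set.image_iUnion]
  exact MeasurableSet.iUnion fun n =>
    ((hC n).image QuotientGroup.isOpenQuotientMap_mk.continuous).isClosed.measurableSet

/-- the finite products depend on finitely many coordinates -/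
lemma locConst_pr (β : ℕ → Fin 4) (m : ℕ) :
    IsLocallyConstant fun ω : Om => pr β (tau (iv ω)) 0 m := by
  induction m with
  | zero =>
    simp only [pr_zero]
    exact IsLocallyConstant.const _
  | succ m ih =>
    simp only [pr_succ]
    have h1 : IsLocallyConstant fun ω : Om => ω m :=
      (IsLocallyConstant.iff_continuous _).2 (continuous_apply m)
    have h2 := h1.comp₂ ih (fun a g => tr (β (0 + m)) (ta m ((a.val : ℕ) : ℤ)) (tb m ((a.val : ℕ) : ℤ)) * g)
    convert h2 using 3
    rw [zero_add]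
    rfl

lemma continuous_pr (β : ℕ → Fin 4) (m : ℕ) :
    Continuous fun ω : Om => pr β (tau (iv ω)) 0 m :=
  (locConst_pr β m).continuous

lemma exists_gm (β : ℕ → Fin 4) : ∃ g : Om → G, Measurable g ∧
    ∀ᵐ ω ∂hm, Tendsto (fun m => pr β (tau (iv ω)) 0 m) atTop (𝓝 (g ω)) := by
  refine measurable_limit_of_tendsto_metrizable_ae
    (fun m => ((continuous_pr β m).measurable).aemeasurable) ?_
  refine ae_good.mono fun ω hω => ?_
  obtain ⟨k, hk⟩ := eventually_atTop.1 hω
  exact exists_limit_tau β fun j hj => hk j hj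

/-- the limit of the products -/
noncomputable def gm (β : ℕ → Fin 4) : Om → G := Classical.choose (exists_gm β)

lemma measurable_gm (β : ℕ → Fin 4) : Measurable (gm β) := (Classical.choose_spec (exists_gm β)).1

/-- convergence at a point -/
def Cv (β : ℕ → Fin 4) (ω : Om) : Prop :=
  Tendsto (fun m => pr β (tau (iv ω)) 0 m) atTop (𝓝 (gm β ω))

lemma ae_Cv (β : ℕ → Fin 4) : ∀ᵐ ω ∂hm, Cv β ω := (Classical.choose_spec (exists_gm β)).2

lemma ae_Cv_add (β : ℕ → Fin 4) (v : Om) : ∀ᵐ ω ∂hm, Cv β (v + ω) :=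
  (quasiMeasurePreserving_add_left hm v).ae (ae_Cv β)

/-- the factor map -/
noncomputable def Ph (β : ℕ → Fin 4) (ω : Om) : X := QuotientGroup.mk (gm β ω * P0)

lemma measurable_Ph (β : ℕ → Fin 4) : Measurable (Ph β) :=
  measurable_mk.comp ((measurable_mul_const P0).comp (measurable_gm β))

lemma iv_cast (ω : Om) (j : ℕ) : ((iv ω j : ℤ) : ZMod (sM j)) = ω j := by
  unfold iv
  rw [Int.cast_natCast, ZMod.natCast_val, ZMod.cast_id]

/-- equivariance -/
lemma Ph_equiv (β : ℕ → Fin 4) (x : ℤ × ℤ) :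
    ∀ᵐ ω ∂hm, aq x • Ph β ω = Ph β (sh β x + ω) := by
  filter_upwards [ae_Cv β, ae_Cv_add β (sh β x)] with ω h1 h2
  refine smul_mk_of_lim β x (fun j => ?_) h1 h2
  rw [Int.cast_add, iv_cast, iv_cast]
  show ω j + _ = _ + ω j
  rw [add_comm]
  rfl

/-- the lattice invariant measure -/
noncomputable def mu0 (β : ℕ → Fin 4) : Measure X := hm.map (Ph β)

instance (β : ℕ → Fin 4) : IsProbabilityMeasure (mu0 β) :=
  Measure.isProbabilityMeasure_map (measurable_Ph β).aemeasurable

lemma mu0_apply (β : ℕ → Fin 4) {s : Set X} (hs : MeasurableSet s) :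
    mu0 β s = hm (Ph β ⁻¹' s) := Measure.map_apply (measurable_Ph β) hs

/-! ### The suspension -/

/-- the parametrization of the acting group -/
noncomputable def bg (v : ℝ × ℝ) : G := ag (v.1 * el) (v.2 * el)

lemma bg_add (v w : ℝ × ℝ) : bg (v + w) = bg v * bg w := by
  unfold bg
  rw [ag_mul, Prod.fst_add, Prod.snd_add, add_mul, add_mul]

lemma bg_zero : bg 0 = 1 := by
  unfold bg
  rw [Prod.fst_zero, Prod.snd_zero, zero_mul, ag_zero]

lemma bg_int (x : ℤ × ℤ) : bg ((x.1 : ℝ), (x.2 : ℝ)) = aq x := rfl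

lemma bg_continuous : Continuous bg := by
  unfold bg
  exact ag_continuous.comp (by fun_prop : Continuous fun v : ℝ × ℝ => (v.1 * el, v.2 * el))

lemma mem_A_iff_bg {g : G} : g ∈ A ↔ ∃ v, g = bg v := by
  constructor
  · rintro ⟨u, v, rfl⟩
    refine ⟨(u / el, v / el), ?_⟩
    unfold bg
    rw [div_mul_cancel₀ _ el_pos.ne', div_mul_cancel₀ _ el_pos.ne']
  · rintro ⟨v, rfl⟩
    exact ⟨_, _, rfl⟩

/-- the suspended factor map -/
noncomputable def Fh (β : ℕ → Fin 4) (p : (ℝ × ℝ) × Om) : X := bg p.1 • Ph β p.2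

lemma Fh_eq (β : ℕ → Fin 4) (p : (ℝ × ℝ) × Om) :
    Fh β p = QuotientGroup.mk (bg p.1 * (gm β p.2 * P0)) := rfl

lemma measurable_Fh (β : ℕ → Fin 4) : Measurable (Fh β) := by
  refine measurable_mk.comp ?_
  exact (bg_continuous.measurable.comp measurable_fst).mul
    (((measurable_mul_const P0).comp (measurable_gm β)).comp measurable_snd)

/-- the unit square -/
def Sq : Set (ℝ × ℝ) := Set.Ioc 0 1 ×ˢ Set.Ioc 0 1

/-- the uniform measure of the unit square -/
noncomputable def vq : Measure (ℝ × ℝ) := volume.restrict Sq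

lemma measurableSet_Sq : MeasurableSet Sq := measurableSet_Ioc.prod measurableSet_Ioc

instance : IsProbabilityMeasure vq := by
  constructor
  unfold vq Sq
  rw [Measure.restrict_apply MeasurableSet.univ, Set.univ_inter, Measure.volume_eq_prod,
    Measure.prod_prod, Real.volume_Ioc]
  simp

/-- the measure -/
noncomputable def mu (β : ℕ → Fin 4) : Measure X := (vq.prod hm).map (Fh β)

instance (β : ℕ → Fin 4) : IsProbabilityMeasure (mu β) :=
  Measure.isProbabilityMeasure_map (measurable_Fh β).aemeasurable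

/-- the fibres of a set -/
noncomputable def ph (β : ℕ → Fin 4) (s : Set X) (v : ℝ × ℝ) : ℝ≥0∞ := hm {ω | Fh β (v, ω) ∈ s}

lemma measurable_ph (β : ℕ → Fin 4) {s : Set X} (hs : MeasurableSet s) : Measurable (ph β s) :=
  measurable_measure_prodMk_left (measurable_Fh β hs)

lemma mu_apply (β : ℕ → Fin 4) {s : Set X} (hs : MeasurableSet s) :
    mu β s = ∫⁻ v in Sq, ph β s v := by
  unfold mu
  rw [Measure.map_apply (measurable_Fh β) hs, Measure.prod_apply (measurable_Fh β hs)]
  rfl

lemma ph_eq (β : ℕ → Fin 4) {s : Set X} (hs : MeasurableSet s) (v : ℝ × ℝ) :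
    ph β s v = mu0 β ((fun x => bg v • x) ⁻¹' s) := by
  rw [mu0_apply β (measurable_smul' _ hs)]
  rfl

/-- a criterion for null sets -/
lemma mu_null (β : ℕ → Fin 4) {s : Set X} (hs : MeasurableSet s)
    (h : ∀ v, mu0 β ((fun x => bg v • x) ⁻¹' s) = 0) : mu β s = 0 := by
  rw [mu_apply β hs]
  simp_rw [ph_eq β hs, h]
  simp

lemma Fh_add (β : ℕ → Fin 4) (t v : ℝ × ℝ) (ω : Om) : Fh β (t + v, ω) = bg t • Fh β (v, ω) := by
  unfold Fh
  show bg (t + v) • Ph β ω = _
  rw [bg_add, mul_smul]

/-- periodicity of the suspended factor map -/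
lemma Fh_int (β : ℕ → Fin 4) (v : ℝ × ℝ) (x : ℤ × ℤ) :
    ∀ᵐ ω ∂hm, Fh β (v + ((x.1 : ℝ), (x.2 : ℝ)), ω) = Fh β (v, sh β x + ω) := by
  filter_upwards [Ph_equiv β x] with ω hω
  unfold Fh
  show bg (v + ((x.1 : ℝ), (x.2 : ℝ))) • Ph β ω = bg v • Ph β (sh β x + ω)
  rw [bg_add, bg_int, mul_smul, hω]

lemma ph_int (β : ℕ → Fin 4) (s : Set X) (v : ℝ × ℝ) (x : ℤ × ℤ) :
    ph β s (v + ((x.1 : ℝ), (x.2 : ℝ))) = ph β s v := by
  unfold ph
  have h1 : {ω | Fh β (v + ((x.1 : ℝ), (x.2 : ℝ)), ω) ∈ s} =ᵐ[hm]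
      (fun ω => sh β x + ω) ⁻¹' {ω | Fh β (v, ω) ∈ s} := by
    filter_upwards [Fh_int β v x] with ω hω
    show (Fh β (v + ((x.1 : ℝ), (x.2 : ℝ)), ω) ∈ s) = (Fh β (v, sh β x + ω) ∈ s)
    rw [hω]
  rw [measure_congr h1, measure_preimage_add]

end Pool.Agent.H286.MR
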