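import Mathlib
import Pool.Graph.R_seed8.TH225.OC.ClA
import Pool.Agent.H286.MR.Defs
import Pool.Agent.H286.MR.Mu0

/-! The elements of `A` are of class-`𝒜`; `A` is of higher rank, also modulo proper normal subgroups -/

set_option autoImplicit false

namespace Pool.Agent.H286.MR

open Matrix Topology Filter
open Pool.Agent.TH225.OC (G GC Gam X QSubgroup IsClassA IsAlgebraicRep ES ES_congr ES_exp ES_const ES_mul
  ES_sum ES_poly Pos eigen_of_top Ev nm nm_continuous nm_mul_center)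
open Pool.Agent.Y319.MR (IsHigherRank IsClosedHigherRank conjBy imageMod HigherRankMod)

/-- `ag` as a homomorphism -/
noncomputable def agHom : Multiplicative (ℝ × ℝ) →* G where
  toFun x := ag (Multiplicative.toAdd x).1 (Multiplicative.toAdd x).2
  map_one' := ag_zero
  map_mul' _ _ := (ag_mul _ _ _ _).symm

lemma ag_zpow (u v : ℝ) (k : ℤ) : ag u v ^ k = ag (k * u) (k * v) := by
  have h := map_zpow agHom (Multiplicative.ofAdd (u, v)) k
  have h1 : agHom (Multiplicative.ofAdd (u, v) ^ k) = ag (k * u) (k * v) := by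
    rw [← ofAdd_zsmul]
    show ag (k • (u, v)).1 (k • (u, v)).2 = _
    simp [zsmul_eq_mul]
  rw [← h1, h]
  rfl

lemma ES_ag (s t : ℝ) (i j : Fin 4) : ES fun n => ((ag s t) ^ n).1 i j := by
  have h1 : ∀ n : ℤ, ((ag s t) ^ n).1 i j = (diagonal (dgv (n * s) (n * t)) : Mt) i j := by
    intro n
    rw [ag_zpow]
    rfl
  refine ES_congr h1 ?_
  by_cases hij : i = j
  · subst hij
    simp only [diagonal_apply_eq]
    fin_cases i
    · exact ES_exp s
    · exact ES_congr (fun n => by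
        show Real.exp (-(n * s)) = Real.exp (n * (-s))
        rw [mul_neg]) (ES_exp (-s))
    · exact ES_exp t
    · exact ES_congr (fun n => by
        show Real.exp (-(n * t)) = Real.exp (n * (-t))
        rw [mul_neg]) (ES_exp (-t))
  · refine ES_congr (fun n => ?_) (ES_const 0)
    rw [diagonal_apply, if_neg hij]

lemma orbit_ES {m : ℕ} (ρ : G →* GL (Fin m) ℝ) (hρ : IsAlgebraicRep ρ) (s t : ℝ) (v : Fin m → ℝ) :
    ∃ (Λ : Finset Pos) (u : Pos → Fin m → ℝ), ∀ (n : ℤ) (i : Fin m),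
      ((ρ ((ag s t) ^ n) : Matrix (Fin m) (Fin m) ℝ) *ᵥ v) i = ∑ x ∈ Λ, u x i * (x : ℝ) ^ n := by
  classical
  have h1 : ∀ i, ES fun n => ((ρ ((ag s t) ^ n) : Matrix (Fin m) (Fin m) ℝ) *ᵥ v) i := by
    intro i
    have h2 : ∀ j, ES fun n => (ρ ((ag s t) ^ n) : Matrix (Fin m) (Fin m) ℝ) i j := by
      intro j
      obtain ⟨p, hp⟩ := hρ i j
      refine ES_congr (fun n => hp _) ?_
      exact ES_poly p (f := fun kl n => ((ag s t) ^ n).1 kl.1 kl.2) fun kl => ES_ag s t kl.1 kl.2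
    exact ES_congr (fun n => rfl) (ES_sum Finset.univ fun j => ES_mul (h2 j) (ES_const (v j)))
  choose c hc using h1
  refine ⟨Finset.univ.biUnion fun i => (c i).coeff.support, fun x i => (c i).coeff x, fun n i => ?_⟩
  have hci := hc i n
  beta_reduce at hci
  rw [hci]
  unfold Ev
  rw [MonoidAlgebra.lift_apply]
  rw [Finsupp.sum_of_support_subset (s := Finset.univ.biUnion fun i => (c i).coeff.support)]
  · rfl
  · exact Finset.subset_biUnion_of_mem (fun i => (c i).coeff.support) (Finset.mem_univ i)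
  · intro x _
    simp

lemma limit_pos {m : ℕ} (ρ : G →* GL (Fin m) ℝ) (hρ : IsAlgebraicRep ρ) (s t : ℝ)
    (v w : Fin m → ℝ) (hv : v ≠ 0) (𝒰 : Filter ℕ) [𝒰.NeBot] (n : ℕ → ℤ) (hn : Tendsto n 𝒰 atTop)
    (c : ℕ → ℝ)
    (hw : Tendsto (fun k => c k • ((ρ ((ag s t) ^ n k) : Matrix (Fin m) (Fin m) ℝ) *ᵥ v)) 𝒰 (𝓝 w)) :
    ∃ r : ℝ, 0 < r ∧ (ρ (ag s t) : Matrix (Fin m) (Fin m) ℝ) *ᵥ w = r • w := by
  obtain ⟨Λ, u, hu⟩ := orbit_ES ρ hρ s t v
  refine eigen_of_top (fun n => (ρ ((ag s t) ^ n) : Matrix (Fin m) (Fin m) ℝ) *ᵥ v) Λ u hu ?_ _ ?_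
    𝒰 n hn c w hw
  · simpa using hv
  · intro n
    show (ρ (ag s t) : Matrix (Fin m) (Fin m) ℝ) *ᵥ ((ρ ((ag s t) ^ n) : Matrix (Fin m) (Fin m) ℝ) *ᵥ v) =
      (ρ ((ag s t) ^ (n + 1)) : Matrix (Fin m) (Fin m) ℝ) *ᵥ v
    rw [Matrix.mulVec_mulVec, add_comm n 1, _root_.zpow_one_add, map_mul]
    rfl

lemma ag_diagonalizable (s t : ℝ) : ∃ (P : GL (Fin 4) ℝ) (d : Fin 4 → ℝ),
    (ag s t : Matrix (Fin 4) (Fin 4) ℝ) = (P : Matrix (Fin 4) (Fin 4) ℝ) * Matrix.diagonal d *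
      ((P⁻¹ : GL (Fin 4) ℝ) : Matrix (Fin 4) (Fin 4) ℝ) := by
  refine ⟨1, dgv s t, ?_⟩
  rw [inv_one]
  show (ag s t : Mt) = 1 * diagonal (dgv s t) * 1
  rw [Matrix.one_mul, Matrix.mul_one]
  rfl

lemma bdd_of_nn {s t R : ℝ} (h : nn (ag s t : Mt) ≤ R) : |s| ≤ Real.log (R + 1) ∧ |t| ≤ Real.log (R + 1) := by
  have hR : 0 ≤ R := (nn_nonneg _).trans h
  have h1 : ∀ i, dgv s t i ≤ R := by
    intro i
    have h2 := (entry_le (ag s t : Mt) i i).trans h
    rw [ag_coe, diagonal_apply_eq, abs_of_pos (dgv_pos s t i)] at h2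
    exact h2
  have le_L : ∀ x : ℝ, Real.exp x ≤ R → x ≤ Real.log (R + 1) := fun x hx =>
    (Real.le_log_iff_exp_le (by linarith)).2 (by linarith)
  have e0 : s ≤ Real.log (R + 1) := le_L _ (h1 0)
  have e1 : -s ≤ Real.log (R + 1) := le_L _ (h1 1)
  have e2 : t ≤ Real.log (R + 1) := le_L _ (h1 2)
  have e3 : -t ≤ Real.log (R + 1) := le_L _ (h1 3)
  constructor <;> rw [abs_le] <;> constructor <;> linarith

lemma continuous_nnG : Continuous fun g : G => nn (g : Mt) := continuous_nn.comp continuous_subtype_val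

lemma ag_unbounded {s t : ℝ} (h : ag s t ≠ 1) : ¬ ∃ K : Set G, IsCompact K ∧ ∀ n : ℤ, (ag s t) ^ n ∈ K := by
  rintro ⟨K, hK, hn⟩
  obtain ⟨R, hR⟩ := (hK.image continuous_nnG).isBounded.subset_closedBall 0
  have h1 : ∀ n : ℕ, |(n : ℝ) * s| ≤ Real.log (R + 1) ∧ |(n : ℝ) * t| ≤ Real.log (R + 1) := by
    intro n
    have h2 := hR ⟨_, hn n, rfl⟩
    rw [mem_closedBall_zero_iff, Real.norm_of_nonneg (nn_nonneg _), ag_zpow] at h2
    have h3 := bdd_of_nn h2
    simpa using h3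
  have key : ∀ x : ℝ, (∀ n : ℕ, |(n : ℝ) * x| ≤ Real.log (R + 1)) → x = 0 := by
    intro x hx
    by_contra hx0
    obtain ⟨n, hn⟩ := exists_nat_gt (Real.log (R + 1) / |x|)
    have h4 := hx n
    rw [abs_mul, Nat.abs_cast] at h4
    rw [div_lt_iff₀ (abs_pos.2 hx0)] at hn
    linarith
  apply h
  rw [key s fun n => (h1 n).1, key t fun n => (h1 n).2]
  exact ag_zero

lemma limit_fixed (s t : ℝ) (m : ℕ) (ρ : G →* GL (Fin m) ℝ) (hρ : IsAlgebraicRep ρ)
    (v w : Fin m → ℝ) (n : ℕ → ℤ) (c : ℕ → ℝ) (hv : v ≠ 0) (hn : Tendsto n atTop cofinite)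
    (hw : Tendsto (fun k => c k • ((ρ ((ag s t) ^ n k) : Matrix (Fin m) (Fin m) ℝ) *ᵥ v)) atTop (𝓝 w)) :
    ∃ r : ℝ, (ρ (ag s t) : Matrix (Fin m) (Fin m) ℝ) *ᵥ w = r • w := by
  let 𝒰 : Ultrafilter ℕ := Ultrafilter.of atTop
  have hle : (𝒰 : Filter ℕ) ≤ atTop := Ultrafilter.of_le _
  have h1 : Tendsto n 𝒰 (atBot ⊔ atTop) := by
    rw [← Int.cofinite_eq]
    exact hn.mono_left hle
  have h2 : (𝒰.map n : Filter ℤ) ≤ atBot ⊔ atTop := h1
  rcases Ultrafilter.le_sup_iff.1 h2 with hb | ht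
  · -- the case of `-∞`
    have h3 : Tendsto (fun k => -n k) (𝒰 : Filter ℕ) atTop := tendsto_neg_atBot_atTop.comp hb
    have h4 : ∀ k, (ag (-s) (-t)) ^ (-n k) = (ag s t) ^ (n k) := by
      intro k
      rw [ag_zpow, ag_zpow]
      congr 1 <;> (push_cast; ring)
    have h5 : Tendsto (fun k => c k • ((ρ ((ag (-s) (-t)) ^ (-n k)) : Matrix (Fin m) (Fin m) ℝ) *ᵥ v))
        (𝒰 : Filter ℕ) (𝓝 w) := by
      simp_rw [h4]
      exact hw.mono_left hle
    obtain ⟨r, hr, h6⟩ := limit_pos ρ hρ (-s) (-t) v w hv 𝒰 (fun k => -n k) h3 c h5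
    refine ⟨r⁻¹, ?_⟩
    have h7 : (ρ (ag s t) : Matrix (Fin m) (Fin m) ℝ) *ᵥ ((ρ (ag (-s) (-t)) : Matrix (Fin m) (Fin m) ℝ) *ᵥ w) = w := by
      rw [Matrix.mulVec_mulVec]
      have : (ρ (ag s t) : Matrix (Fin m) (Fin m) ℝ) * (ρ (ag (-s) (-t)) : Matrix (Fin m) (Fin m) ℝ) = 1 := by
        have h8 : ρ (ag s t) * ρ (ag (-s) (-t)) = 1 := by
          rw [← map_mul, ← ag_inv, mul_inv_cancel, map_one]
        exact congrArg Units.val h8
      rw [this, Matrix.one_mulVec]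
    rw [h6, Matrix.mulVec_smul] at h7
    have h9 : r⁻¹ • (r • ((ρ (ag s t) : Matrix (Fin m) (Fin m) ℝ) *ᵥ w)) = r⁻¹ • w := congrArg _ h7
    rw [smul_smul, inv_mul_cancel₀ hr.ne', one_smul] at h9
    exact h9
  · obtain ⟨r, hr, h6⟩ := limit_pos ρ hρ s t v w hv 𝒰 n ht c (hw.mono_left hle)
    exact ⟨r, h6⟩

/-- the nontrivial elements of `A` are of class-`𝒜` -/
theorem classA {a : G} (ha : a ∈ A) (ha1 : a ≠ 1) : IsClassA a := by
  obtain ⟨s, t, rfl⟩ := ha
  exact ⟨ag_diagonalizable s t, ag_unbounded ha1,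
    fun m ρ hρ v w n c hv _ hn hw => limit_fixed s t m ρ hρ v w n c hv hn hw⟩

/-! ### Higher rank -/

/-- the homomorphism `ℤ² → G` -/
noncomputable def zHom : Multiplicative (ℤ × ℤ) →* G where
  toFun x := ag ((Multiplicative.toAdd x).1 : ℝ) ((Multiplicative.toAdd x).2 : ℝ)
  map_one' := by
    show ag ((0:ℤ):ℝ) ((0:ℤ):ℝ) = 1
    rw [Int.cast_zero]; exact ag_zero
  map_mul' x y := by
    show ag (((Multiplicative.toAdd x).1 + (Multiplicative.toAdd y).1 : ℤ) : ℝ)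
      (((Multiplicative.toAdd x).2 + (Multiplicative.toAdd y).2 : ℤ) : ℝ) = _
    rw [Int.cast_add, Int.cast_add, ← ag_mul]

lemma zHom_mem (x : Multiplicative (ℤ × ℤ)) : zHom x ∈ A := ⟨_, _, rfl⟩

lemma finite_of_bdd {B : ℝ} {S : Set (Multiplicative (ℤ × ℤ))}
    (h : ∀ x ∈ S, |((Multiplicative.toAdd x).1 : ℝ)| ≤ B ∧ |((Multiplicative.toAdd x).2 : ℝ)| ≤ B) :
    S.Finite := by
  have h1 : S ⊆ Multiplicative.toAdd ⁻¹' (Set.Icc (-⌈B⌉, -⌈B⌉) (⌈B⌉, ⌈B⌉)) := by
    intro x hx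
    obtain ⟨h1, h2⟩ := h x hx
    rw [abs_le] at h1 h2
    have hc := Int.le_ceil B
    refine ⟨⟨?_, ?_⟩, ⟨?_, ?_⟩⟩
    · show -⌈B⌉ ≤ (Multiplicative.toAdd x).1
      have : (-(⌈B⌉:ℝ)) ≤ ((Multiplicative.toAdd x).1 : ℝ) := by linarith
      exact_mod_cast this
    · show -⌈B⌉ ≤ (Multiplicative.toAdd x).2
      have : (-(⌈B⌉:ℝ)) ≤ ((Multiplicative.toAdd x).2 : ℝ) := by linarith
      exact_mod_cast this
    · show (Multiplicative.toAdd x).1 ≤ ⌈B⌉
      have : ((Multiplicative.toAdd x).1 : ℝ) ≤ (⌈B⌉:ℝ) := by linarith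
      exact_mod_cast this
    · show (Multiplicative.toAdd x).2 ≤ ⌈B⌉
      have : ((Multiplicative.toAdd x).2 : ℝ) ≤ (⌈B⌉:ℝ) := by linarith
      exact_mod_cast this
  exact ((Set.finite_Icc _ _).preimage (Multiplicative.toAdd.injective.injOn)).subset h1

lemma finite_of_nn (R : ℝ) : {x : Multiplicative (ℤ × ℤ) | nn (zHom x : Mt) ≤ R}.Finite :=
  finite_of_bdd (B := Real.log (R + 1)) fun _ hx => bdd_of_nn hx

/-- the acting group is of higher rank -/
theorem A_higherRank : IsHigherRank A := by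
  refine ⟨zHom.codRestrict A zHom_mem, fun C hC => ?_⟩
  obtain ⟨R, hR⟩ := (hC.image (continuous_nnG.comp continuous_subtype_val)).isBounded.subset_closedBall 0
  refine (finite_of_nn R).subset fun x hx => ?_
  have h2 := hR ⟨_, hx, rfl⟩
  rw [mem_closedBall_zero_iff] at h2
  exact (le_abs_self _).trans h2

lemma nn_le_nm (g : G) : nn (g : Mt) ≤ 4 * nm g := by
  refine nn_le_of_entries fun i j => ?_
  unfold nm
  have h1 : |g.1 i j| ≤ ∑ j, |g.1 i j| :=
    Finset.single_le_sum (f := fun j => |g.1 i j|) (fun _ _ => abs_nonneg _) (Finset.mem_univ j)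
  have h2 : ∑ j, |g.1 i j| ≤ ∑ i, ∑ j, |g.1 i j| :=
    Finset.single_le_sum (f := fun i => ∑ j, |g.1 i j|)
      (fun _ _ => Finset.sum_nonneg fun _ _ => abs_nonneg _) (Finset.mem_univ i)
  exact h1.trans h2

/-- higher rank modulo proper normal subgroups -/
theorem image_higherRank {L H : QSubgroup} (hH : IsNormalIn H L) (hL : L.grp = ⊤)
    (hne : H.grp ≠ L.grp) (g : G) : HigherRankImage (conjBy g A) hH := by
  have hHR : H.real ≠ ⊤ := by
    intro h
    apply hne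
    rw [hL]
    exact Pool.Agent.TH225.OC.grp_top_of_real_top H h
  have hHn : H.grp.Normal := ⟨fun n hn x => hH.conj_mem x (by rw [hL]; trivial) n hn⟩
  have hnorm : H.real.Normal := by
    unfold QSubgroup.real
    infer_instance
  have hcen : H.real ≤ Subgroup.center G := by
    rcases Pool.Agent.Helper813.sl_normal H.real hnorm with h | h
    · exact absurd h hHR
    · exact h
  have hLtop : ∀ x : G, x ∈ L.real := by
    intro x
    show Matrix.SpecialLinearGroup.map (algebraMap ℝ ℂ) x ∈ L.grp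
    rw [hL]
    trivial
  have _ := hH.normal
  unfold HigherRankImage HigherRankMod
  -- the homomorphism from `ℤ²`
  let ψ : Multiplicative (ℤ × ℤ) →* L.real :=
    ((MulAut.conj g).toMonoidHom.comp zHom).codRestrict L.real (fun x => hLtop _)
  let φ0 : Multiplicative (ℤ × ℤ) →* (L.real ⧸ H.real.subgroupOf L.real) :=
    (QuotientGroup.mk' (H.real.subgroupOf L.real)).comp ψ
  have hφ0 : ∀ x, φ0 x ∈ imageMod (conjBy g A) L.real H.real := by
    intro x
    refine ⟨ψ x, ?_, rfl⟩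
    exact ⟨zHom x, zHom_mem x, rfl⟩
  -- the norm descends to the quotient
  let F : L.real ⧸ H.real.subgroupOf L.real → ℝ := Quotient.lift (fun y : L.real => nm (g⁻¹ * (y : G) * g)) (by
    intro a b hab
    have h1 : a⁻¹ * b ∈ H.real.subgroupOf L.real := QuotientGroup.leftRel_apply.1 hab
    have h2 : (a : G)⁻¹ * (b : G) ∈ Subgroup.center G := hcen h1
    have h3 := nm_mul_center (g := g⁻¹ * (a : G) * g) h2
    have h4 : g⁻¹ * (a : G) * g * ((a : G)⁻¹ * (b : G)) = g⁻¹ * (b : G) * g := by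
      rw [mul_assoc, (Subgroup.mem_center_iff.1 h2 g)]
      group
    rw [h4] at h3
    exact h3.symm)
  have hF : Continuous F := by
    refine Continuous.quotient_lift ?_ _
    exact nm_continuous.comp ((continuous_const.mul continuous_subtype_val).mul continuous_const)
  have hFmk : ∀ x, F (φ0 x) = nm (zHom x) := by
    intro x
    show nm (g⁻¹ * (g * zHom x * g⁻¹) * g) = nm (zHom x)
    congr 1
    group
  refine ⟨φ0.codRestrict _ hφ0, fun C hC => ?_⟩
  have hC' : IsCompact ((fun y : imageMod (conjBy g A) L.real H.real => F y.1) '' C) :=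
    hC.image (hF.comp continuous_subtype_val)
  obtain ⟨R, hR⟩ := hC'.isBounded.subset_closedBall 0
  refine (finite_of_nn (4 * R)).subset fun x hx => ?_
  have h1 := hR ⟨_, hx, rfl⟩
  rw [mem_closedBall_zero_iff, Real.norm_eq_abs] at h1
  have h2 : F (φ0 x) ≤ R := le_trans (le_abs_self _) h1
  rw [hFmk] at h2
  exact (nn_le_nm _).trans (by linarith)

/-- the acting group is connected -/
theorem A_connected : IsConnected (A : Set G) := by
  have h1 : (A : Set G) = Set.range fun p : ℝ × ℝ => ag p.1 p.2 := by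
    ext g
    constructor
    · rintro ⟨u, v, rfl⟩
      exact ⟨(u, v), rfl⟩
    · rintro ⟨p, rfl⟩
      exact ⟨_, _, rfl⟩
  rw [h1]
  exact isConnected_range ag_continuous

end Pool.Agent.H286.MR
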