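import Mathlib
import Pool.Agent.H286.MR.Mu0

/-! Invariance and ergodicity of the suspended measure -/

set_option autoImplicit false

namespace Pool.Agent.H286.MR

open MeasureTheory Filter Topology Matrix
open scoped ENNReal
open Pool.Agent.TH225.OC (G Gam X)

/-- translation of a periodic function on the line -/
lemma lintegral_periodic {f : ℝ → ℝ≥0∞} (hf : Measurable f) (hp : ∀ (x : ℝ) (n : ℤ), f (x + n) = f x)
    (t : ℝ) : ∫⁻ x in Set.Ioc (0 : ℝ) 1, f (x + t) = ∫⁻ x in Set.Ioc (0 : ℝ) 1, f x := by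
  have h1 : ∫⁻ x in Set.Ioc (0 : ℝ) 1, f (x + t) = ∫⁻ x in Set.Ioc t (t + 1), f x := by
    have hmp : MeasurePreserving (fun x : ℝ => x + t) volume volume := measurePreserving_add_right volume t
    have h2 := hmp.setLIntegral_comp_preimage (s := Set.Ioc t (t + 1)) measurableSet_Ioc hf
    rw [← h2]
    congr 2
    ext x
    simp only [Set.mem_preimage, Set.mem_Ioc]
    constructor
    · rintro ⟨h3, h4⟩; constructor <;> linarith
    · rintro ⟨h3, h4⟩; constructor <;> linarith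
  rw [h1]
  have f1 := isAddFundamentalDomain_Ioc (zero_lt_one : (0 : ℝ) < 1) t volume
  have f2 := isAddFundamentalDomain_Ioc (zero_lt_one : (0 : ℝ) < 1) 0 volume
  rw [zero_add] at f2
  refine f1.setLIntegral_eq f2 f ?_
  rintro ⟨g, hg⟩ x
  obtain ⟨n, hn⟩ := AddSubgroup.mem_zmultiples_iff.1 hg
  show f (g + x) = f x
  rw [← hn, add_comm, zsmul_eq_mul, mul_one, hp]

/-- translation of a periodic function on the plane -/
lemma lintegral_periodic2 {f : ℝ × ℝ → ℝ≥0∞} (hf : Measurable f)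
    (hp : ∀ (v : ℝ × ℝ) (x : ℤ × ℤ), f (v + ((x.1 : ℝ), (x.2 : ℝ))) = f v) (t : ℝ × ℝ) :
    ∫⁻ v in Sq, f (v + t) = ∫⁻ v in Sq, f v := by
  have key : ∀ g : ℝ × ℝ → ℝ≥0∞, Measurable g →
      ∫⁻ v in Sq, g v = ∫⁻ x in Set.Ioc (0 : ℝ) 1, ∫⁻ y in Set.Ioc (0 : ℝ) 1, g (x, y) := by
    intro g hg
    unfold Sq
    rw [Measure.volume_eq_prod, ← Measure.prod_restrict, lintegral_prod _ hg.aemeasurable]
  have hft : Measurable fun v => f (v + t) := hf.comp (measurable_add_const t)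
  rw [key _ hft, key _ hf]
  have h1 : ∀ x : ℝ, ∫⁻ y in Set.Ioc (0 : ℝ) 1, f ((x, y) + t) =
      ∫⁻ y in Set.Ioc (0 : ℝ) 1, f (x + t.1, y) := by
    intro x
    have h2 := lintegral_periodic (f := fun y => f (x + t.1, y))
      (hf.comp (measurable_const.prodMk measurable_id)) (fun y n => ?_) t.2
    · exact h2
    · have h3 := hp (x + t.1, y) (0, n)
      simp only [Prod.mk_add_mk, Int.cast_zero, add_zero] at h3
      exact h3
  simp_rw [h1]
  have hm2 : Measurable fun x => ∫⁻ y in Set.Ioc (0 : ℝ) 1, f (x, y) := hf.lintegral_prod_right'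
  exact lintegral_periodic hm2 (fun x n => by
    refine lintegral_congr fun y => ?_
    have h3 := hp (x, y) (n, 0)
    simp only [Prod.mk_add_mk, Int.cast_zero, add_zero] at h3
    exact h3) t.1

/-- invariance -/
lemma mu_invariant (β : ℕ → Fin 4) (t : ℝ × ℝ) {s : Set X} (hs : MeasurableSet s) :
    mu β ((fun x => bg t • x) ⁻¹' s) = mu β s := by
  rw [mu_apply β (measurable_smul' _ hs), mu_apply β hs]
  have h1 : ∀ v, ph β ((fun x => bg t • x) ⁻¹' s) v = ph β s (v + t) := by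
    intro v
    unfold ph
    congr 1
    ext ω
    show bg t • Fh β (v, ω) ∈ s ↔ Fh β (v + t, ω) ∈ s
    rw [add_comm v t, Fh_add]
  simp_rw [h1]
  exact lintegral_periodic2 (measurable_ph β hs) (ph_int β s) t

/-- ergodicity -/
lemma mu_ergodic (β : ℕ → Fin 4) {s : Set X} (hs : MeasurableSet s)
    (h : ∀ t : ℝ × ℝ, (fun x => bg t • x) ⁻¹' s =ᵐ[mu β] s) :
    EventuallyConst s (ae (mu β)) := by
  -- the sections of the preimage
  set E : ℝ × ℝ → Set Om := fun v => {ω | Fh β (v, ω) ∈ s} with hE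
  have hEm : ∀ v, MeasurableSet (E v) := fun v =>
    ((measurable_Fh β).comp (measurable_const.prodMk measurable_id)) hs
  have h1 : ∀ t : ℝ × ℝ, ∀ᵐ v ∂vq, ∀ᵐ ω ∂hm, (Fh β (t + v, ω) ∈ s ↔ Fh β (v, ω) ∈ s) := by
    intro t
    have h2 : ∀ᵐ x ∂(mu β), (bg t • x ∈ s ↔ x ∈ s) := by
      filter_upwards [h t] with x hx
      exact Iff.of_eq hx
    have h3 : ∀ᵐ p ∂(vq.prod hm), (bg t • Fh β p ∈ s ↔ Fh β p ∈ s) :=
      ae_of_ae_map (measurable_Fh β).aemeasurable h2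
    have h4 := Measure.ae_ae_of_ae_prod h3
    filter_upwards [h4] with v hv
    filter_upwards [hv] with ω hω
    rw [Fh_add]
    exact hω
  have hmeas : MeasurableSet {p : (ℝ × ℝ) × (ℝ × ℝ) |
      ∀ᵐ ω ∂hm, (Fh β (p.1 + p.2, ω) ∈ s ↔ Fh β (p.2, ω) ∈ s)} := by
    have h2 : MeasurableSet {q : ((ℝ × ℝ) × (ℝ × ℝ)) × Om |
        ¬ (Fh β (q.1.1 + q.1.2, q.2) ∈ s ↔ Fh β (q.1.2, q.2) ∈ s)} := by
      have m1 : MeasurableSet {q : ((ℝ × ℝ) × (ℝ × ℝ)) × Om | Fh β (q.1.1 + q.1.2, q.2) ∈ s} :=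
        ((measurable_Fh β).comp (((measurable_fst.comp measurable_fst).add
          (measurable_snd.comp measurable_fst)).prodMk measurable_snd)) hs
      have m2 : MeasurableSet {q : ((ℝ × ℝ) × (ℝ × ℝ)) × Om | Fh β (q.1.2, q.2) ∈ s} :=
        ((measurable_Fh β).comp ((measurable_snd.comp measurable_fst).prodMk measurable_snd)) hs
      have e : {q : ((ℝ × ℝ) × (ℝ × ℝ)) × Om |
          ¬ (Fh β (q.1.1 + q.1.2, q.2) ∈ s ↔ Fh β (q.1.2, q.2) ∈ s)} =
          symmDiff {q : ((ℝ × ℝ) × (ℝ × ℝ)) × Om | Fh β (q.1.1 + q.1.2, q.2) ∈ s}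
            {q : ((ℝ × ℝ) × (ℝ × ℝ)) × Om | Fh β (q.1.2, q.2) ∈ s} := by
        ext q
        simp only [Set.mem_symmDiff, Set.mem_ofPred_eq]
        tauto
      rw [e]
      exact m1.symmDiff m2
    have h3 := measurable_measure_prodMk_left (ν := hm) h2
    exact h3 (measurableSet_singleton 0)
  have h2 : ∀ᵐ v ∂vq, ∀ᵐ t ∂(volume : Measure (ℝ × ℝ)),
      ∀ᵐ ω ∂hm, (Fh β (t + v, ω) ∈ s ↔ Fh β (v, ω) ∈ s) := by
    rw [← Measure.ae_ae_comm hmeas]
    exact Eventually.of_forall h1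
  obtain ⟨v0, hv0⟩ := h2.exists
  have h3 : ∀ᵐ w ∂(volume : Measure (ℝ × ℝ)), ∀ᵐ ω ∂hm, (Fh β (w, ω) ∈ s ↔ Fh β (v0, ω) ∈ s) := by
    have h4 := (measurePreserving_sub_right (volume : Measure (ℝ × ℝ)) v0).quasiMeasurePreserving.ae hv0
    filter_upwards [h4] with w hw
    rw [sub_add_cancel] at hw
    exact hw
  -- the section at `v0` is invariant
  have h5 : EventuallyConst (E v0) (ae hm) := by
    refine ergodic_core β (hEm v0) fun x => ?_
    have h6 := (measurePreserving_add_right (volume : Measure (ℝ × ℝ))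
      ((x.1 : ℝ), (x.2 : ℝ))).quasiMeasurePreserving.ae h3
    obtain ⟨w, hw1, hw2⟩ := (h3.and h6).exists
    have h7 : (fun ω => sh β x + ω) ⁻¹' (E v0) =ᵐ[hm] (fun ω => sh β x + ω) ⁻¹' (E w) := by
      have h8 : E v0 =ᵐ[hm] E w := by
        filter_upwards [hw1] with ω hω
        exact propext hω.symm
      exact (quasiMeasurePreserving_add_left hm (sh β x)).preimage_ae_eq h8
    refine h7.trans ?_
    filter_upwards [Fh_int β w x, hw2] with ω h9 h10
    show (Fh β (w, sh β x + ω) ∈ s) = (Fh β (v0, ω) ∈ s)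
    rw [← h9]
    exact propext h10
  rw [eventuallyConst_set] at h5 ⊢
  have h6 : ∀ᵐ v ∂vq, ∀ᵐ ω ∂hm, (Fh β (v, ω) ∈ s ↔ Fh β (v0, ω) ∈ s) :=
    ae_restrict_of_ae h3
  have h7 : ∀ (T : Set X), MeasurableSet T → (∀ᵐ v ∂vq, ∀ᵐ ω ∂hm, Fh β (v, ω) ∈ T) →
      ∀ᵐ x ∂(mu β), x ∈ T := by
    intro T hT h8
    refine (ae_map_iff (measurable_Fh β).aemeasurable hT).2 ?_
    exact (Measure.ae_prod_iff_ae_ae (measurable_Fh β hT)).2 h8
  rcases h5 with h5 | h5
  · left
    refine h7 s hs ?_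
    filter_upwards [h6] with v hv
    filter_upwards [hv, h5] with ω h8 h9
    exact h8.2 h9
  · right
    refine h7 sᶜ hs.compl ?_
    filter_upwards [h6] with v hv
    filter_upwards [hv, h5] with ω h8 h9
    exact fun h10 => h9 (h8.1 h10)

instance ergodic_mu (β : ℕ → Fin 4) : ErgodicSMul A X (mu β) where
  measure_preimage_smul := by
    rintro ⟨g, hg⟩ s hs
    obtain ⟨v, rfl⟩ := mem_A_iff_bg.1 hg
    exact mu_invariant β v hs
  aeconst_of_forall_preimage_smul_ae_eq := by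
    intro s hs h
    refine mu_ergodic β hs fun t => ?_
    exact h ⟨bg t, mem_A_iff_bg.2 ⟨t, rfl⟩⟩

end Pool.Agent.H286.MR
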