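import Mathlib
import Pool.Graph.R_seed8.Helper813.SL4
import Pool.Graph.R_seed8.TH225.OC.Gal
import Pool.Agent.H286.MR.Susp

/-! Null sets of the measures -/

set_option autoImplicit false

namespace Pool.Agent.H286.MR

open MeasureTheory Filter Topology Matrix
open scoped ENNReal commutatorElement
open Pool.Agent.TH225.OC (G Gam X QSubgroup coset pev)

/-- the entries of a matrix -/
def ent (g : Mt) : Fin 4 × Fin 4 → ℝ := fun ij => g ij.1 ij.2

/-- the value of a real polynomial at a matrix -/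
noncomputable def ev (F : MvPolynomial (Fin 4 × Fin 4) ℝ) (x : G) : ℝ :=
  MvPolynomial.eval (ent (x : Mt)) F

lemma continuous_ent : Continuous fun x : G => ent (x : Mt) := by
  refine continuous_pi fun ij => ?_
  exact (continuous_apply_apply ij.1 ij.2).comp continuous_subtype_val

lemma continuous_ev (F : MvPolynomial (Fin 4 × Fin 4) ℝ) : Continuous (ev F) :=
  (MvPolynomial.continuous_eval F).comp continuous_ent

/-- translation of a polynomial function by matrices -/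
lemma exists_translate (f : MvPolynomial (Fin 4 × Fin 4) ℝ) (a b : Mt) :
    ∃ f' : MvPolynomial (Fin 4 × Fin 4) ℝ, ∀ x : Mt,
      MvPolynomial.eval (ent x) f' = MvPolynomial.eval (ent (a * x * b)) f := by
  refine ⟨MvPolynomial.bind₁ (fun ij : Fin 4 × Fin 4 => ∑ l, (∑ k,
    MvPolynomial.C (a ij.1 k) * MvPolynomial.X (k, l)) * MvPolynomial.C (b l ij.2)) f, fun x => ?_⟩
  rw [← MvPolynomial.coe_aeval_eq_eval, RingHom.coe_coe, MvPolynomial.aeval_bind₁,
    ← MvPolynomial.coe_aeval_eq_eval, RingHom.coe_coe]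
  congr 2
  funext ij
  simp only [map_sum, map_mul, MvPolynomial.aeval_X]
  simp only [← MvPolynomial.algebraMap_eq, AlgHom.commutes, Algebra.algebraMap_self, RingHom.id_apply]
  show _ = (a * x * b) ij.1 ij.2
  rw [Matrix.mul_apply]
  refine Finset.sum_congr rfl fun l _ => ?_
  rw [Matrix.mul_apply]
  rfl

lemma exists_translate_ev (f : MvPolynomial (Fin 4 × Fin 4) ℝ) (a b : G) :
    ∃ f' : MvPolynomial (Fin 4 × Fin 4) ℝ, ∀ x : G, ev f' x = ev f (a * x * b) := by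
  obtain ⟨f', hf'⟩ := exists_translate f (a : Mt) (b : Mt)
  exact ⟨f', fun x => hf' x⟩

/-- a polynomial function along a hyperbola -/
lemma exists_hyp (F : MvPolynomial (Fin 4 × Fin 4) ℝ) (Y Z : Mt) (r : Fin 4) (k1 k2 : ℝ) :
    ∃ q : Polynomial ℝ, q.natDegree ≤ 2 * F.totalDegree ∧ ∀ s : ℝ, s ≠ 0 →
      q.eval s = s ^ F.totalDegree *
        MvPolynomial.eval (ent (Y * (1 + Xm r (k1 * s) (k2 * s⁻¹)) * Z)) F := by
  classical
  set d := F.totalDegree with hd
  set c0 : Mt := Y * Z with hc0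
  set c1 : Mt := Y * single (p1 r).1 (p1 r).2 1 * Z with hc1
  set c2 : Mt := Y * single (p2 r).1 (p2 r).2 1 * Z with hc2
  set M : Fin 4 × Fin 4 → Polynomial ℝ := fun ij => Polynomial.C (c0 ij.1 ij.2) * Polynomial.X +
    Polynomial.C (k1 * c1 ij.1 ij.2) * Polynomial.X ^ 2 + Polynomial.C (k2 * c2 ij.1 ij.2) with hM
  have hMdeg : ∀ ij, (M ij).natDegree ≤ 2 := by
    intro ij
    rw [hM]
    beta_reduce
    compute_degree
  have hMev : ∀ ij (s : ℝ), s ≠ 0 → (M ij).eval s =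
      s * ent (Y * (1 + Xm r (k1 * s) (k2 * s⁻¹)) * Z) ij := by
    intro ij s hs
    have e1 : Y * (1 + Xm r (k1 * s) (k2 * s⁻¹)) * Z = c0 + (k1 * s) • c1 + (k2 * s⁻¹) • c2 := by
      have e2 : Xm r (k1 * s) (k2 * s⁻¹) = (k1 * s) • single (p1 r).1 (p1 r).2 (1 : ℝ) +
          (k2 * s⁻¹) • single (p2 r).1 (p2 r).2 (1 : ℝ) := by
        unfold Xm
        rw [smul_single, smul_single, smul_eq_mul, smul_eq_mul, mul_one, mul_one]
      rw [e2, hc0, hc1, hc2]
      simp only [mul_add, add_mul, mul_one, mul_smul_comm, smul_mul_assoc, add_assoc]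
    rw [e1, hM]
    simp only [Polynomial.eval_add, Polynomial.eval_mul, Polynomial.eval_C, Polynomial.eval_X,
      Polynomial.eval_pow, ent, Matrix.add_apply, Matrix.smul_apply, smul_eq_mul]
    field_simp
  refine ⟨∑ m ∈ F.support, Polynomial.C (MvPolynomial.coeff m F) * Polynomial.X ^ (d - ∑ ij, m ij) *
    ∏ ij, (M ij) ^ (m ij), ?_, fun s hs => ?_⟩
  · refine Polynomial.natDegree_sum_le_of_forall_le _ _ fun m hm => ?_
    have h1 : ∑ ij, m ij ≤ d := by
      have h2 := MvPolynomial.le_totalDegree hm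
      rw [Finsupp.sum_fintype _ _ (fun _ => rfl)] at h2
      exact h2
    have h3 : (∏ ij, (M ij) ^ (m ij)).natDegree ≤ 2 * ∑ ij, m ij := by
      refine (Polynomial.natDegree_prod_le _ _).trans ?_
      rw [Finset.mul_sum]
      refine Finset.sum_le_sum fun ij _ => ?_
      refine Polynomial.natDegree_pow_le.trans ?_
      rw [mul_comm]
      exact Nat.mul_le_mul_right _ (hMdeg ij)
    have h4 : (Polynomial.C (MvPolynomial.coeff m F) * Polynomial.X ^ (d - ∑ ij, m ij) :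
        Polynomial ℝ).natDegree ≤ d - ∑ ij, m ij := Polynomial.natDegree_C_mul_X_pow_le _ _
    refine Polynomial.natDegree_mul_le.trans ?_
    omega
  · rw [Polynomial.eval_finsetSum, MvPolynomial.eval_eq', Finset.mul_sum]
    refine Finset.sum_congr rfl fun m hm => ?_
    have h1 : ∑ ij, m ij ≤ d := by
      have h2 := MvPolynomial.le_totalDegree hm
      rw [Finsupp.sum_fintype _ _ (fun _ => rfl)] at h2
      exact h2
    rw [Polynomial.eval_mul, Polynomial.eval_mul, Polynomial.eval_C, Polynomial.eval_pow,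
      Polynomial.eval_X, Polynomial.eval_prod]
    have h5 : ∏ ij, ((M ij) ^ (m ij)).eval s = s ^ (∑ ij, m ij) *
        ∏ ij, (ent (Y * (1 + Xm r (k1 * s) (k2 * s⁻¹)) * Z) ij) ^ (m ij) := by
      rw [← Finset.prod_pow_eq_pow_sum, ← Finset.prod_mul_distrib]
      refine Finset.prod_congr rfl fun ij _ => ?_
      rw [Polynomial.eval_pow, hMev ij s hs, mul_pow]
    rw [h5]
    have h6 : s ^ d = s ^ (d - ∑ ij, m ij) * s ^ (∑ ij, m ij) := by
      rw [← pow_add]
      congr 1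
      omega
    rw [h6]
    ring

/-- the coefficients of the translation lengths -/
noncomputable def ka (j : ℕ) : ℝ := (sD j : ℝ) ^ 2 / (ep ^ sM j - 1)

/-- the coefficients of the translation lengths -/
noncomputable def kb (j : ℕ) : ℝ := (sD j : ℝ) ^ 2 / (ep' ^ sM j - 1)

lemma ta_eq (j : ℕ) (n : ℤ) : ta j n = ka j * ep ^ n := by
  unfold ta ka
  ring

lemma tb_eq (j : ℕ) (n : ℤ) : tb j n = kb j * (ep ^ n)⁻¹ := by
  unfold tb kb
  rw [ep'_eq, _root_.inv_zpow]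
  ring

lemma ka_ne (j : ℕ) : ka j ≠ 0 := by
  unfold ka
  have h1 : (sD j : ℝ) ≠ 0 := by exact_mod_cast (sD_pos j).ne'
  exact div_ne_zero (pow_ne_zero 2 h1) (epM_ne j)

lemma kb_ne (j : ℕ) : kb j ≠ 0 := by
  unfold kb
  have h1 : (sD j : ℝ) ≠ 0 := by exact_mod_cast (sD_pos j).ne'
  exact div_ne_zero (pow_ne_zero 2 h1) (ep'M_ne j)

lemma ka_kb (j : ℕ) : |ka j * kb j| ≤ (1 / 2) ^ j := by
  have hg : good j (sK j) := by
    refine ⟨le_rfl, ?_⟩
    have h1 := K_le_M j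
    have h2 : 2 * sK j ≤ 2 ^ (j + 2) * sK j := by
      refine Nat.mul_le_mul_right _ ?_
      calc 2 = 2 ^ 1 := rfl
        _ ≤ 2 ^ (j + 2) := Nat.pow_le_pow_right (by norm_num) (by omega)
    have h3 : sK j + sK j ≤ sM j := by omega
    exact_mod_cast h3
  have h1 := tau_bound hg
  have h2 := abs_nonneg (ta j (sK j))
  have h3 := abs_nonneg (tb j (sK j))
  have h4 : ka j * kb j = ta j (sK j) * tb j (sK j) := by
    rw [ta_eq, tb_eq]
    have h5 : ep ^ ((sK j : ℕ) : ℤ) ≠ 0 := zpow_ne_zero _ ep_pos.ne'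
    field_simp
  have h5 : eb j ≤ (1 / 2) ^ j := by
    unfold eb
    have h6 : (1 : ℝ) ≤ (sD j : ℝ) := by exact_mod_cast sD_pos j
    calc (1 / 2 : ℝ) ^ (j + 23) / (sD j : ℝ) ^ 4 ≤ (1 / 2 : ℝ) ^ (j + 23) / 1 := by
          gcongr
          exact one_le_pow₀ h6
      _ = (1 / 2 : ℝ) ^ (j + 23) := div_one _
      _ ≤ (1 / 2) ^ j := pow_le_pow_of_le_one (by norm_num) (by norm_num) (by omega)
  have h6 : (1 / 2 : ℝ) ^ j ≤ 1 := pow_le_one₀ (by norm_num) (by norm_num)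
  rw [h4, abs_mul]
  nlinarith

lemma tendsto_ka_kb : Tendsto (fun j => ka j * kb j) atTop (𝓝 0) := by
  refine squeeze_zero_norm ka_kb ?_
  exact tendsto_pow_atTop_nhds_zero_of_lt_one (by norm_num) (by norm_num)

/-- the finite products -/
noncomputable def gk (β : ℕ → Fin 4) (k : ℕ) (ω : Om) : G := pr β (tau (iv ω)) 0 k

lemma gk_succ (β : ℕ → Fin 4) (k : ℕ) (ω : Om) :
    gk β (k + 1) ω = tr (β k) (ta k (iv ω k)) (tb k (iv ω k)) * gk β k ω := by
  unfold gk
  rw [pr_succ, zero_add]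
  rfl

lemma gk_add_cemb (β : ℕ → Fin 4) (k : ℕ) (ω : Om) (b : ZMod (sM k)) :
    gk β k (ω + cemb k b) = gk β k ω := by
  unfold gk
  refine pr_congr β fun j _ hj => ?_
  have h1 : iv (ω + cemb k b) j = iv ω j := by
    unfold iv
    rw [Pi.add_apply, cemb_ne (by omega), add_zero]
  unfold tau
  rw [h1]

lemma Cv.tendsto {β : ℕ → Fin 4} {ω : Om} (h : Cv β ω) :
    Tendsto (fun k => gk β k ω) atTop (𝓝 (gm β ω)) := h

/-- the tail does not depend on the `k`-th coordinate -/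
lemma tail_indep {β : ℕ → Fin 4} {ω : Om} {k : ℕ} {b : ZMod (sM k)} (h1 : Cv β ω)
    (h2 : Cv β (ω + cemb k b)) :
    gm β (ω + cemb k b) * (gk β (k + 1) (ω + cemb k b))⁻¹ =
      gm β ω * (gk β (k + 1) ω)⁻¹ := by
  have h3 : ∀ ω' : Om, Cv β ω' → Tendsto (fun m => pr β (tau (iv ω')) (k + 1) m) atTop
      (𝓝 (gm β ω' * (gk β (k + 1) ω')⁻¹)) := by
    intro ω' h
    have h4 := ((tendsto_add_atTop_iff_nat (k + 1)).2 h.tendsto).mul_const (gk β (k + 1) ω')⁻¹
    refine h4.congr fun m => ?_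
    unfold gk
    rw [add_comm m (k + 1), pr_add β _ 0 (k + 1) m, zero_add, mul_inv_cancel_right]
  refine tendsto_nhds_unique (h3 _ h2) ?_
  refine (h3 _ h1).congr fun m => ?_
  refine pr_congr β fun j hj _ => ?_
  have h1 : iv (ω + cemb k b) j = iv ω j := by
    unfold iv
    rw [Pi.add_apply, cemb_ne (by omega), add_zero]
  unfold tau
  rw [h1]

/-- the exceptional events -/
def Ev (β : ℕ → Fin 4) (r : Fin 4) (s : ℕ → ℝ) (F : MvPolynomial (Fin 4 × Fin 4) ℝ) (j : ℕ) : Set Om :=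
  {ω | β j = r ∧ ev F (gm β ω) = 0 ∧
    ev F (gm β ω * (gk β (j + 1) ω)⁻¹ * tr r (ka j * s j) (kb j * (s j)⁻¹) * gk β j ω) ≠ 0}

/-- the Borel structure on `G` -/
noncomputable local instance instMeasG' : MeasurableSpace G := borel G

local instance instBorelG' : BorelSpace G := ⟨rfl⟩

lemma continuous_gk (β : ℕ → Fin 4) (k : ℕ) : Continuous (gk β k) := continuous_pr β k

lemma measurable_gm' (β : ℕ → Fin 4) : Measurable (gm β) := measurable_gm β

lemma measurable_Ev (β : ℕ → Fin 4) (r : Fin 4) (s : ℕ → ℝ) (F : MvPolynomial (Fin 4 × Fin 4) ℝ)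
    (j : ℕ) : MeasurableSet (Ev β r s F j) := by
  have m1 : Measurable fun ω => ev F (gm β ω) := (continuous_ev F).measurable.comp (measurable_gm' β)
  have m2 : Measurable fun ω => ev F (gm β ω * (gk β (j + 1) ω)⁻¹ *
      tr r (ka j * s j) (kb j * (s j)⁻¹) * gk β j ω) := by
    refine (continuous_ev F).measurable.comp ?_
    have h1 : Measurable fun ω => gm β ω := measurable_gm' β
    have h2 : Measurable fun ω => gk β (j + 1) ω := (continuous_gk β (j + 1)).measurable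
    have h3 : Measurable fun ω => gk β j ω := (continuous_gk β j).measurable
    exact ((h1.mul h2.inv).mul_const _).mul h3
  have : Ev β r s F j = {ω | β j = r} ∩ ({ω | ev F (gm β ω) = 0} ∩
    {ω | ev F (gm β ω * (gk β (j + 1) ω)⁻¹ * tr r (ka j * s j) (kb j * (s j)⁻¹) * gk β j ω) = 0}ᶜ) := rfl
  rw [this]
  refine MeasurableSet.inter (MeasurableSet.const _) (MeasurableSet.inter ?_ (MeasurableSet.compl ?_))
  · exact m1 (measurableSet_singleton 0)
  · exact m2 (measurableSet_singleton 0)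

lemma ncard_Ev (β : ℕ → Fin 4) (r : Fin 4) (s : ℕ → ℝ) (hs : ∀ j, s j ≠ 0)
    (F : MvPolynomial (Fin 4 × Fin 4) ℝ) (j : ℕ) {ω : Om} (h : ∀ b, Cv β (ω + cemb j b)) :
    {b : ZMod (sM j) | ω + cemb j b ∈ Ev β r s F j}.ncard ≤ 2 * F.totalDegree := by
  rcases Set.eq_empty_or_nonempty {b : ZMod (sM j) | ω + cemb j b ∈ Ev β r s F j} with h0 | ⟨b0, hb0⟩
  · rw [h0]
    simp
  have hr : β j = r := hb0.1
  have hω : Cv β ω := by
    have := h 0
    have e : cemb j 0 = 0 := Pi.single_zero _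
    rwa [e, add_zero] at this
  obtain ⟨q, hq1, hq2⟩ := exists_hyp F ((gm β ω * (gk β (j + 1) ω)⁻¹ : G) : Mt) ((gk β j ω : G) : Mt) r
    (ka j) (kb j)
  have e1 : ∀ b, gk β (j + 1) (ω + cemb j b) =
      tr r (ka j * ep ^ iv (ω + cemb j b) j) (kb j * (ep ^ iv (ω + cemb j b) j)⁻¹) * gk β j ω := by
    intro b
    rw [gk_succ, gk_add_cemb, hr, ta_eq, tb_eq]
  have e2 : ∀ b, gm β (ω + cemb j b) = (gm β ω * (gk β (j + 1) ω)⁻¹) *
      tr r (ka j * ep ^ iv (ω + cemb j b) j) (kb j * (ep ^ iv (ω + cemb j b) j)⁻¹) * gk β j ω := by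
    intro b
    rw [mul_assoc, ← e1, ← tail_indep hω (h b), inv_mul_cancel_right]
  have e3 : ∀ x : ℝ, x ≠ 0 → q.eval x = x ^ F.totalDegree * ev F ((gm β ω * (gk β (j + 1) ω)⁻¹) *
      tr r (ka j * x) (kb j * x⁻¹) * gk β j ω) := by
    intro x hx
    rw [hq2 x hx]
    rfl
  have hq0 : q ≠ 0 := by
    intro h0
    apply hb0.2.2
    rw [tail_indep hω (h b0), gk_add_cemb]
    have h5 := e3 (s j) (hs j)
    rw [h0, Polynomial.eval_zero] at h5
    rcases mul_eq_zero.1 h5.symm with h6 | h6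
    · exact absurd h6 (pow_ne_zero _ (hs j))
    · exact h6
  have hroot : ∀ b ∈ {b : ZMod (sM j) | ω + cemb j b ∈ Ev β r s F j},
      ep ^ iv (ω + cemb j b) j ∈ (q.roots.toFinset : Set ℝ) := by
    intro b hb
    rw [Finset.mem_coe, Multiset.mem_toFinset, Polynomial.mem_roots hq0, Polynomial.IsRoot,
      e3 _ (zpow_ne_zero _ ep_pos.ne')]
    have h6 := hb.2.1
    rw [e2] at h6
    rw [h6, mul_zero]
  have hinj : Set.InjOn (fun b : ZMod (sM j) => ep ^ iv (ω + cemb j b) j)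
      {b : ZMod (sM j) | ω + cemb j b ∈ Ev β r s F j} := by
    intro b _ b' _ hbb
    have h9 : iv (ω + cemb j b) j = iv (ω + cemb j b') j :=
      zpow_right_injective₀ ep_pos (by linarith [ep_ge]) hbb
    unfold iv at h9
    rw [Pi.add_apply, Pi.add_apply, cemb_same, cemb_same] at h9
    have h10 : (ω j + b).val = (ω j + b').val := by exact_mod_cast h9
    exact add_left_cancel (ZMod.val_injective _ h10)
  calc {b : ZMod (sM j) | ω + cemb j b ∈ Ev β r s F j}.ncard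
      = ((fun b : ZMod (sM j) => ep ^ iv (ω + cemb j b) j) ''
        {b : ZMod (sM j) | ω + cemb j b ∈ Ev β r s F j}).ncard := hinj.ncard_image.symm
    _ ≤ (q.roots.toFinset : Set ℝ).ncard := by
        refine Set.ncard_le_ncard ?_ (Finset.finite_toSet _)
        rintro _ ⟨b, hb, rfl⟩
        exact hroot b hb
    _ ≤ 2 * F.totalDegree := by
        rw [Set.ncard_coe_finset]
        exact (Multiset.toFinset_card_le _).trans ((Polynomial.card_roots' q).trans hq1)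

lemma hm_Ev (β : ℕ → Fin 4) (r : Fin 4) (s : ℕ → ℝ) (hs : ∀ j, s j ≠ 0)
    (F : MvPolynomial (Fin 4 × Fin 4) ℝ) (j : ℕ) :
    hm (Ev β r s F j) ≤ ((2 * F.totalDegree : ℕ) : ℝ≥0∞) * (1 / 2) ^ j := by
  have h1 := count_lemma (fun b : ZMod (sM j) => cemb j b) (measurable_Ev β r s F j)
    (2 * F.totalDegree) ?_
  · rw [ZMod.card] at h1
    have hM0 : ((sM j : ℕ) : ℝ≥0∞) ≠ 0 := by exact_mod_cast (sM_pos j).ne'
    have hMt : ((sM j : ℕ) : ℝ≥0∞) ≠ ⊤ := ENNReal.natCast_ne_top _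
    have h2 : hm (Ev β r s F j) ≤ ((2 * F.totalDegree : ℕ) : ℝ≥0∞) / (sM j : ℝ≥0∞) := by
      rw [ENNReal.le_div_iff_mul_le (Or.inl hM0) (Or.inl hMt), mul_comm]
      exact h1
    refine h2.trans ?_
    rw [div_eq_mul_inv]
    gcongr
    rw [one_div, ← ENNReal.inv_pow, ENNReal.inv_le_inv]
    have h3 : 2 ^ j ≤ sM j := by
      have h4 := K_le_M j
      have h5 := sK_pos j
      calc 2 ^ j ≤ 2 ^ (j + 2) * 1 := by
            rw [mul_one]
            exact Nat.pow_le_pow_right (by norm_num) (by omega)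
        _ ≤ 2 ^ (j + 2) * sK j := Nat.mul_le_mul_left _ h5
        _ ≤ sM j := h4
    exact_mod_cast h3
  · have h2 : ∀ᵐ ω ∂hm, ∀ b : ZMod (sM j), Cv β (ω + cemb j b) := by
      rw [ae_all_iff]
      intro b
      have := ae_Cv_add β (cemb j b)
      filter_upwards [this] with ω hω
      rwa [add_comm]
    filter_upwards [h2] with ω hω
    exact ncard_Ev β r s hs F j hω

/-- elements that move the zero sets of polynomials -/
def Mv (β : ℕ → Fin 4) (x : G) : Prop :=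
  ∀ F : MvPolynomial (Fin 4 × Fin 4) ℝ, ∀ᵐ ω ∂hm, ev F (gm β ω) = 0 → ev F (x * gm β ω) = 0

lemma Mv_mul {β : ℕ → Fin 4} {x y : G} (hx : Mv β x) (hy : Mv β y) : Mv β (x * y) := by
  intro F
  obtain ⟨F', hF'⟩ := exists_translate_ev F x 1
  have h1 : ∀ z : G, ev F' z = ev F (x * z) := by
    intro z
    rw [hF', mul_one]
  filter_upwards [hx F, hy F'] with ω h2 h3 h4
  have h5 := h3 (by rw [h1]; exact h2 h4)
  rw [h1] at h5
  rw [mul_assoc]
  exact h5

lemma Mv_limit (β : ℕ → Fin 4) (r : Fin 4) (hr : ∃ᶠ j in atTop, β j = r) (s : ℕ → ℝ)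
    (hs : ∀ j, s j ≠ 0) (x y : ℝ) (hx : Tendsto (fun j => ka j * s j) atTop (𝓝 x))
    (hy : Tendsto (fun j => kb j * (s j)⁻¹) atTop (𝓝 y)) : Mv β (tr r x y) := by
  intro F
  have h1 : ∑' j, hm (Ev β r s F j) ≠ ⊤ := by
    refine ne_top_of_le_ne_top ?_ (ENNReal.tsum_le_tsum fun j => hm_Ev β r s hs F j)
    rw [ENNReal.tsum_mul_left, one_div, ENNReal.tsum_geometric, ENNReal.one_sub_inv_two, inv_inv]
    exact ENNReal.mul_ne_top (ENNReal.natCast_ne_top _) ENNReal.ofNat_ne_top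
  filter_upwards [ae_eventually_notMem h1, ae_Cv β] with ω h2 h3 h4
  have htr : Tendsto (fun j => tr r (ka j * s j) (kb j * (s j)⁻¹)) atTop (𝓝 (tr r x y)) := by
    refine tendsto_subtype_rng.2 ?_
    refine tendsto_pi_nhds.2 fun a => tendsto_pi_nhds.2 fun b => ?_
    simp only [tr_coe, Xm, Matrix.add_apply, Matrix.single_apply]
    refine Tendsto.add tendsto_const_nhds (Tendsto.add ?_ ?_)
    · split_ifs
      · exact hx
      · exact tendsto_const_nhds
    · split_ifs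
      · exact hy
      · exact tendsto_const_nhds
  have h6 : Tendsto (fun j => gk β (j + 1) ω) atTop (𝓝 (gm β ω)) :=
    (tendsto_add_atTop_iff_nat 1).2 h3.tendsto
  have h5 : Tendsto (fun j => ev F (gm β ω * (gk β (j + 1) ω)⁻¹ *
      tr r (ka j * s j) (kb j * (s j)⁻¹) * gk β j ω)) atTop
      (𝓝 (ev F (gm β ω * (gm β ω)⁻¹ * tr r x y * gm β ω))) := by
    refine ((continuous_ev F).tendsto _).comp ?_
    exact ((h6.inv.const_mul _).mul htr).mul h3.tendsto
  rw [mul_inv_cancel, one_mul] at h5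
  have h7 : ∃ᶠ j in atTop, ev F (gm β ω * (gk β (j + 1) ω)⁻¹ *
      tr r (ka j * s j) (kb j * (s j)⁻¹) * gk β j ω) ∈ ({0} : Set ℝ) := by
    refine (hr.and_eventually h2).mono ?_
    rintro j ⟨hj, h8⟩
    rw [Set.mem_singleton_iff]
    by_contra h9
    exact h8 ⟨hj, h4, h9⟩
  exact isClosed_singleton.mem_of_frequently_of_tendsto h7 h5

lemma Mv_one (β : ℕ → Fin 4) : Mv β 1 := by
  intro F
  refine Eventually.of_forall fun ω h => ?_
  rwa [one_mul]

lemma Mv_tr1 (β : ℕ → Fin 4) (r : Fin 4) (hr : ∃ᶠ j in atTop, β j = r) (t : ℝ) :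
    Mv β (tr r t 0) := by
  by_cases ht : t = 0
  · subst ht
    rw [tr_zero]
    exact Mv_one β
  refine Mv_limit β r hr (fun j => t / ka j) (fun j => div_ne_zero ht (ka_ne j)) t 0 ?_ ?_
  · have : (fun j => ka j * (t / ka j)) = fun _ => t := by
      funext j
      have := ka_ne j
      field_simp
    rw [this]
    exact tendsto_const_nhds
  · have : (fun j => kb j * (t / ka j)⁻¹) = fun j => (ka j * kb j) * t⁻¹ := by
      funext j
      rw [inv_div]
      ring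
    rw [this]
    have h2 := tendsto_ka_kb.mul_const t⁻¹
    rwa [zero_mul] at h2

lemma Mv_tr2 (β : ℕ → Fin 4) (r : Fin 4) (hr : ∃ᶠ j in atTop, β j = r) (t : ℝ) :
    Mv β (tr r 0 t) := by
  by_cases ht : t = 0
  · subst ht
    rw [tr_zero]
    exact Mv_one β
  refine Mv_limit β r hr (fun j => kb j / t) (fun j => div_ne_zero (kb_ne j) ht) 0 t ?_ ?_
  · have : (fun j => ka j * (kb j / t)) = fun j => (ka j * kb j) * t⁻¹ := by
      funext j
      ring
    rw [this]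
    have h2 := tendsto_ka_kb.mul_const t⁻¹
    rwa [zero_mul] at h2
  · have : (fun j => kb j * (kb j / t)⁻¹) = fun _ => t := by
      funext j
      have := kb_ne j
      field_simp
    rw [this]
    exact tendsto_const_nhds

open Pool.Agent.Helper813 (tv sl_induction tv_comm)

lemma tr_eq_tv1 (r : Fin 4) (t : ℝ) (h : (p1 r).1 ≠ (p1 r).2) : tr r t 0 = tv h t := by
  apply Subtype.ext
  show 1 + Xm r t 0 = 1 + single (p1 r).1 (p1 r).2 t
  unfold Xm
  rw [single_zero, add_zero]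

lemma tr_eq_tv2 (r : Fin 4) (t : ℝ) (h : (p2 r).1 ≠ (p2 r).2) : tr r 0 t = tv h t := by
  apply Subtype.ext
  show 1 + Xm r 0 t = 1 + single (p2 r).1 (p2 r).2 t
  unfold Xm
  rw [single_zero, zero_add]

lemma Mv_tv (β : ℕ → Fin 4) (hβ : ∀ r, ∃ᶠ j in atTop, β j = r) (i j : Fin 4) (hij : i ≠ j) (t : ℝ) :
    Mv β (tv hij t) := by
  have a1 : ∀ (r : Fin 4) (t : ℝ) (h : (p1 r).1 ≠ (p1 r).2), Mv β (tv h t) := fun r t h => by
    rw [← tr_eq_tv1 r t h]
    exact Mv_tr1 β r (hβ r) t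
  have a2 : ∀ (r : Fin 4) (t : ℝ) (h : (p2 r).1 ≠ (p2 r).2), Mv β (tv h t) := fun r t h => by
    rw [← tr_eq_tv2 r t h]
    exact Mv_tr2 β r (hβ r) t
  have m02 : ∀ t, Mv β (tv (show (0 : Fin 4) ≠ 2 by decide) t) := fun t => a1 0 t (by decide)
  have m20 : ∀ t, Mv β (tv (show (2 : Fin 4) ≠ 0 by decide) t) := fun t => a1 1 t (by decide)
  have m03 : ∀ t, Mv β (tv (show (0 : Fin 4) ≠ 3 by decide) t) := fun t => a1 2 t (by decide)
  have m21 : ∀ t, Mv β (tv (show (2 : Fin 4) ≠ 1 by decide) t) := fun t => a1 3 t (by decide)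
  have m13 : ∀ t, Mv β (tv (show (1 : Fin 4) ≠ 3 by decide) t) := fun t => a2 0 t (by decide)
  have m31 : ∀ t, Mv β (tv (show (3 : Fin 4) ≠ 1 by decide) t) := fun t => a2 1 t (by decide)
  have m12 : ∀ t, Mv β (tv (show (1 : Fin 4) ≠ 2 by decide) t) := fun t => a2 2 t (by decide)
  have m30 : ∀ t, Mv β (tv (show (3 : Fin 4) ≠ 0 by decide) t) := fun t => a2 3 t (by decide)
  have comm : ∀ {i j k : Fin 4} (hij : i ≠ j) (hik : i ≠ k) (hkj : k ≠ j) (t : ℝ),
      (∀ t, Mv β (tv hik t)) → (∀ t, Mv β (tv hkj t)) → Mv β (tv hij t) := by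
    intro i j k hij hik hkj t h1 h2
    rw [← tv_comm hij hik hkj t, commutatorElement_def, SpecialLinearGroup.transvection_inv,
      SpecialLinearGroup.transvection_inv]
    exact Mv_mul (Mv_mul (Mv_mul (h1 _) (h2 _)) (h1 _)) (h2 _)
  fin_cases i <;> fin_cases j
  · exact absurd rfl hij
  · exact comm (by decide) (by decide) (by decide) t m02 m21
  · exact m02 t
  · exact m03 t
  · exact comm (by decide) (by decide) (by decide) t m13 m30
  · exact absurd rfl hij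
  · exact m12 t
  · exact m13 t
  · exact m20 t
  · exact m21 t
  · exact absurd rfl hij
  · exact comm (by decide) (by decide) (by decide) t m21 m13
  · exact m30 t
  · exact m31 t
  · exact comm (by decide) (by decide) (by decide) t m30 m02
  · exact absurd rfl hij

lemma Mv_all (β : ℕ → Fin 4) (hβ : ∀ r, ∃ᶠ j in atTop, β j = r) (x : G) : Mv β x :=
  sl_induction (Mv β) (fun i j hij a => Mv_tv β hβ i j hij a) (fun _ _ => Mv_mul) x

/-- the main statement on null sets -/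
theorem ae_ne (β : ℕ → Fin 4) (hβ : ∀ r, ∃ᶠ j in atTop, β j = r)
    (F : MvPolynomial (Fin 4 × Fin 4) ℝ) (x : G) (hx : ev F x ≠ 0) :
    ∀ᵐ ω ∂hm, ev F (gm β ω) ≠ 0 := by
  obtain ⟨D, hDc, hDd⟩ := TopologicalSpace.exists_countable_dense G
  have h1 : ∀ᵐ ω ∂hm, ∀ w ∈ D, ev F (gm β ω) = 0 → ev F (w * gm β ω) = 0 := by
    rw [ae_ball_iff hDc]
    exact fun w _ => Mv_all β hβ w F
  filter_upwards [h1] with ω h2 h3
  apply hx
  have h4 : IsClosed {w : G | ev F (w * gm β ω) = 0} :=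
    isClosed_eq ((continuous_ev F).comp (continuous_id.mul continuous_const)) continuous_const
  have h5 : D ⊆ {w : G | ev F (w * gm β ω) = 0} := fun w hw => h2 w hw h3
  have h6 := h4.closure_subset_iff.2 h5
  rw [hDd.closure_eq] at h6
  have h7 : x * (gm β ω)⁻¹ ∈ {w : G | ev F (w * gm β ω) = 0} := h6 (Set.mem_univ _)
  have h8 : ev F (x * (gm β ω)⁻¹ * gm β ω) = 0 := h7
  rwa [inv_mul_cancel_right] at h8

/-- translates of proper subgroups are null sets of `μ₀` -/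
lemma mu0_coset (β : ℕ → Fin 4) (hβ : ∀ r, ∃ᶠ j in atTop, β j = r) (L : QSubgroup)
    (hL : L.grp ≠ ⊤) (g : G) : mu0 β (coset g L) = 0 ∧ MeasurableSet (coset g L) := by
  have h1 : coset g L = (QuotientGroup.mk : G → X) '' ((fun x => g * x) '' (L.real : Set G)) := by
    ext y
    constructor
    · rintro ⟨l, hl, rfl⟩
      exact ⟨g * l, ⟨l, hl, rfl⟩, rfl⟩
    · rintro ⟨_, ⟨l, hl, rfl⟩, rfl⟩
      exact ⟨l, hl, rfl⟩
  have h2 : MeasurableSet (coset g L) := by
    rw [h1]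
    exact measurableSet_image_mk ((isClosedMap_mul_left g) _ (Pool.Agent.TH225.OC.real_closed L))
  refine ⟨?_, h2⟩
  rw [mu0_apply β h2]
  have hne : L.real ≠ ⊤ := fun h => hL (Pool.Agent.TH225.OC.grp_top_of_real_top L h)
  obtain ⟨q, hq⟩ : ∃ q : G, q ∉ L.real := by
    by_contra hcon
    push Not at hcon
    exact hne (eq_top_iff.2 fun x _ => hcon x)
  rw [Pool.Agent.TH225.OC.mem_real] at hq
  push Not at hq
  obtain ⟨f, hf, hfq⟩ := hq
  have hpev : ∀ x : G, pev f x = ev (MvPolynomial.map (algebraMap ℚ ℝ) f) x := by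
    intro x
    unfold ev pev
    rw [MvPolynomial.eval_map, MvPolynomial.aeval_def]
    rfl
  have h3 : ∀ᵐ ω ∂hm, ∀ γ : Gam, pev f (g⁻¹ * gm β ω * (P0 * (γ : G))) ≠ 0 := by
    rw [ae_all_iff]
    intro γ
    obtain ⟨F, hF⟩ := exists_translate_ev (MvPolynomial.map (algebraMap ℚ ℝ) f) g⁻¹ (P0 * (γ : G))
    have h5 := ae_ne β hβ F (g * q * (P0 * (γ : G))⁻¹) ?_
    · filter_upwards [h5] with ω hω
      rw [hF] at hω
      rwa [hpev]
    · rw [hF]
      have e : g⁻¹ * (g * q * (P0 * (γ : G))⁻¹) * (P0 * (γ : G)) = q := by group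
      rw [e, ← hpev]
      exact hfq
  have h6 : ∀ᵐ ω ∂hm, ω ∉ Ph β ⁻¹' (coset g L) := by
    filter_upwards [h3] with ω hω hmem
    obtain ⟨l, hl, h7⟩ := hmem
    have h8 : (gm β ω * P0)⁻¹ * (g * l) ∈ Gam := QuotientGroup.eq.1 h7
    apply hω ⟨_, h8⟩
    have h9 : g⁻¹ * gm β ω * (P0 * ((gm β ω * P0)⁻¹ * (g * l))) = l := by group
    show pev f (g⁻¹ * gm β ω * (P0 * ((gm β ω * P0)⁻¹ * (g * l)))) = 0
    rw [h9]
    exact (Pool.Agent.TH225.OC.mem_real L l).1 hl f hf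
  exact measure_eq_zero_iff_ae_notMem.2 h6

/-- translates of proper subgroups are null sets -/
lemma mu_coset (β : ℕ → Fin 4) (hβ : ∀ r, ∃ᶠ j in atTop, β j = r) (L : QSubgroup)
    (hL : L.grp ≠ ⊤) (g : G) : mu β (coset g L) = 0 := by
  refine mu_null β (mu0_coset β hβ L hL g).2 fun v => ?_
  have h1 : (fun x : X => bg v • x) ⁻¹' (coset g L) = coset ((bg v)⁻¹ * g) L := by
    ext y
    constructor
    · rintro ⟨l, hl, h⟩
      refine ⟨l, hl, ?_⟩
      have h2 : y = (bg v)⁻¹ • (QuotientGroup.mk (g * l) : X) := by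
        rw [← h]
        exact (inv_smul_smul _ _).symm
      rw [h2]
      show (QuotientGroup.mk ((bg v)⁻¹ * (g * l)) : X) = _
      rw [mul_assoc]
    · rintro ⟨l, hl, rfl⟩
      refine ⟨l, hl, ?_⟩
      show (QuotientGroup.mk (bg v * ((bg v)⁻¹ * g * l)) : X) = _
      rw [mul_assoc, mul_inv_cancel_left]
  rw [h1]
  exact (mu0_coset β hβ L hL _).1

/-- the orbits of the acting group are null sets of `μ₀` -/
lemma mu0_orbit (β : ℕ → Fin 4) (hβ : ∀ r, ∃ᶠ j in atTop, β j = r) (z : G) :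
    mu0 β {y : X | ∃ a ∈ A, y = QuotientGroup.mk (a * z)} = 0 ∧
      MeasurableSet {y : X | ∃ a ∈ A, y = QuotientGroup.mk (a * z)} := by
  have h1 : {y : X | ∃ a ∈ A, y = QuotientGroup.mk (a * z)} =
      (QuotientGroup.mk : G → X) '' ((fun x => x * z) '' (A : Set G)) := by
    ext y
    constructor
    · rintro ⟨l, hl, rfl⟩
      exact ⟨l * z, ⟨l, hl, rfl⟩, rfl⟩
    · rintro ⟨_, ⟨l, hl, rfl⟩, rfl⟩
      exact ⟨l, hl, rfl⟩
  have h2 : MeasurableSet {y : X | ∃ a ∈ A, y = QuotientGroup.mk (a * z)} := by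
    rw [h1]
    exact measurableSet_image_mk ((isClosedMap_mul_right z) _ A_closed)
  refine ⟨?_, h2⟩
  rw [mu0_apply β h2]
  have h3 : ∀ᵐ ω ∂hm, ∀ γ : Gam, (gm β ω : Mt) 0 0 * (gm β ω : Mt) 1 0 ≠
      ((z * (P0 * (γ : G))⁻¹ : G) : Mt) 0 0 * ((z * (P0 * (γ : G))⁻¹ : G) : Mt) 1 0 := by
    rw [ae_all_iff]
    intro γ
    set c : ℝ := ((z * (P0 * (γ : G))⁻¹ : G) : Mt) 0 0 * ((z * (P0 * (γ : G))⁻¹ : G) : Mt) 1 0 with hc
    have h5 := ae_ne β hβ (MvPolynomial.X (0, 0) * MvPolynomial.X (1, 0) - MvPolynomial.C c)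
      (tv (show (1 : Fin 4) ≠ 0 by decide) (c + 1)) ?_
    · filter_upwards [h5] with ω hω h6
      apply hω
      unfold ev
      rw [map_sub, map_mul, MvPolynomial.eval_X, MvPolynomial.eval_X, MvPolynomial.eval_C]
      show (gm β ω : Mt) 0 0 * (gm β ω : Mt) 1 0 - c = 0
      rw [h6, sub_self]
    · unfold ev
      rw [map_sub, map_mul, MvPolynomial.eval_X, MvPolynomial.eval_X, MvPolynomial.eval_C]
      show (1 + single 1 0 (c + 1) : Mt) 0 0 * (1 + single 1 0 (c + 1) : Mt) 1 0 - c ≠ 0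
      simp
  have h6 : ∀ᵐ ω ∂hm, ω ∉ Ph β ⁻¹' {y : X | ∃ a ∈ A, y = QuotientGroup.mk (a * z)} := by
    filter_upwards [h3] with ω hω hmem
    obtain ⟨a, ⟨u, v, rfl⟩, h7⟩ := hmem
    have h8 : (gm β ω * P0)⁻¹ * (ag u v * z) ∈ Gam := QuotientGroup.eq.1 h7
    apply hω ⟨_, h8⟩
    show (gm β ω : Mt) 0 0 * (gm β ω : Mt) 1 0 =
      ((z * (P0 * ((gm β ω * P0)⁻¹ * (ag u v * z)))⁻¹ : G) : Mt) 0 0 *
      ((z * (P0 * ((gm β ω * P0)⁻¹ * (ag u v * z)))⁻¹ : G) : Mt) 1 0
    have h9 : gm β ω = ag u v * (z * (P0 * ((gm β ω * P0)⁻¹ * (ag u v * z)))⁻¹) := by group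
    set w : G := z * (P0 * ((gm β ω * P0)⁻¹ * (ag u v * z)))⁻¹ with hw
    have h10 : ∀ i, (gm β ω : Mt) i 0 = dgv u v i * (w : Mt) i 0 := by
      intro i
      rw [h9, co_mul, ag_coe, diagonal_mul]
    rw [h10, h10]
    have h11 : dgv u v 0 * dgv u v 1 = 1 := by
      show Real.exp u * Real.exp (-u) = 1
      rw [← Real.exp_add]
      simp
    linear_combination ((w : Mt) 0 0 * (w : Mt) 1 0) * h11
  exact measure_eq_zero_iff_ae_notMem.2 h6

/-- the orbits of the acting group are null sets -/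
lemma mu_orbit (β : ℕ → Fin 4) (hβ : ∀ r, ∃ᶠ j in atTop, β j = r) (z : G) :
    mu β {y : X | ∃ a ∈ A, y = QuotientGroup.mk (a * z)} = 0 := by
  refine mu_null β (mu0_orbit β hβ z).2 fun v => ?_
  have h1 : (fun x : X => bg v • x) ⁻¹' {y : X | ∃ a ∈ A, y = QuotientGroup.mk (a * z)} =
      {y : X | ∃ a ∈ A, y = QuotientGroup.mk (a * z)} := by
    have hb : bg v ∈ A := mem_A_iff_bg.2 ⟨v, rfl⟩
    ext y
    constructor
    · rintro ⟨a, ha, h⟩
      refine ⟨(bg v)⁻¹ * a, mul_mem (inv_mem hb) ha, ?_⟩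
      have h2 : y = (bg v)⁻¹ • (QuotientGroup.mk (a * z) : X) := by
        rw [← h]
        exact (inv_smul_smul _ _).symm
      rw [h2]
      show (QuotientGroup.mk ((bg v)⁻¹ * (a * z)) : X) = _
      rw [mul_assoc]
    · rintro ⟨a, ha, rfl⟩
      refine ⟨bg v * a, mul_mem hb ha, ?_⟩
      show (QuotientGroup.mk (bg v * (a * z)) : X) = _
      rw [mul_assoc]
  rw [h1]
  exact (mu0_orbit β hβ z).1

end Pool.Agent.H286.MR
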