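import Mathlib
import Pool.Agent.H286.MR.Null

/-! The windows: elements of stabilizers near `1` are very close to the acting group -/

set_option autoImplicit false

namespace Pool.Agent.H286.MR

open MeasureTheory Filter Topology Matrix
open scoped ENNReal
open Pool.Agent.TH225.OC (G Gam X)
open Pool.Agent.Y319.MR (stab)

/-- the sets `E k` -/
def Ek (k : ℕ) : Set X :=
  {y | ∃ v ∈ Sq, ∃ w : G, nn ((w : Mt) - 1) < dl k ∧ ∃ q : G, (sD k : ℝ) • (q : Mt) ∈ Ord ∧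
    (sD k : ℝ) • ((q⁻¹ : G) : Mt) ∈ Ord ∧ y = (QuotientGroup.mk (bg v * (w * (q * P0))) : X)}

lemma isOpen_Ek (k : ℕ) : IsOpen (Ek k) := by
  have h1 : Ek k = ⋃ v ∈ Sq, ⋃ q ∈ {q : G | (sD k : ℝ) • (q : Mt) ∈ Ord ∧
      (sD k : ℝ) • ((q⁻¹ : G) : Mt) ∈ Ord},
      (QuotientGroup.mk : G → X) '' ((fun w => bg v * (w * (q * P0))) '' {w | nn ((w : Mt) - 1) < dl k}) := by
    ext y
    simp only [Set.mem_iUnion, exists_prop]
    constructor
    · rintro ⟨v, hv, w, hw, q, h2, h3, rfl⟩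
      exact ⟨v, hv, q, ⟨h2, h3⟩, _, ⟨w, hw, rfl⟩, rfl⟩
    · rintro ⟨v, hv, q, ⟨h2, h3⟩, _, ⟨w, hw, rfl⟩, rfl⟩
      exact ⟨v, hv, w, hw, q, h2, h3, rfl⟩
  rw [h1]
  refine isOpen_biUnion fun v _ => isOpen_biUnion fun q _ => ?_
  refine QuotientGroup.isOpenQuotientMap_mk.isOpenMap _ ?_
  have h2 : (fun w : G => bg v * (w * (q * P0))) = (fun x => bg v * x) ∘ fun w => w * (q * P0) := rfl
  rw [h2, Set.image_comp]
  refine (isOpenMap_mul_left _) _ ((isOpenMap_mul_right _) _ ?_)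
  exact isOpen_lt continuous_nn_sl continuous_const

lemma mu_Ek_compl (β : ℕ → Fin 4) (k : ℕ) : mu β (Ek k)ᶜ ≤ (1 / 2 : ℝ≥0∞) ^ k := by
  have hm1 : MeasurableSet (Ek k)ᶜ := (isOpen_Ek k).measurableSet.compl
  rw [mu_apply β hm1]
  have h1 : ∀ v ∈ Sq, ph β (Ek k)ᶜ v ≤ (1 / 2 : ℝ≥0∞) ^ k := by
    intro v hv
    refine le_trans (measure_mono_ae ?_) (hm_goodset_compl k)
    filter_upwards [ae_Cv β] with ω hω h1 h2
    apply h1
    have h3 := limit_near_tau β h2 hω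
    refine ⟨v, hv, gm β ω * (pr β (tau (iv ω)) 0 k)⁻¹, h3, pr β (tau (iv ω)) 0 k,
      int_D β (iv ω) k, int_D_inv β (iv ω) k, ?_⟩
    rw [← mul_assoc (gm β ω * (pr β (tau (iv ω)) 0 k)⁻¹), inv_mul_cancel_right]
    rfl
  calc ∫⁻ v in Sq, ph β (Ek k)ᶜ v ≤ ∫⁻ _v in Sq, (1 / 2 : ℝ≥0∞) ^ k :=
        setLIntegral_mono measurable_const h1
    _ = (1 / 2 : ℝ≥0∞) ^ k * vq Set.univ := by
        rw [lintegral_const]
        rfl
    _ = (1 / 2 : ℝ≥0∞) ^ k := by rw [measure_univ, mul_one]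

/-- two points of `E k` -/
lemma Ek_pair {k : ℕ} {h : G} {y : X} (h1 : y ∈ Ek k) (h2 : h • y ∈ Ek k) :
    ∃ v ∈ Sq, ∃ v' ∈ Sq, ∃ w w' g : G, nn ((w : Mt) - 1) < dl k ∧ nn ((w' : Mt) - 1) < dl k ∧
      ((sD k ^ 2 : ℕ) : ℝ) • (g : Mt) ∈ Ord ∧ h * bg v * w = bg v' * w' * g := by
  obtain ⟨v, hv, w, hw, q, hq, hq', rfl⟩ := h1
  obtain ⟨v', hv', w', hw', r, hr, hr', e⟩ := h2
  have e1 : (QuotientGroup.mk ((bg v' * w' * r) * P0) : X) = QuotientGroup.mk ((h * bg v * w * q) * P0) := by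
    have e2 : (QuotientGroup.mk (h * (bg v * (w * (q * P0)))) : X) =
        QuotientGroup.mk (bg v' * (w' * (r * P0))) := e
    have e3 : h * bg v * w * q * P0 = h * (bg v * (w * (q * P0))) := by simp only [mul_assoc]
    have e4 : bg v' * w' * r * P0 = bg v' * (w' * (r * P0)) := by simp only [mul_assoc]
    rw [e3, e4, e2]
  have e2 := (mk_eq_iff _ _).1 e1
  set s : G := (bg v' * w' * r)⁻¹ * (h * bg v * w * q) with hs
  refine ⟨v, hv, v', hv', w, w', r * s * q⁻¹, hw, hw', ?_, ?_⟩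
  · have e3 : ((sD k ^ 2 : ℕ) : ℝ) • ((r * s * q⁻¹ : G) : Mt) =
        ((sD k : ℝ) • (r : Mt)) * (s : Mt) * ((sD k : ℝ) • ((q⁻¹ : G) : Mt)) := by
      rw [co_mul, co_mul]
      simp only [smul_mul_assoc, mul_smul_comm, smul_smul]
      push_cast
      congr 1
      ring
    rw [e3]
    exact mul_mem (mul_mem hr e2) hq'
  · rw [hs]
    group

/-! ### Estimates -/

lemma exp_bounds {x : ℝ} (h1 : -1 ≤ x) (h2 : x ≤ 1) :
    Real.exp (x * el) ≤ 6 ∧ 1 / 6 ≤ Real.exp (x * el) := by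
  have he : Real.exp el = ep := by
    unfold el
    exact Real.exp_log ep_pos
  have hel := el_pos
  have h6 := ep_le
  constructor
  · calc Real.exp (x * el) ≤ Real.exp el := Real.exp_le_exp.2 (by nlinarith)
      _ = ep := he
      _ ≤ 6 := h6
  · have h3 : Real.exp (-el) ≤ Real.exp (x * el) := Real.exp_le_exp.2 (by nlinarith)
    rw [Real.exp_neg, he] at h3
    refine le_trans ?_ h3
    rw [one_div]
    exact inv_anti₀ ep_pos h6

lemma bg_bound {v : ℝ × ℝ} (h1 : |v.1| ≤ 1) (h2 : |v.2| ≤ 1) : nn (bg v : Mt) ≤ 6 := by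
  rw [abs_le] at h1 h2
  show nn (diagonal (dgv (v.1 * el) (v.2 * el))) ≤ 6
  rw [nn_diagonal, pi_norm_le_iff_of_nonneg (by norm_num)]
  intro i
  rw [Real.norm_of_nonneg (dgv_pos _ _ i).le]
  fin_cases i
  · exact (exp_bounds h1.1 h1.2).1
  · show Real.exp (-(v.1 * el)) ≤ 6
    rw [← neg_mul]
    exact (exp_bounds (by linarith [h1.2]) (by linarith [h1.1])).1
  · exact (exp_bounds h2.1 h2.2).1
  · show Real.exp (-(v.2 * el)) ≤ 6
    rw [← neg_mul]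
    exact (exp_bounds (by linarith [h2.2]) (by linarith [h2.1])).1

lemma bg_lower {v : ℝ × ℝ} (h1 : |v.1| ≤ 1) (h2 : |v.2| ≤ 1) :
    1 / 6 ≤ (bg v : Mt) 0 0 ∧ 1 / 6 ≤ (bg v : Mt) 2 2 := by
  rw [abs_le] at h1 h2
  exact ⟨(exp_bounds h1.1 h1.2).2, (exp_bounds h2.1 h2.2).2⟩

lemma bg_neg (v : ℝ × ℝ) : bg (-v) = (bg v)⁻¹ := by
  rw [eq_inv_iff_mul_eq_one, ← bg_add, neg_add_cancel, bg_zero]

lemma Sq_abs {v : ℝ × ℝ} (hv : v ∈ Sq) : |v.1| ≤ 1 ∧ |v.2| ≤ 1 := by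
  obtain ⟨⟨h1, h2⟩, ⟨h3, h4⟩⟩ := hv
  constructor <;> rw [abs_le] <;> constructor <;> linarith

lemma Sq_sub_abs {v v' : ℝ × ℝ} (hv : v ∈ Sq) (hv' : v' ∈ Sq) :
    |(-v' + v).1| ≤ 1 ∧ |(-v' + v).2| ≤ 1 := by
  obtain ⟨⟨h1, h2⟩, ⟨h3, h4⟩⟩ := hv
  obtain ⟨⟨h5, h6⟩, ⟨h7, h8⟩⟩ := hv'
  constructor
  · show |-v'.1 + v.1| ≤ 1
    rw [abs_le]; constructor <;> linarith
  · show |-v'.2 + v.2| ≤ 1
    rw [abs_le]; constructor <;> linarith

/-- products of three small perturbations -/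
lemma est1 {B H W W' : Mt} {δ η : ℝ} (hB : nn B ≤ 6) (hH : nn H ≤ 36 * η) (hW : nn (W - 1) ≤ δ)
    (hW' : nn (W' - 1) ≤ 2 * δ) (hδ : δ ≤ 1 / 1000) (hη : η ≤ 1 / 1000) :
    nn (W' * (B + H) * W - B) ≤ 36 * (δ + η) := by
  have e : W' * (B + H) * W - B = ((W' - 1) * (B + H)) * W + ((B + H) * (W - 1) + H) := by noncomm_ring
  have hδ0 : 0 ≤ δ := (nn_nonneg _).trans hW
  have h1 : nn (B + H) ≤ 7 := (nn_add _ _).trans (by linarith)
  have h2 : nn W ≤ 2 := (nn_le_of_near hW).trans (by linarith)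
  have h3 : nn ((W' - 1) * (B + H)) ≤ 2 * δ * 7 :=
    (nn_mul _ _).trans (mul_le_mul hW' h1 (nn_nonneg _) (by linarith))
  have h4 : nn (((W' - 1) * (B + H)) * W) ≤ (2 * δ * 7) * 2 :=
    (nn_mul _ _).trans (mul_le_mul h3 h2 (nn_nonneg _) ((nn_nonneg _).trans h3))
  have h5 : nn ((B + H) * (W - 1)) ≤ 7 * δ :=
    (nn_mul _ _).trans (mul_le_mul h1 hW (nn_nonneg _) ((nn_nonneg _).trans h1))
  have h6 := nn_add (((W' - 1) * (B + H)) * W) ((B + H) * (W - 1) + H)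
  have h7 := nn_add ((B + H) * (W - 1)) H
  rw [e]
  linarith

/-- elements near `1` which relate two windows -/
lemma near_A {k : ℕ} {h : G} {y : X} (h1 : y ∈ Ek k) (h2 : h • y ∈ Ek k)
    (hh : nn ((h : Mt) - 1) ≤ 1 / (10000 * (sD k : ℝ) ^ 4)) :
    ∃ a ∈ A, nn ((h : Mt) - (a : Mt)) ≤ 1008 * dl k := by
  obtain ⟨v, hv, v', hv', w, w', g, hw, hw', hg, e⟩ := Ek_pair h1 h2
  set η := nn ((h : Mt) - 1) with hη
  set δ := dl k with hδ
  have hD1 : (1 : ℝ) ≤ (sD k : ℝ) := by exact_mod_cast sD_pos k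
  have hD4 : (1 : ℝ) ≤ (sD k : ℝ) ^ 4 := one_le_pow₀ hD1
  have hDη : (sD k : ℝ) ^ 4 * η ≤ 1 / 10000 := by
    calc (sD k : ℝ) ^ 4 * η ≤ (sD k : ℝ) ^ 4 * (1 / (10000 * (sD k : ℝ) ^ 4)) := by gcongr
      _ = 1 / 10000 := by field_simp
  have hDδ : (sD k : ℝ) ^ 4 * δ ≤ 1 / 1000000 := by
    calc (sD k : ℝ) ^ 4 * δ ≤ (sD k : ℝ) ^ 4 * ((1 / 2) ^ 20 / (sD k : ℝ) ^ 4) := by
          gcongr
          exact dl_le k
      _ = (1 / 2) ^ 20 := by field_simp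
      _ ≤ 1 / 1000000 := by norm_num
  have hη0 : 0 ≤ η := nn_nonneg _
  have hδ0 : 0 < δ := dl_pos k
  have hη1 : η ≤ 1 / 10000 := by nlinarith
  have hδ1 : δ ≤ 1 / 1000000 := dl_le' k
  obtain ⟨hv1, hv2⟩ := Sq_abs hv
  obtain ⟨hv1', hv2'⟩ := Sq_abs hv'
  have ha : nn (bg v : Mt) ≤ 6 := bg_bound hv1 hv2
  have ha' : nn (bg v' : Mt) ≤ 6 := bg_bound hv1' hv2'
  have hai : nn (((bg v)⁻¹ : G) : Mt) ≤ 6 := by
    rw [← bg_neg]
    exact bg_bound (by simpa using hv1) (by simpa using hv2)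
  have hai' : nn (((bg v')⁻¹ : G) : Mt) ≤ 6 := by
    rw [← bg_neg]
    exact bg_bound (by simpa using hv1') (by simpa using hv2')
  -- the comparison element
  set b : G := bg (-v' + v) with hb
  have hbe : b = (bg v')⁻¹ * bg v := by rw [hb, bg_add, bg_neg]
  obtain ⟨hvv1, hvv2⟩ := Sq_sub_abs hv hv'
  have hbn : nn (b : Mt) ≤ 6 := bg_bound hvv1 hvv2
  have hW' : nn (((w'⁻¹ : G) : Mt) - 1) ≤ 2 * δ := nn_inv_near hw'.le (by linarith)
  have hge : (g : Mt) = ((w'⁻¹ : G) : Mt) * ((b : Mt) +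
      (((bg v')⁻¹ : G) : Mt) * ((h : Mt) - 1) * (bg v : Mt)) * (w : Mt) := by
    have e1 : g = w'⁻¹ * ((bg v')⁻¹ * h * bg v) * w := by
      have e2 : w'⁻¹ * ((bg v')⁻¹ * h * bg v) * w = w'⁻¹ * (bg v')⁻¹ * (h * bg v * w) := by group
      rw [e2, e]
      group
    have e3 : (b : Mt) + (((bg v')⁻¹ : G) : Mt) * ((h : Mt) - 1) * (bg v : Mt) =
        (((bg v')⁻¹ * h * bg v : G) : Mt) := by
      rw [hbe, co_mul, co_mul, co_mul, mul_sub, sub_mul, mul_one]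
      abel
    rw [e3, ← co_mul, ← co_mul, ← e1]
  have hH : nn ((((bg v')⁻¹ : G) : Mt) * ((h : Mt) - 1) * (bg v : Mt)) ≤ 36 * η := by
    have h3 : nn ((((bg v')⁻¹ : G) : Mt) * ((h : Mt) - 1)) ≤ 6 * η :=
      (nn_mul _ _).trans (mul_le_mul_of_nonneg_right hai' (nn_nonneg _))
    calc _ ≤ (6 * η) * 6 := (nn_mul _ _).trans (mul_le_mul h3 ha (nn_nonneg _) (by linarith))
      _ = 36 * η := by ring
  have hgb : nn ((g : Mt) - (b : Mt)) ≤ 36 * (δ + η) := by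
    rw [hge]
    exact est1 hbn hH hw.le hW' (by linarith) (by linarith)
  set ρ := 36 * (δ + η) with hρ
  have hρ1 : ρ ≤ 1 / 100 := by rw [hρ]; linarith
  have hρ0 : 0 ≤ ρ := (nn_nonneg _).trans hgb
  have hDρ : (sD k : ℝ) ^ 4 * ρ ≤ 4 / 1000 := by
    rw [hρ]
    nlinarith
  have hent : ∀ i j, |(g : Mt) i j - (b : Mt) i j| ≤ ρ := fun i j =>
    (entry_le ((g : Mt) - (b : Mt)) i j).trans hgb
  have hDpos : 0 < sD k ^ 2 := pow_pos (sD_pos k) 2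
  have hD2 : (sD k : ℝ) ^ 2 ≤ (sD k : ℝ) ^ 4 := pow_le_pow_right₀ hD1 (by norm_num)
  -- off-diagonal entries
  have hoff : ∀ i j, i ≠ j → (g : Mt) i j = 0 := by
    intro i j hij
    have hb0 : ∀ i j : Fin 4, i ≠ j → (b : Mt) i j = 0 := fun i j hij => by
      rw [hb]
      show (diagonal (dgv _ _) : Mt) i j = 0
      rw [diagonal_apply, if_neg hij]
    have hcij : cj i ≠ cj j := by
      revert i j
      decide
    refine entry_zero hg (ρ := ρ) i j ?_ ?_ ?_ hDpos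
    · have := hent i j
      rwa [hb0 i j hij, sub_zero] at this
    · have := hent (cj i) (cj j)
      rwa [hb0 _ _ hcij, sub_zero] at this
    · push_cast
      nlinarith
  have hbe' : ∀ i, (b : Mt) i i = dgv ((-v' + v).1 * el) ((-v' + v).2 * el) i := by
    intro i
    rw [hb]
    show (diagonal (dgv _ _) : Mt) i i = _
    rw [diagonal_apply, if_pos rfl]
  have hbij : ∀ i j, |(b : Mt) i j| ≤ 6 := fun i j => (entry_le _ i j).trans hbn
  have hone : ∀ i j : Fin 4, j = cj i → (b : Mt) i i * (b : Mt) j j = 1 → (g : Mt) i i * (g : Mt) j j = 1 := by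
    intro i j hj hbb
    subst hj
    refine entry_one hg (ρ := 13 * ρ) i i ?_ ?_ hDpos
    · have e1 : (g : Mt) i i * (g : Mt) (cj i) (cj i) - 1 =
          ((g : Mt) i i - (b : Mt) i i) * ((g : Mt) (cj i) (cj i) - (b : Mt) (cj i) (cj i)) +
          ((g : Mt) i i - (b : Mt) i i) * (b : Mt) (cj i) (cj i) +
          (b : Mt) i i * ((g : Mt) (cj i) (cj i) - (b : Mt) (cj i) (cj i)) := by
        linear_combination hbb
      rw [e1]
      have t1 := hent i i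
      have t2 := hent (cj i) (cj i)
      have t3 := hbij i i
      have t4 := hbij (cj i) (cj i)
      calc _ ≤ |((g : Mt) i i - (b : Mt) i i) * ((g : Mt) (cj i) (cj i) - (b : Mt) (cj i) (cj i)) +
          ((g : Mt) i i - (b : Mt) i i) * (b : Mt) (cj i) (cj i)| +
          |(b : Mt) i i * ((g : Mt) (cj i) (cj i) - (b : Mt) (cj i) (cj i))| := abs_add_le _ _
        _ ≤ |((g : Mt) i i - (b : Mt) i i) * ((g : Mt) (cj i) (cj i) - (b : Mt) (cj i) (cj i))| +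
          |((g : Mt) i i - (b : Mt) i i) * (b : Mt) (cj i) (cj i)| +
          |(b : Mt) i i * ((g : Mt) (cj i) (cj i) - (b : Mt) (cj i) (cj i))| := by
            gcongr
            exact abs_add_le _ _
        _ ≤ ρ * ρ + ρ * 6 + 6 * ρ := by
            rw [abs_mul, abs_mul, abs_mul]
            gcongr
        _ ≤ 13 * ρ := by nlinarith
    · push_cast
      have e2 : (16 : ℝ) * ((sD k : ℝ) ^ 2) ^ 2 * (13 * ρ) = 208 * ((sD k : ℝ) ^ 4 * ρ) := by ring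
      rw [e2]
      linarith
  have hlow := bg_lower hvv1 hvv2
  have hgA : g ∈ A := by
    refine mem_A_of hoff ?_ ?_ ?_ ?_
    · have h3 := hent 0 0
      rw [abs_le] at h3
      linarith [hlow.1, h3.1]
    · refine hone 0 1 rfl ?_
      rw [hbe', hbe']
      show Real.exp _ * Real.exp (-_) = 1
      rw [← Real.exp_add]
      simp
    · have h3 := hent 2 2
      rw [abs_le] at h3
      linarith [hlow.2, h3.1]
    · refine hone 2 3 rfl ?_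
      rw [hbe', hbe']
      show Real.exp _ * Real.exp (-_) = 1
      rw [← Real.exp_add]
      simp
  refine ⟨bg v' * g * (bg v)⁻¹, mul_mem (mul_mem (mem_A_iff_bg.2 ⟨v', rfl⟩) hgA)
    (inv_mem (mem_A_iff_bg.2 ⟨v, rfl⟩)), ?_⟩
  have he : h = bg v' * (w' * g * w⁻¹) * (bg v)⁻¹ := by
    have e1 : h = (h * bg v * w) * w⁻¹ * (bg v)⁻¹ := by group
    rw [e1, e]
    simp only [mul_assoc]
  have hWi : nn (((w⁻¹ : G) : Mt) - 1) ≤ 2 * δ := nn_inv_near hw.le (by linarith)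
  have hgn : nn (g : Mt) ≤ 7 := by
    have h3 := nn_add ((g : Mt) - (b : Mt)) (b : Mt)
    rw [sub_add_cancel] at h3
    linarith
  have e4 : (h : Mt) - ((bg v' * g * (bg v)⁻¹ : G) : Mt) =
      (bg v' : Mt) * ((((w' : Mt) - 1) * (g : Mt)) * ((w⁻¹ : G) : Mt) + (g : Mt) * (((w⁻¹ : G) : Mt) - 1)) *
        (((bg v)⁻¹ : G) : Mt) := by
    conv_lhs => rw [he]
    rw [co_mul, co_mul, co_mul, co_mul, co_mul, co_mul]
    noncomm_ring
  rw [e4]
  have t1 : nn (((w' : Mt) - 1) * (g : Mt)) ≤ δ * 7 :=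
    (nn_mul _ _).trans (mul_le_mul hw'.le hgn (nn_nonneg _) hδ0.le)
  have t2 : nn ((w⁻¹ : G) : Mt) ≤ 2 := (nn_le_of_near hWi).trans (by linarith)
  have t3 : nn ((((w' : Mt) - 1) * (g : Mt)) * ((w⁻¹ : G) : Mt)) ≤ δ * 7 * 2 :=
    (nn_mul _ _).trans (mul_le_mul t1 t2 (nn_nonneg _) (by positivity))
  have t4 : nn ((g : Mt) * (((w⁻¹ : G) : Mt) - 1)) ≤ 7 * (2 * δ) :=
    (nn_mul _ _).trans (mul_le_mul hgn hWi (nn_nonneg _) (by norm_num))
  have t5 : nn ((((w' : Mt) - 1) * (g : Mt)) * ((w⁻¹ : G) : Mt) + (g : Mt) * (((w⁻¹ : G) : Mt) - 1)) ≤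
      28 * δ := (nn_add _ _).trans (by linarith)
  have t6 : nn ((bg v' : Mt) * ((((w' : Mt) - 1) * (g : Mt)) * ((w⁻¹ : G) : Mt) +
      (g : Mt) * (((w⁻¹ : G) : Mt) - 1))) ≤ 6 * (28 * δ) :=
    (nn_mul _ _).trans (mul_le_mul ha' t5 (nn_nonneg _) (by norm_num))
  calc _ ≤ (6 * (28 * δ)) * 6 := (nn_mul _ _).trans (mul_le_mul t6 hai (nn_nonneg _) (by positivity))
    _ = 1008 * δ := by ring

/-- elements of stabilizers near `1` are very close to `A` -/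
lemma stab_near_A (β : ℕ → Fin 4) (m : Measure X) [IsProbabilityMeasure m] (N : ℕ)
    (hm' : m ≤ (N : ℝ≥0∞) • mu β) : ∃ k0 : ℕ, ∀ k, k0 ≤ k → ∀ h ∈ stab G m,
      nn ((h : Mt) - 1) ≤ 1 / (10000 * (sD k : ℝ) ^ 4) →
      ∃ a ∈ A, nn ((h : Mt) - (a : Mt)) ≤ 1008 * dl k := by
  obtain ⟨k0, hk0⟩ : ∃ k0 : ℕ, ∀ k, k0 ≤ k → m (Ek k)ᶜ < 1 / 2 := by
    obtain ⟨k0, hk0⟩ : ∃ k0 : ℕ, 2 * N < 2 ^ k0 := ⟨2 * N, Nat.lt_two_pow_self⟩
    refine ⟨k0, fun k hk => ?_⟩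
    have h1 : m (Ek k)ᶜ ≤ (N : ℝ≥0∞) * (1 / 2) ^ k := by
      refine (hm' _).trans ?_
      rw [Measure.smul_apply, smul_eq_mul]
      gcongr
      exact mu_Ek_compl β k
    refine lt_of_le_of_lt h1 ?_
    rw [one_div, ← ENNReal.inv_pow, ← div_eq_mul_inv]
    have h2 : ((2 * N : ℕ) : ℝ≥0∞) < ((2 ^ k : ℕ) : ℝ≥0∞) := by
      exact_mod_cast hk0.trans_le (Nat.pow_le_pow_right (by norm_num) hk)
    push_cast at h2
    refine ENNReal.div_lt_of_lt_mul ?_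
    calc (N : ℝ≥0∞) = 2⁻¹ * (2 * N) := by
          rw [← mul_assoc, ENNReal.inv_mul_cancel (by norm_num) (by norm_num), one_mul]
      _ < 2⁻¹ * 2 ^ k := by
          refine (ENNReal.mul_lt_mul_iff_right ?_ ?_).2 h2
          · norm_num
          · norm_num
  refine ⟨k0, fun k hk h hh hn => ?_⟩
  obtain ⟨y, hy1, hy2⟩ : ∃ y, y ∈ Ek k ∧ h • y ∈ Ek k := by
    by_contra hcon
    push Not at hcon
    have h1 : (Set.univ : Set X) ⊆ (Ek k)ᶜ ∪ (fun x => h • x) ⁻¹' (Ek k)ᶜ := by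
      intro y _
      by_cases hy : y ∈ Ek k
      · exact Or.inr (hcon y hy)
      · exact Or.inl hy
    have h2 : m ((fun x => h • x) ⁻¹' (Ek k)ᶜ) = m (Ek k)ᶜ := by
      have h3 : m.map (fun x => h • x) = m := hh
      conv_rhs => rw [← h3]
      rw [Measure.map_apply (measurable_smul' h) (isOpen_Ek k).measurableSet.compl]
    have h4 : (1 : ℝ≥0∞) ≤ m (Ek k)ᶜ + m (Ek k)ᶜ := by
      calc (1 : ℝ≥0∞) = m Set.univ := measure_univ.symm
        _ ≤ _ := measure_mono h1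
        _ ≤ m (Ek k)ᶜ + m ((fun x => h • x) ⁻¹' (Ek k)ᶜ) := measure_union_le _ _
        _ = _ := by rw [h2]
    have h5 := hk0 k hk
    have h6 : m (Ek k)ᶜ + m (Ek k)ᶜ < 1 / 2 + 1 / 2 := ENNReal.add_lt_add h5 h5
    rw [ENNReal.add_halves] at h6
    exact absurd h4 (not_le.2 h6)
  exact near_A hy1 hy2 hn

end Pool.Agent.H286.MR
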