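import Mathlib
import Pool.Agent.H286.MR.Win
import Pool.Agent.H286.MR.CS

/-! The measure `μ` is not virtually homogeneous -/

set_option autoImplicit false

namespace Pool.Agent.H286.MR

open MeasureTheory Filter Topology Matrix
open scoped ENNReal
open Pool.Agent.TH225.OC (G Gam X)
open Pool.Agent.Y319.MR (stab IsVirtuallyHomogeneous IsHomogeneous)

lemma two_le_sN (j : ℕ) : 2 ≤ sN j := by
  have h1 : (2 : ℝ) ≤ (sN j : ℝ) := by
    rw [sN_cast]
    have h2 := epM_ge j
    have h3 := ep'M_pos j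
    linarith
  exact_mod_cast h1

lemma two_pow_le_sD (j : ℕ) : 2 ^ j ≤ sD j := by
  induction j with
  | zero => rw [sD_zero]; norm_num
  | succ j ih =>
    rw [sD_succ, pow_succ]
    exact Nat.mul_le_mul ih (two_le_sN j)

lemma Wp_closure (β : ℕ → Fin 4) (m : Measure X) [IsProbabilityMeasure m] (N : ℕ)
    (hm' : m ≤ (N : ℝ≥0∞) • mu β) : Wp (stab G m).topologicalClosure := by
  obtain ⟨k0, hk0⟩ := stab_near_A β m N hm'
  have hDpos : ∀ k, (0 : ℝ) < (sD k : ℝ) := fun k => by exact_mod_cast sD_pos k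
  refine ⟨fun k => 1 / (10000 * (sD (k + k0) : ℝ) ^ 4), fun k => 10090000 * (1 / 2) ^ k,
    fun k => ?_, ?_, ?_, ?_⟩
  · have := hDpos (k + k0)
    positivity
  · have h1 : Tendsto (fun k : ℕ => (1 / 2 : ℝ) ^ k) atTop (𝓝 0) :=
      tendsto_pow_atTop_nhds_zero_of_lt_one (by norm_num) (by norm_num)
    refine squeeze_zero (fun k => ?_) (fun k => ?_) h1
    · have := hDpos (k + k0)
      positivity
    · have h2 : (2 : ℝ) ^ k ≤ (sD (k + k0) : ℝ) := by
        have h3 : 2 ^ k ≤ sD (k + k0) :=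
          (Nat.pow_le_pow_right (by norm_num) (Nat.le_add_right k k0)).trans (two_pow_le_sD _)
        exact_mod_cast h3
      have h4 : (1 : ℝ) ≤ 2 ^ k := one_le_pow₀ (by norm_num)
      have h5 : (2 : ℝ) ^ k ≤ 10000 * (sD (k + k0) : ℝ) ^ 4 := by
        have h6 : (1 : ℝ) ≤ (sD (k + k0) : ℝ) := h4.trans h2
        have h7 : (sD (k + k0) : ℝ) ≤ (sD (k + k0) : ℝ) ^ 4 := le_self_pow₀ h6 (by norm_num)
        linarith
      rw [_root_.one_div_pow]
      exact one_div_le_one_div_of_le (by positivity) h5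
  · have h1 : Tendsto (fun k : ℕ => (1 / 2 : ℝ) ^ k) atTop (𝓝 0) :=
      tendsto_pow_atTop_nhds_zero_of_lt_one (by norm_num) (by norm_num)
    have h2 := h1.const_mul (10090000 : ℝ)
    rwa [mul_zero] at h2
  · intro k h hh hn
    have hopen : IsOpen {g : G | nn ((g : Mt) - 1) < 1 / (10000 * (sD (k + k0) : ℝ) ^ 4) ∧
        nn ((h : Mt) - (g : Mt)) < dl (k + k0)} := by
      refine IsOpen.inter ?_ ?_
      · exact isOpen_lt continuous_nn_sl continuous_const
      · exact isOpen_lt (continuous_nn.comp (continuous_const.sub continuous_subtype_val)) continuous_const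
    have hmem : h ∈ {g : G | nn ((g : Mt) - 1) < 1 / (10000 * (sD (k + k0) : ℝ) ^ 4) ∧
        nn ((h : Mt) - (g : Mt)) < dl (k + k0)} := by
      refine ⟨hn, ?_⟩
      rw [sub_self, nn_zero]
      exact dl_pos _
    obtain ⟨g, ⟨hg1, hg2⟩, hgH⟩ := mem_closure_iff.1 hh _ hopen hmem
    obtain ⟨a, ha, hga⟩ := hk0 (k + k0) (Nat.le_add_left _ _) g hgH hg1.le
    refine ⟨a, ha, ?_⟩
    have h1 : (h : Mt) - (a : Mt) = ((h : Mt) - (g : Mt)) + ((g : Mt) - (a : Mt)) := by abel
    have h2 : nn ((h : Mt) - (a : Mt)) ≤ 1009 * dl (k + k0) := by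
      rw [h1]
      exact (nn_add _ _).trans (by linarith)
    refine h2.trans ?_
    have h3 := hDpos (k + k0)
    have h4 : dl (k + k0) ≤ (1 / 2) ^ k / (sD (k + k0) : ℝ) ^ 4 := by
      unfold dl
      gcongr ?_ / _
      exact pow_le_pow_of_le_one (by norm_num) (by norm_num) (by omega)
    calc 1009 * dl (k + k0) ≤ 1009 * ((1 / 2) ^ k / (sD (k + k0) : ℝ) ^ 4) := by gcongr
      _ = 10090000 * (1 / 2) ^ k * (1 / (10000 * (sD (k + k0) : ℝ) ^ 4)) := by
          field_simp
          norm_num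

/-- stabilizers are contained in `A` near `1` -/
lemma stab_near (β : ℕ → Fin 4) (m : Measure X) [IsProbabilityMeasure m] (N : ℕ)
    (hm' : m ≤ (N : ℝ≥0∞) • mu β) : ∃ δ : ℝ, 0 < δ ∧ ∀ h ∈ stab G m, nn ((h : Mt) - 1) < δ → h ∈ A := by
  obtain ⟨δ, hδ, h⟩ := near_one_mem_A (Subgroup.isClosed_topologicalClosure (stab G m))
    (Wp_closure β m N hm')
  exact ⟨δ, hδ, fun g hg => h g (Subgroup.le_topologicalClosure _ hg)⟩

/-- orbits of stabilizers are null sets -/
lemma orbit_null (β : ℕ → Fin 4) (hβ : ∀ r, ∃ᶠ j in atTop, β j = r) (m : Measure X)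
    [IsProbabilityMeasure m] (N : ℕ) (hm' : m ≤ (N : ℝ≥0∞) • mu β) (x : X) :
    m (MulAction.orbit (stab G m) x) = 0 := by
  obtain ⟨δ, hδ, hnear⟩ := stab_near β m N hm'
  have hsc : SecondCountableTopology (stab G m) :=
    TopologicalSpace.Subtype.secondCountableTopology _
  obtain ⟨C, hCc, hCd⟩ := TopologicalSpace.exists_countable_dense (stab G m)
  have hz : ∀ c : stab G m, ∃ z : G, (QuotientGroup.mk z : X) = c • x := fun c =>
    QuotientGroup.mk_surjective _
  choose z hz using hz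
  have hsub : MulAction.orbit (stab G m) x ⊆ ⋃ c ∈ C, {y : X | ∃ a ∈ A, y = QuotientGroup.mk (a * z c)} := by
    rintro _ ⟨h, rfl⟩
    have hopen : IsOpen {c : stab G m | nn ((((h : G) * (c : G)⁻¹ : G) : Mt) - 1) < δ} := by
      refine isOpen_lt (continuous_nn_sl.comp ?_) continuous_const
      exact continuous_const.mul continuous_subtype_val.inv
    have hne : {c : stab G m | nn ((((h : G) * (c : G)⁻¹ : G) : Mt) - 1) < δ}.Nonempty := by
      refine ⟨h, ?_⟩
      show nn ((((h : G) * (h : G)⁻¹ : G) : Mt) - 1) < δ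
      rw [mul_inv_cancel, co_one, sub_self, nn_zero]
      exact hδ
    obtain ⟨c, hc, hcC⟩ := hCd.inter_open_nonempty _ hopen hne
    have h1 : (h : G) * (c : G)⁻¹ ∈ A := hnear _ (mul_mem h.2 (inv_mem c.2)) hc
    refine Set.mem_biUnion hcC ⟨_, h1, ?_⟩
    have h2 : (QuotientGroup.mk ((h : G) * (c : G)⁻¹ * z c) : X) =
        ((h : G) * (c : G)⁻¹) • (QuotientGroup.mk (z c) : X) := rfl
    rw [h2, hz]
    show (h : G) • x = ((h : G) * (c : G)⁻¹) • ((c : G) • x)
    rw [smul_smul, inv_mul_cancel_right]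
  refine measure_mono_null hsub ?_
  rw [measure_biUnion_null_iff hCc]
  intro c _
  refine le_antisymm ((hm' _).trans ?_) zero_le
  rw [Measure.smul_apply, mu_orbit β hβ, smul_zero]

/-- the measure is not virtually homogeneous -/
theorem not_vh (β : ℕ → Fin 4) (hβ : ∀ r, ∃ᶠ j in atTop, β j = r) :
    ¬ IsVirtuallyHomogeneous G (mu β) := by
  rintro ⟨m, L, ⟨x, hx⟩, -, hfin, hmu⟩
  have hcard : Fintype.card (L ⧸ (stab G m).subgroupOf L) ≠ 0 := Fintype.card_ne_zero
  have hcard' : (Fintype.card (L ⧸ (stab G m).subgroupOf L) : ℝ≥0∞) ≠ 0 := by exact_mod_cast hcard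
  have hcardt : (Fintype.card (L ⧸ (stab G m).subgroupOf L) : ℝ≥0∞) ≠ ⊤ := ENNReal.natCast_ne_top _
  have hprob : IsProbabilityMeasure m := by
    constructor
    have h1 : mu β Set.univ = 1 := measure_univ
    rw [hmu, Measure.smul_apply, Measure.finsetSum_apply] at h1
    have h2 : ∀ q : L ⧸ (stab G m).subgroupOf L,
        (m.map (fun x : X => ((q.out : L) : G) • x)) Set.univ = m Set.univ := by
      intro q
      rw [Measure.map_apply (measurable_smul' _) MeasurableSet.univ, Set.preimage_univ]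
    rw [Finset.sum_congr rfl fun q _ => h2 q, Finset.sum_const, Finset.card_univ, nsmul_eq_mul,
      smul_eq_mul, ← mul_assoc, ENNReal.inv_mul_cancel hcard' hcardt, one_mul] at h1
    exact h1
  have hle : m ≤ ((Fintype.card (L ⧸ (stab G m).subgroupOf L) : ℕ) : ℝ≥0∞) • mu β := by
    rw [hmu, smul_smul, ENNReal.mul_inv_cancel hcard' hcardt, one_smul]
    have h3 : (((QuotientGroup.mk 1 : L ⧸ (stab G m).subgroupOf L).out : L) : G) ∈ stab G m := by
      have h4 : (QuotientGroup.mk (QuotientGroup.mk 1 : L ⧸ (stab G m).subgroupOf L).out :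
          L ⧸ (stab G m).subgroupOf L) = QuotientGroup.mk 1 := Quotient.out_eq' _
      have h5 := QuotientGroup.eq.1 h4
      rw [mul_one] at h5
      have h6 := inv_mem h5
      rw [inv_inv] at h6
      exact h6
    have h7 : m.map (fun x : X => (((QuotientGroup.mk 1 : L ⧸ (stab G m).subgroupOf L).out : L) : G) • x) =
      m := h3
    conv_lhs => rw [← h7]
    intro s
    rw [Measure.finsetSum_apply]
    exact Finset.single_le_sum
      (f := fun q : L ⧸ (stab G m).subgroupOf L => (m.map (fun x : X => ((q.out : L) : G) • x)) s)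
      (fun _ _ => zero_le) (Finset.mem_univ (QuotientGroup.mk 1 : L ⧸ (stab G m).subgroupOf L))
  have h0 : m (MulAction.orbit (stab G m) x) = 0 := orbit_null β hβ m _ hle x
  have h1 : m Set.univ ≤ m (MulAction.orbit (stab G m) x) + m (MulAction.orbit (stab G m) x)ᶜ := by
    rw [← Set.union_compl_self (MulAction.orbit (stab G m) x)]
    exact measure_union_le _ _
  have hx' : m (MulAction.orbit (stab G m) x)ᶜ = 0 := hx
  rw [h0, hx', measure_univ, add_zero] at h1
  exact absurd h1 (by norm_num)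

end Pool.Agent.H286.MR
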